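import Mathlib
import Pool.Agent.Helper5.GKK.Basic

/-!
Universality for limits of strict GKK matrices: general index types, sides, gadgets.
-/

namespace Pool.Agent.Helper63.UR

open Matrix Finset Pool.Agent.Helper5.GKK
open scoped ComplexOrder

section general

variable {ι : Type*} [Fintype ι] [DecidableEq ι] {𝕜 : Type*} [Field 𝕜]

/-- the principal minor of a matrix with any finite index type -/
noncomputable def pmg (M : Matrix ι ι 𝕜) (S : Finset ι) : 𝕜 :=
  (M.submatrix (Subtype.val : S → ι) Subtype.val).det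

/-- the entries of the Schur complement -/
noncomputable def scg (M : Matrix ι ι 𝕜) (K : Finset ι) (i j : ι) : 𝕜 :=
  M i j - ∑ x : K, ∑ y : K, M i x * (M.submatrix (Subtype.val : K → ι) Subtype.val)⁻¹ x y * M y j

end general

section lim

variable {ι : Type*} [Fintype ι] [DecidableEq ι] {n : ℕ}

/-- the real matrix `M` over `ι`, enumerated by `c` and seen as a complex matrix -/
noncomputable def cm (c : Fin n ≃ ι) (M : Matrix ι ι ℝ) : Matrix (Fin n) (Fin n) ℂ :=
  (M.map (fun x : ℝ => (x : ℂ))).submatrix c c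

/-- `M` is a limit of strict GKK matrices -/
def InL (c : Fin n ≃ ι) (M : Matrix ι ι ℝ) : Prop :=
  cm c M ∈ closure {B : Matrix (Fin n) (Fin n) ℂ | IsStrictGKK B}

/-- strictness over any finite index type, for real or complex matrices -/
def Strict (M : Matrix ι ι ℂ) : Prop :=
  (∀ S, 0 < pmg M S) ∧ ∀ (K : Finset ι) (i j : ι), i ∉ K → j ∉ K → i ≠ j →
    0 < scg M K i j * scg M K j i

/-- Block lower triangular matrices (blocks given by `p`) with diagonal `1` whose diagonal blocks
are row diagonally dominant `Z`-matrices. -/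
structure LBM (p : ι → ℕ) (M : Matrix ι ι ℝ) : Prop where
  diag : ∀ i, M i i = 1
  low : ∀ i j, p i < p j → M i j = 0
  off : ∀ i j, p i = p j → i ≠ j → M i j ≤ 0
  row : ∀ i, ∑ j ∈ univ.filter (fun j => j ≠ i ∧ p j = p i), -(M i j) < 1

end lim

section sides

variable (V C : Type) [Fintype V] [DecidableEq V] [Fintype C] [DecidableEq C]

/-- the indices: heavy rows `V`, light comparators `C × Bool`, the base column and the gadget
columns `Option C`, and the last block `C × Bool` -/
abbrev Ix : Type := (V ⊕ (C × Bool)) ⊕ (Option C ⊕ (C × Bool))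

variable {V C}

/-- the block of an index -/
def blk : Ix V C → ℕ
  | Sum.inl _ => 0
  | Sum.inr (Sum.inl _) => 1
  | Sum.inr (Sum.inr _) => 2

variable (V C)

/-- the data of one side -/
structure Side where
  a : V → C × Bool → ℝ
  b : C × Bool → V → ℝ
  PV : Option C → V → ℝ
  PG : Option C → C × Bool → ℝ
  QV : C × Bool → V → ℝ
  QG : C × Bool → C × Bool → ℝ
  Y : C × Bool → Option C → ℝ

variable {V C}

/-- the block lower triangular matrix of a side -/
def Side.mat (s : Side V C) : Matrix (Ix V C) (Ix V C) ℝ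
  | Sum.inl (Sum.inl x), Sum.inl (Sum.inl y) => if x = y then 1 else 0
  | Sum.inl (Sum.inl x), Sum.inl (Sum.inr g) => -s.a x g
  | Sum.inl (Sum.inr g), Sum.inl (Sum.inl y) => -s.b g y
  | Sum.inl (Sum.inr g), Sum.inl (Sum.inr g') => if g = g' then 1 else 0
  | Sum.inl _, Sum.inr _ => 0
  | Sum.inr (Sum.inl c), Sum.inl (Sum.inl y) => s.PV c y
  | Sum.inr (Sum.inl c), Sum.inl (Sum.inr g) => s.PG c g
  | Sum.inr (Sum.inl c), Sum.inr (Sum.inl c') => if c = c' then 1 else 0
  | Sum.inr (Sum.inl _), Sum.inr (Sum.inr _) => 0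
  | Sum.inr (Sum.inr e), Sum.inl (Sum.inl y) => s.QV e y
  | Sum.inr (Sum.inr e), Sum.inl (Sum.inr g) => s.QG e g
  | Sum.inr (Sum.inr e), Sum.inr (Sum.inl c) => s.Y e c
  | Sum.inr (Sum.inr e), Sum.inr (Sum.inr e') => if e = e' then 1 else 0

/-- the local value of the comparator `g` -/
def Side.val (s : Side V C) (g : C × Bool) (S : Finset V) : ℝ :=
  s.PG (some g.1) g + ∑ y ∈ S, s.a y g * s.PV (some g.1) y

/-- the local value of the last block -/
def Side.evl (s : Side V C) (e : C × Bool) (x : V) (T : Finset (Option C)) : ℝ :=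
  s.QV e x - ∑ c ∈ T, s.Y e c * s.PV c x

/-- the local value of the last block at comparators -/
def Side.evg (s : Side V C) (e g : C × Bool) (T : Finset (Option C)) : ℝ :=
  s.QG e g - ∑ c ∈ T, s.Y e c * s.PG c g

/-- the conditions on one side -/
structure Side.Good (s : Side V C) (adj : C × Bool → V → Prop) (ν : ℝ) : Prop where
  ν_pos : 0 < ν
  ν_le : ν ≤ 1
  a_adj : ∀ g y, adj g y → ν ≤ s.a y g
  b_adj : ∀ g y, adj g y → ν ≤ s.b g y
  a_nadj : ∀ g y, ¬ adj g y → s.a y g = 0
  b_nadj : ∀ g y, ¬ adj g y → s.b g y = 0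
  a_row : ∀ y, ∑ g, s.a y g ≤ 1 / 2
  b_row : ∀ g, ∑ y, s.b g y ≤ 1 / 2
  disj : ∀ c b b' y, adj (c, b) y → adj (c, b') y → b = b'
  PV_pos : ∀ c y, 0 < s.PV c y
  PG_neg : ∀ c g, s.PG c g < 0
  dom : ∀ c (g : C × Bool), c ≠ some g.1 → s.PG c g * ν ^ 3 + ∑ y, s.PV c y < 0
  light : ∀ (g : C × Bool) y, adj g y → 0 < s.PV (some g.1) y + 2 * s.b g y * s.PG (some g.1) g
  edom : ∀ e g T, s.evg e g T * ν + ∑ y, |s.evl e y T| < 0
  Y_pos : ∀ e c, 0 < s.Y e c

/-- `ω` solves the fixed point equations of the side `s` for the set `K` and the index `d` -/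
structure Side.Cert (s : Side V C) (K : Finset (V ⊕ (C × Bool))) (d : V ⊕ (C × Bool))
    (ω : V ⊕ (C × Bool) → ℝ) : Prop where
  one : ω d = 1
  zero : ∀ k, k ∉ insert d K → ω k = 0
  hv : ∀ y, Sum.inl y ∈ K → ω (Sum.inl y) = ∑ g, s.a y g * ω (Sum.inr g)
  lt : ∀ g, Sum.inr g ∈ K → ω (Sum.inr g) = ∑ y, s.b g y * ω (Sum.inl y)

/-- the part of `K` in the first block -/
def lpart (K : Finset (Ix V C)) : Finset (V ⊕ (C × Bool)) := univ.filter fun d => Sum.inl d ∈ K

/-- the part of `K` in the second block -/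
def cpart (K : Finset (Ix V C)) : Finset (Option C) := univ.filter fun c => Sum.inr (Sum.inl c) ∈ K

end sides

section gadgets

variable {V C : Type} [Fintype V] [DecidableEq V] [Fintype C] [DecidableEq C]

/-- gadgets -/
structure Gad (V : Type) where
  X : V → ℚ
  wt : Bool → V → ℚ
  a : Bool → V → ℚ
  th : Bool → ℚ
  el : Bool → V
  er : Bool → V

/-- well formed gadgets -/
structure Gad.Ok (G : Gad V) : Prop where
  X_lo : ∀ y, 1 / 4 ≤ G.X y
  X_hi : ∀ y, G.X y ≤ 4
  X_el : ∀ b, G.X (G.el b) = 4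
  X_er : ∀ b, G.X (G.er b) = 1 / 4
  supp : ∀ b y, (G.wt b y = 0 ∧ G.a b y = 0) ∨
    (1 ≤ G.wt b y ∧ G.wt b y ≤ 2 ∧ 1 ≤ G.a b y ∧ G.a b y ≤ 16)
  disj : ∀ y, G.wt false y = 0 ∨ G.wt true y = 0
  th_lo : ∀ b, 1 ≤ G.th b
  th_hi : ∀ b, G.th b ≤ 16
  ne : ∀ b (S : Finset V), ∑ y ∈ S, G.a b y ≠ G.th b

/-- exact solutions of the local system of the gadget, in a box -/
def Gad.Sol (G : Gad V) (z : V → ℝ) : Prop :=
  ∃ (Z : V → ℝ) (β : Bool → ℝ), (∀ y, 1 / 2 ≤ Z y ∧ Z y ≤ 2) ∧ (∀ b, 0 < β b ∧ β b ≤ 4) ∧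
    (∀ b (S : Finset V), (∑ y ∈ S, G.a b y < G.th b → ∑ y ∈ S, (G.wt b y : ℝ) * Z y ≤ β b) ∧
      (G.th b < ∑ y ∈ S, G.a b y → β b ≤ ∑ y ∈ S, (G.wt b y : ℝ) * Z y)) ∧
    ∀ b, z (G.el b) * Z (G.er b) ≤ z (G.er b) * Z (G.el b)

/-- relaxed solutions -/
def Gad.Rel (G : Gad V) (δ : ℝ) (z : V → ℝ) : Prop :=
  ∃ (Z : V → ℝ) (β : Bool → ℝ), (∀ y, 0 < Z y) ∧ (∀ b, 0 < β b) ∧
    (∀ b (S : Finset V), (∀ y ∈ S, G.wt b y ≠ 0) →
      (∑ y ∈ S, G.a b y < G.th b → ∑ y ∈ S, (G.wt b y : ℝ) * Z y ≤ (1 + δ) * β b) ∧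
      (G.th b < ∑ y ∈ S, G.a b y → β b ≤ (1 + δ) * ∑ y ∈ S, (G.wt b y : ℝ) * Z y)) ∧
    ∀ b, z (G.el b) * Z (G.er b) ≤ (1 + δ) * (z (G.er b) * Z (G.el b))

/-- the scale `t` -/
def tq (V C : Type) [Fintype V] [Fintype C] : ℚ :=
  1 / (400 * (Fintype.card C + Fintype.card V + 1))

/-- the lower bound for the entries -/
def nq (V C : Type) [Fintype V] [Fintype C] : ℚ := tq V C / 4

/-- the huge entries -/
def Hq (V C : Type) [Fintype V] [Fintype C] : ℚ := (4 * Fintype.card V + 1) / nq V C ^ 3

/-- the superhuge entries -/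
def Hq2 (V C : Type) [Fintype V] [Fintype C] : ℚ :=
  3 * Hq V C + (20 * Fintype.card V + 1) / nq V C

/-- the small entries -/
def sq (C : Type) [Fintype C] : ℚ := 1 / (32 * (Fintype.card C + 1))

/-- **The matrix of a family of gadgets.** -/
def gM (G : C → Gad V) : Matrix (Ix V C) (Ix V C) ℚ
  | Sum.inl (Sum.inl x), Sum.inl (Sum.inl y) => if x = y then 1 else 0
  | Sum.inl (Sum.inl x), Sum.inl (Sum.inr g) => -(tq V C * (G g.1).a g.2 x / (G g.1).X x)
  | Sum.inl (Sum.inr g), Sum.inl (Sum.inl y) => -(tq V C * (G g.1).wt g.2 y)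
  | Sum.inl (Sum.inr g), Sum.inl (Sum.inr g') => if g = g' then 1 else 0
  | Sum.inl _, Sum.inr _ => 0
  | Sum.inr (Sum.inl none), Sum.inl (Sum.inl _) => 1
  | Sum.inr (Sum.inl (some c)), Sum.inl (Sum.inl y) => (G c).X y
  | Sum.inr (Sum.inl c), Sum.inl (Sum.inr g) =>
      if c = some g.1 then -(tq V C * (G g.1).th g.2) else -Hq V C
  | Sum.inr (Sum.inl c), Sum.inr (Sum.inl c') => if c = c' then 1 else 0
  | Sum.inr (Sum.inl _), Sum.inr (Sum.inr _) => 0
  | Sum.inr (Sum.inr e), Sum.inl (Sum.inl y) =>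
      if y = (G e.1).el e.2 then 2 else if y = (G e.1).er e.2 then 1 / 2 else 10
  | Sum.inr (Sum.inr _), Sum.inl (Sum.inr _) => -Hq2 V C
  | Sum.inr (Sum.inr e), Sum.inr (Sum.inl c) => if c = none ∨ c = some e.1 then 1 else sq C
  | Sum.inr (Sum.inr e), Sum.inr (Sum.inr e') => if e = e' then 1 else 0

end gadgets

section constraints

variable {V : Type} [DecidableEq V]

/-- constraints -/
inductive Con (V : Type)
  | le (i j : V) (lam : ℚ)
  | sub (i j k : V)
  | sup (i j k : V)
  | mul (w v x y : V)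

/-- the indices of a constraint are distinct -/
def Con.Dist : Con V → Prop
  | .le i j lam => i ≠ j ∧ 1 ≤ lam ∧ lam ≤ 2
  | .sub i j k => i ≠ j ∧ i ≠ k ∧ j ≠ k
  | .sup i j k => i ≠ j ∧ i ≠ k ∧ j ≠ k
  | .mul w v x y => w ≠ v ∧ w ≠ x ∧ w ≠ y ∧ v ≠ x ∧ v ≠ y ∧ x ≠ y

/-- `z` satisfies the constraint up to the factor `1 + ε` -/
def Con.Holds (ε : ℝ) (z : V → ℝ) : Con V → Prop
  | .le i j lam => z i ≤ (1 + ε) * (lam * z j)
  | .sub i j k => z k ≤ (1 + ε) * (z i + z j)
  | .sup i j k => z i + z j ≤ (1 + ε) * z k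
  | .mul w v x y => z w * z v ≤ (1 + ε) * (z x * z y)

/-- the gadget of a constraint -/
def Con.gad : Con V → Gad V
  | .le i j lam =>
    { X := fun y => if y = i then 4 else if y = j then 1 / 4 else 1
      wt := fun b y => if b then 0 else if y = i then 1 else if y = j then lam else 0
      a := fun b y => if b then 0 else if y = i then 4 else if y = j then 16 else 0
      th := fun b => if b then 1 else 8
      el := fun _ => i
      er := fun _ => j }
  | .sub i j k =>
    { X := fun y => if y = k then 4 else if y = i then 1 / 4 else if y = j then 1 / 4 else 1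
      wt := fun b y => if b then 0 else if y = i then 1 else if y = j then 1 else
        if y = k then 1 else 0
      a := fun b y => if b then 0 else if y = i then 4 else if y = j then 4 else
        if y = k then 4 else 0
      th := fun b => if b then 1 else 6
      el := fun _ => k
      er := fun b => if b then j else i }
  | .sup i j k =>
    { X := fun y => if y = k then 1 / 4 else if y = i then 4 else if y = j then 4 else 1
      wt := fun b y => if b then 0 else if y = i then 1 else if y = j then 1 else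
        if y = k then 1 else 0
      a := fun b y => if b then 0 else if y = i then 4 else if y = j then 4 else
        if y = k then 16 else 0
      th := fun b => if b then 1 else 12
      el := fun b => if b then j else i
      er := fun _ => k }
  | .mul w v x y =>
    { X := fun q => if q = w then 4 else if q = v then 4 else if q = x then 1 / 4 else
        if q = y then 1 / 4 else 1
      wt := fun b q => if b then (if q = v then 1 else if q = y then 1 else 0) else
        (if q = w then 1 else if q = x then 1 else 0)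
      a := fun b q => if b then (if q = v then 4 else if q = y then 16 else 0) else
        (if q = w then 4 else if q = x then 16 else 0)
      th := fun _ => 8
      el := fun b => if b then v else w
      er := fun b => if b then x else y }

end constraints

section systems

/-- Equations in the unknowns `z i`, `i < n`, and the constant `1 = z none`. -/
inductive Eqn (n : ℕ)
  | add (i j k : Option (Fin n))
  | mul (w v x y : Option (Fin n))

/-- the value of an unknown or of the constant -/
def ev {n : ℕ} (z : Fin n → ℝ) : Option (Fin n) → ℝ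
  | none => 1
  | some i => z i

/-- `z` solves the equation: `z i + z j = z k`, or `z w * z v = z x * z y` -/
def Eqn.Solves {n : ℕ} (z : Fin n → ℝ) : Eqn n → Prop
  | .add i j k => ev z i + ev z j = ev z k
  | .mul w v x y => ev z w * ev z v = ev z x * ev z y

/-- the `r`th place of an equation -/
def Eqn.slot {n : ℕ} : Eqn n → Fin 4 → Option (Fin n)
  | .add i j k, r => if r = 0 then i else if r = 1 then j else if r = 2 then k else none
  | .mul w v x y, r => if r = 0 then w else if r = 1 then v else if r = 2 then x else y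

/-- the variables of the homogeneous distinct system: `none` is the constant, `inl i` are the
unknowns, `inr (q, r)` is a copy of the `r`th place of the equation `q` -/
abbrev Var (n m : ℕ) : Type := Option (Fin n ⊕ (Fin m × Fin 4))

/-- the unknowns as variables -/
def old {n m : ℕ} : Option (Fin n) → Var n m
  | none => none
  | some i => some (Sum.inl i)

/-- the copies as variables -/
def cpy {n m : ℕ} (q : Fin m) (r : Fin 4) : Var n m := some (Sum.inr (q, r))

/-- the constraints: two for every equation, two for every copy, and the box -/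
abbrev CIx (n m : ℕ) : Type :=
  (Fin m × Bool) ⊕ (((Fin m × Fin 4) × Bool) ⊕ ((Fin n ⊕ (Fin m × Fin 4)) × Bool))

/-- the constraints of a system of equations -/
def cons {n m : ℕ} (S : Fin m → Eqn n) : CIx n m → Con (Var n m)
  | Sum.inl (q, b) => match S q with
    | .add _ _ _ => if b then .sup (cpy q 0) (cpy q 1) (cpy q 2)
        else .sub (cpy q 0) (cpy q 1) (cpy q 2)
    | .mul _ _ _ _ => if b then .mul (cpy q 0) (cpy q 1) (cpy q 2) (cpy q 3)
        else .mul (cpy q 2) (cpy q 3) (cpy q 0) (cpy q 1)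
  | Sum.inr (Sum.inl ((q, r), b)) =>
      if b then .le (cpy q r) (old ((S q).slot r)) 1 else .le (old ((S q).slot r)) (cpy q r) 1
  | Sum.inr (Sum.inr (u, b)) => if b then .le (some u) none 2 else .le none (some u) 2

/-- **The matrix of a system of equations.** -/
def etrM {n m : ℕ} (S : Fin m → Eqn n) : Matrix (Ix (Var n m) (CIx n m)) (Ix (Var n m) (CIx n m)) ℚ :=
  gM fun q => (cons S q).gad

end systems

end Pool.Agent.Helper63.UR
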