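import Mathlib
import Pool.Agent.Helper63.UR.Defs

/-!
The recursion for principal minors over a general index type.
-/

namespace Pool.Agent.Helper63.UR

open Matrix Finset

variable {ι : Type*} [Fintype ι] [DecidableEq ι] {𝕜 : Type*} [Field 𝕜]

theorem pmg_empty (M : Matrix ι ι 𝕜) : pmg M ∅ = 1 := by
  unfold pmg
  exact det_isEmpty

private lemma al_det_sum6 (A : Matrix ι ι 𝕜) (K : Finset ι) (hK : pmg A K ≠ 0)
    {κ : Type*} [Fintype κ] [DecidableEq κ] (g h : κ → ι) :
    (A.submatrix (Sum.elim (Subtype.val : K → ι) g) (Sum.elim (Subtype.val : K → ι) h)).det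
      = pmg A K * (Matrix.of fun x y => scg A K (g x) (h y)).det := by
  set Q := A.submatrix (Subtype.val : K → ι) Subtype.val with hQ
  have hu : IsUnit Q.det := isUnit_iff_ne_zero.mpr hK
  let _ : Invertible Q := Q.invertibleOfIsUnitDet hu
  have hf : A.submatrix (Sum.elim (Subtype.val : K → ι) g) (Sum.elim (Subtype.val : K → ι) h)
      = fromBlocks Q (A.submatrix Subtype.val h) (A.submatrix g Subtype.val) (A.submatrix g h) := by
    ext (i | i) (j | j) <;> rfl
  rw [hf, det_fromBlocks₁₁]
  congr 2
  ext x y
  simp only [Matrix.sub_apply, submatrix_apply, mul_apply, invOf_eq_nonsing_inv, of_apply, scg, ← hQ]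
  congr 1
  rw [Finset.sum_comm]
  refine Finset.sum_congr rfl fun y' _ => ?_
  rw [Finset.sum_mul]

private lemma al_pm_eq_det6 (A : Matrix ι ι 𝕜) {κ : Type*} [Fintype κ] [DecidableEq κ] (a : κ → ι)
    (ha : Function.Injective a) (S : Finset ι) (h : Set.range a = S) :
    (A.submatrix a a).det = pmg A S := by
  obtain ⟨σ, hσ⟩ := Pool.Agent.Helper5.GKK.exists_equiv a (Subtype.val : S → ι) ha
    Subtype.val_injective (by simpa using h)
  rw [hσ, pmg, ← submatrix_submatrix]
  exact det_submatrix_equiv_self σ _

theorem pmg_insert (M : Matrix ι ι 𝕜) {K : Finset ι} {i : ι} (hK : pmg M K ≠ 0) (hi : i ∉ K) :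
    pmg M (insert i K) = pmg M K * scg M K i i := by
  have h := al_det_sum6 M K hK (fun _ : Unit => i) (fun _ : Unit => i)
  rw [al_pm_eq_det6 M _ ?_ (insert i K) ?_] at h
  · rw [h, det_unique]; rfl
  · rintro (x | x) (y | y) hxy
    · exact congrArg _ (Subtype.val_injective hxy)
    · exact absurd (by rw [← show x.val = i from hxy]; exact x.2) hi
    · exact absurd (by rw [show i = y.val from hxy]; exact y.2) hi
    · rfl
  · ext x
    simp only [Set.mem_range, Sum.exists, Sum.elim_inl, Sum.elim_inr, exists_const, Finset.coe_insert,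
      Set.mem_insert_iff, Finset.mem_coe, Subtype.exists, exists_prop, exists_eq_right]
    constructor
    · rintro (h | h)
      · exact Or.inr h
      · exact Or.inl h.symm
    · rintro (h | h)
      · exact Or.inr h.symm
      · exact Or.inl h

end Pool.Agent.Helper63.UR
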