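import Mathlib
import Pool.Agent.Helper63.UR.Defs

/-!
Certificates for the entries of Schur complements.
-/

namespace Pool.Agent.Helper63.UR

open Matrix Finset

variable {ι : Type*} [Fintype ι] [DecidableEq ι] {𝕜 : Type*} [Field 𝕜]

/-- sums against a vector supported on `insert j K` -/
private theorem sum_supp34 {K : Finset ι} {j : ι} (hj : j ∉ K) {w : ι → 𝕜}
    (h0 : ∀ x, x ∉ insert j K → w x = 0) (f : ι → 𝕜) :
    ∑ x, f x * w x = f j * w j + ∑ x : K, f x * w x := by
  rw [← Finset.sum_subset (Finset.subset_univ (insert j K)) fun x _ hx => by rw [h0 x hx, mul_zero],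
    Finset.sum_insert hj, Finset.sum_coe_sort K (fun x => f x * w x)]

/-- the values of a certificate on `K` -/
private theorem cert_val34 (M : Matrix ι ι 𝕜) {K : Finset ι} {j : ι} (hK : pmg M K ≠ 0) (hj : j ∉ K)
    {w : ι → 𝕜} (h1 : w j = 1) (h0 : ∀ x, x ∉ insert j K → w x = 0)
    (hw : ∀ k ∈ K, ∑ x, M k x * w x = 0) (x : K) :
    w x = -∑ y : K, (M.submatrix (Subtype.val : K → ι) Subtype.val)⁻¹ x y * M y j := by
  set A : Matrix K K 𝕜 := M.submatrix (Subtype.val : K → ι) Subtype.val with hA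
  have hdet : IsUnit A.det := isUnit_iff_ne_zero.2 hK
  have e1 : A *ᵥ (fun x : K => w x) = fun k : K => -M k j := by
    funext k
    have h2 := hw k k.2
    rw [sum_supp34 hj h0, h1, mul_one] at h2
    have h3 : (A *ᵥ fun x : K => w x) k = ∑ x : K, M k x * w x := rfl
    rw [h3]
    exact eq_neg_of_add_eq_zero_right h2
  have e2 : (fun x : K => w x) = A⁻¹ *ᵥ fun k : K => -M k j := by
    rw [← e1, Matrix.mulVec_mulVec, Matrix.nonsing_inv_mul A hdet, Matrix.one_mulVec]
  have e3 := congrFun e2 x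
  rw [← Finset.sum_neg_distrib]
  refine e3.trans (Finset.sum_congr rfl fun y _ => ?_)
  exact mul_neg _ _

/-- certificates exist -/
theorem exists_cert (M : Matrix ι ι 𝕜) {K : Finset ι} {j : ι} (hK : pmg M K ≠ 0) (hj : j ∉ K) :
    ∃ w : ι → 𝕜, w j = 1 ∧ (∀ x, x ∉ insert j K → w x = 0) ∧
      (∀ k ∈ K, ∑ x, M k x * w x = 0) ∧ ∀ i, scg M K i j = ∑ x, M i x * w x := by
  set A : Matrix K K 𝕜 := M.submatrix (Subtype.val : K → ι) Subtype.val with hA
  have hdet : IsUnit A.det := isUnit_iff_ne_zero.2 hK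
  set w : ι → 𝕜 := fun x => if x = j then 1 else
    if h : x ∈ K then -∑ y : K, A⁻¹ ⟨x, h⟩ y * M y j else 0 with hwdef
  have hwj : w j = 1 := if_pos rfl
  have hwK : ∀ x : K, w x = -∑ y : K, A⁻¹ x y * M y j := by
    intro x
    have hx : (x : ι) ≠ j := fun h => hj (h ▸ x.2)
    rw [hwdef]
    simp only [hx, if_false, x.2, dif_pos]
  have h0 : ∀ x, x ∉ insert j K → w x = 0 := by
    intro x hx
    rw [Finset.mem_insert, not_or] at hx
    rw [hwdef]
    simp only [hx.1, if_false, hx.2, dif_neg, not_false_iff]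
  have hsc : ∀ i, ∑ x, M i x * w x = M i j - ∑ x : K, ∑ y : K, M i x * A⁻¹ x y * M y j := by
    intro i
    rw [sum_supp34 hj h0, hwj, mul_one, sub_eq_add_neg, ← Finset.sum_neg_distrib]
    congr 1
    refine Finset.sum_congr rfl fun x _ => ?_
    rw [hwK x, mul_neg, Finset.mul_sum]
    congr 1
    exact Finset.sum_congr rfl fun y _ => (mul_assoc _ _ _).symm
  refine ⟨w, hwj, h0, fun k hk => ?_, fun i => (hsc i).symm⟩
  rw [hsc k, Finset.sum_comm]
  have h2 : ∀ y : K, ∑ x : K, M k x * A⁻¹ x y * M y j = (1 : Matrix K K 𝕜) ⟨k, hk⟩ y * M y j := by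
    intro y
    rw [← Finset.sum_mul, ← Matrix.mul_nonsing_inv A hdet]
    rfl
  rw [Finset.sum_congr rfl fun y _ => h2 y, Finset.sum_eq_single (⟨k, hk⟩ : K)]
  · rw [Matrix.one_apply_eq, one_mul, sub_self]
  · intro y _ hy
    rw [Matrix.one_apply_ne (Ne.symm hy), zero_mul]
  · intro h
    exact absurd (Finset.mem_univ _) h

/-- certificates compute the entries of the Schur complement -/
theorem scg_of_cert (M : Matrix ι ι 𝕜) {K : Finset ι} {j : ι} (hK : pmg M K ≠ 0) (hj : j ∉ K)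
    {w : ι → 𝕜} (h1 : w j = 1) (h0 : ∀ x, x ∉ insert j K → w x = 0)
    (hw : ∀ k ∈ K, ∑ x, M k x * w x = 0) (i : ι) : scg M K i j = ∑ x, M i x * w x := by
  obtain ⟨w', h1', h0', hw', hs⟩ := exists_cert M hK hj
  rw [hs i, sum_supp34 hj h0, sum_supp34 hj h0', h1, h1']
  congr 1
  refine Finset.sum_congr rfl fun x _ => ?_
  rw [cert_val34 M hK hj h1 h0 hw x, cert_val34 M hK hj h1' h0' hw' x]

end Pool.Agent.Helper63.UR
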