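import Mathlib
import Pool.Agent.Helper63.UR.Alg2

/-!
Transposes and diagonal scaling.
-/

namespace Pool.Agent.Helper63.UR

open Matrix Finset

variable {ι : Type*} [Fintype ι] [DecidableEq ι] {𝕜 : Type*} [Field 𝕜]

theorem pmg_transpose (M : Matrix ι ι 𝕜) (S : Finset ι) : pmg Mᵀ S = pmg M S := by
  unfold pmg
  rw [← Matrix.transpose_submatrix, Matrix.det_transpose]

theorem scg_transpose (M : Matrix ι ι 𝕜) (K : Finset ι) (i j : ι) : scg Mᵀ K i j = scg M K j i := by
  unfold scg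
  rw [← Matrix.transpose_submatrix, ← Matrix.transpose_nonsing_inv]
  simp only [Matrix.transpose_apply]
  congr 1
  rw [Finset.sum_comm]
  refine Finset.sum_congr rfl fun y _ => Finset.sum_congr rfl fun x _ => ?_
  ring

theorem pmg_scale (M : Matrix ι ι 𝕜) {d : ι → 𝕜} (hd : ∀ i, d i ≠ 0) (S : Finset ι) :
    pmg (Matrix.of fun i j => (d i)⁻¹ * M i j * d j) S = pmg M S := by
  unfold pmg
  have h1 : (Matrix.of fun i j => (d i)⁻¹ * M i j * d j).submatrix (Subtype.val : S → ι)
      Subtype.val = Matrix.diagonal (fun i : S => (d i)⁻¹) *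
        M.submatrix (Subtype.val : S → ι) Subtype.val * Matrix.diagonal (fun i : S => d i) := by
    ext i j
    rw [Matrix.mul_diagonal, Matrix.diagonal_mul]
    simp
  rw [h1, Matrix.det_mul, Matrix.det_mul, Matrix.det_diagonal, Matrix.det_diagonal]
  have h2 : (∏ i : S, (d i)⁻¹) * ∏ i : S, d i = 1 := by
    rw [← Finset.prod_mul_distrib]
    exact Finset.prod_eq_one fun i _ => inv_mul_cancel₀ (hd i)
  linear_combination (M.submatrix (Subtype.val : S → ι) Subtype.val).det * h2

theorem scg_scale (M : Matrix ι ι 𝕜) {d : ι → 𝕜} (hd : ∀ i, d i ≠ 0) {K : Finset ι}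
    (hK : pmg M K ≠ 0) {i j : ι} (hj : j ∉ K) :
    scg (Matrix.of fun i j => (d i)⁻¹ * M i j * d j) K i j = (d i)⁻¹ * scg M K i j * d j := by
  obtain ⟨w, h1, h0, hw, hs⟩ := exists_cert M hK hj
  have key : ∀ k : ι, ∑ x, (Matrix.of fun i j => (d i)⁻¹ * M i j * d j) k x *
      ((d x)⁻¹ * w x * d j) = (d k)⁻¹ * (∑ x, M k x * w x) * d j := by
    intro k
    rw [Finset.mul_sum, Finset.sum_mul]
    refine Finset.sum_congr rfl fun x _ => ?_
    rw [Matrix.of_apply]
    have := mul_inv_cancel₀ (hd x)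
    linear_combination (d k)⁻¹ * M k x * w x * d j * this
  rw [scg_of_cert (Matrix.of fun i j => (d i)⁻¹ * M i j * d j) (w := fun x => (d x)⁻¹ * w x * d j)
    (by rw [pmg_scale M hd]; exact hK) hj (by rw [h1, mul_one, inv_mul_cancel₀ (hd j)])
    (fun x hx => by rw [h0 x hx]; ring) (fun k hk => by rw [key, hw k hk]; ring) i, key, hs]

end Pool.Agent.Helper63.UR
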