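import Mathlib
import Pool.Agent.Helper63.UR.Defs

/-!
Compactness: relaxed solutions in a box give exact solutions.
-/

namespace Pool.Agent.Helper63.UR

open Finset

variable {V : Type} [Fintype V] [DecidableEq V]

/-- scaling -/
theorem Con.Holds.smul {q : Con V} {ε : ℝ} {z : V → ℝ} (h : q.Holds ε z) {r : ℝ} (hr : 0 < r) :
    q.Holds ε (fun y => r * z y) := by
  cases q with
  | le i j lam =>
    have h' : z i ≤ (1 + ε) * (lam * z j) := h
    have h1 := mul_le_mul_of_nonneg_left h' hr.le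
    change r * z i ≤ (1 + ε) * (lam * (r * z j))
    linarith
  | sub i j k =>
    have h' : z k ≤ (1 + ε) * (z i + z j) := h
    have h1 := mul_le_mul_of_nonneg_left h' hr.le
    change r * z k ≤ (1 + ε) * (r * z i + r * z j)
    linarith
  | sup i j k =>
    have h' : z i + z j ≤ (1 + ε) * z k := h
    have h1 := mul_le_mul_of_nonneg_left h' hr.le
    change r * z i + r * z j ≤ (1 + ε) * (r * z k)
    linarith
  | mul w v x y =>
    have h' : z w * z v ≤ (1 + ε) * (z x * z y) := h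
    have h1 := mul_le_mul_of_nonneg_left h' (mul_pos hr hr).le
    change r * z w * (r * z v) ≤ (1 + ε) * (r * z x * (r * z y))
    linarith

omit [DecidableEq V] [Fintype V] in
private theorem holds_closed53 (q : Con V) :
    IsClosed {p : ℝ × (V → ℝ) | q.Holds p.1 p.2} := by
  cases q with
  | le i j lam =>
    change IsClosed {p : ℝ × (V → ℝ) | p.2 i ≤ (1 + p.1) * (lam * p.2 j)}
    exact isClosed_le (by fun_prop) (by fun_prop)
  | sub i j k =>
    change IsClosed {p : ℝ × (V → ℝ) | p.2 k ≤ (1 + p.1) * (p.2 i + p.2 j)}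
    exact isClosed_le (by fun_prop) (by fun_prop)
  | sup i j k =>
    change IsClosed {p : ℝ × (V → ℝ) | p.2 i + p.2 j ≤ (1 + p.1) * p.2 k}
    exact isClosed_le (by fun_prop) (by fun_prop)
  | mul w v x y =>
    change IsClosed {p : ℝ × (V → ℝ) | p.2 w * p.2 v ≤ (1 + p.1) * (p.2 x * p.2 y)}
    exact isClosed_le (by fun_prop) (by fun_prop)

/-- exact solutions from relaxed ones -/
theorem exists_exact {Q : Type} (con : Q → Con V) (v0 : V)
    (hbox : ∀ v, v ≠ v0 → (∃ q, con q = .le v v0 2) ∧ ∃ q, con q = .le v0 v 2)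
    (h : ∀ ε : ℝ, 0 < ε → ∃ z : V → ℝ, (∀ y, 0 < z y) ∧ ∀ q, (con q).Holds ε z) :
    ∃ z : V → ℝ, z v0 = 1 ∧ (∀ y, 1 / 2 ≤ z y ∧ z y ≤ 2) ∧ ∀ q, (con q).Holds 0 z := by
  -- normalized relaxed solutions
  have h1 : ∀ k : ℕ, ∃ z : V → ℝ, z v0 = 1 ∧ (∀ q, (con q).Holds (1 / ((k : ℝ) + 1)) z) := by
    intro k
    obtain ⟨z, hz, hc⟩ := h (1 / ((k : ℝ) + 1)) (by positivity)
    refine ⟨fun y => (z v0)⁻¹ * z y, inv_mul_cancel₀ (hz v0).ne', fun q => ?_⟩
    exact (hc q).smul (inv_pos.2 (hz v0))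
  choose z hz0 hz using h1
  -- they lie in a box
  have hb : ∀ (ε : ℝ), 0 ≤ ε → ε ≤ 1 → ∀ w : V → ℝ, w v0 = 1 → (∀ q, (con q).Holds ε w) →
      ∀ v, v ≠ v0 → w v ≤ (1 + ε) * 2 ∧ 1 ≤ (1 + ε) * (2 * w v) := by
    intro ε _ _ w hw0 hw v hv
    obtain ⟨⟨q, hq⟩, q', hq'⟩ := hbox v hv
    have h2 := hw q
    rw [hq] at h2
    have h3 := hw q'
    rw [hq'] at h3
    have h4 : w v ≤ (1 + ε) * (((2 : ℚ) : ℝ) * w v0) := h2
    have h5 : w v0 ≤ (1 + ε) * (((2 : ℚ) : ℝ) * w v) := h3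
    rw [hw0] at h4 h5
    push_cast at h4 h5
    exact ⟨by linarith, by linarith⟩
  have hK : ∀ k, z k ∈ Set.Icc (fun _ : V => (1 / 4 : ℝ)) (fun _ => 4) := by
    intro k
    have he0 : (0 : ℝ) < 1 / ((k : ℝ) + 1) := by positivity
    have he1 : 1 / ((k : ℝ) + 1) ≤ (1 : ℝ) := by
      rw [div_le_one (by positivity)]
      have : (0 : ℝ) ≤ k := Nat.cast_nonneg k
      linarith
    obtain ⟨ε, hε⟩ : ∃ ε, ε = 1 / ((k : ℝ) + 1) := ⟨_, rfl⟩
    have h2 := hz k
    rw [← hε] at he0 he1 h2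
    have h3 : ∀ v, 1 / 4 ≤ z k v ∧ z k v ≤ 4 := by
      intro v
      by_cases hv : v = v0
      · rw [hv, hz0 k]
        norm_num
      · obtain ⟨h4, h5⟩ := hb ε he0.le he1 (z k) (hz0 k) h2 v hv
        refine ⟨?_, by linarith⟩
        by_contra hlt
        push Not at hlt
        have h6 : (1 + ε) * (2 * z k v) < 1 := by
          by_cases h7 : 0 ≤ z k v
          · have : (1 + ε) * (2 * z k v) ≤ 2 * (2 * z k v) :=
              mul_le_mul_of_nonneg_right (by linarith) (by linarith)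
            linarith
          · push Not at h7
            have : (1 + ε) * (2 * z k v) ≤ 0 :=
              mul_nonpos_of_nonneg_of_nonpos (by linarith) (by linarith)
            linarith
        linarith
    exact ⟨fun v => (h3 v).1, fun v => (h3 v).2⟩
  obtain ⟨w, _, φ, hφ, hlim⟩ := (isCompact_Icc (a := fun _ : V => (1 / 4 : ℝ))
    (b := fun _ => 4)).tendsto_subseq hK
  have he : Filter.Tendsto (fun k : ℕ => 1 / ((φ k : ℝ) + 1)) Filter.atTop (nhds 0) :=
    (tendsto_one_div_add_atTop_nhds_zero_nat (𝕜 := ℝ)).comp hφ.tendsto_atTop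
  have hw : ∀ q, (con q).Holds 0 w := by
    intro q
    have h2 : Filter.Tendsto (fun k : ℕ => ((1 / ((φ k : ℝ) + 1), z (φ k)) : ℝ × (V → ℝ)))
        Filter.atTop (nhds (0, w)) := he.prodMk_nhds hlim
    exact (holds_closed53 (con q)).mem_of_tendsto h2
      (Filter.Eventually.of_forall fun k => hz (φ k) q)
  have hw0 : w v0 = 1 := by
    have h2 : Filter.Tendsto (fun k : ℕ => z (φ k) v0) Filter.atTop (nhds (w v0)) :=
      (continuous_apply v0).continuousAt.tendsto.comp hlim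
    have h3 : (fun k : ℕ => z (φ k) v0) = fun _ => (1 : ℝ) := funext fun k => hz0 (φ k)
    rw [h3] at h2
    exact tendsto_nhds_unique h2 tendsto_const_nhds
  refine ⟨w, hw0, fun v => ?_, hw⟩
  by_cases hv : v = v0
  · rw [hv, hw0]
    norm_num
  · obtain ⟨h4, h5⟩ := hb 0 le_rfl zero_le_one w hw0 hw v hv
    exact ⟨by linarith, by linarith⟩

end Pool.Agent.Helper63.UR
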