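import Mathlib
import Pool.Agent.Helper63.UR.Defs

/-!
The gadgets of constraints are well formed.
-/

namespace Pool.Agent.Helper63.UR

open Finset

variable {V : Type} [Fintype V] [DecidableEq V]

omit [Fintype V] in
private theorem sum_two86 (S : Finset V) (i j : V) (hij : i ≠ j) (p q : ℚ) :
    (∑ y ∈ S, (if y = i then p else if y = j then q else 0)) =
      (if i ∈ S then p else 0) + (if j ∈ S then q else 0) := by
  have h : ∀ y ∈ S, (if y = i then p else if y = j then q else 0) =
      (if y = i then p else 0) + (if y = j then q else 0) := by
    intro y _
    by_cases h1 : y = i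
    · have h2 : y ≠ j := by
        rintro rfl
        exact hij h1.symm
      simp [h1, hij]
    · simp [h1]
  rw [Finset.sum_congr rfl h, Finset.sum_add_distrib, Finset.sum_ite_eq', Finset.sum_ite_eq']

omit [Fintype V] in
private theorem sum_three86 (S : Finset V) (i j k : V) (hij : i ≠ j) (hik : i ≠ k) (hjk : j ≠ k)
    (p q r : ℚ) :
    (∑ y ∈ S, (if y = i then p else if y = j then q else if y = k then r else 0)) =
      (if i ∈ S then p else 0) + (if j ∈ S then q else 0) + (if k ∈ S then r else 0) := by
  have h : ∀ y ∈ S, (if y = i then p else if y = j then q else if y = k then r else 0) =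
      (if y = i then p else 0) + (if y = j then q else 0) + (if y = k then r else 0) := by
    intro y _
    by_cases h1 : y = i
    · simp [h1, hij, hik]
    · by_cases h2 : y = j
      · simp [h2, hjk, hij.symm]
      · simp [h1, h2]
  rw [Finset.sum_congr rfl h, Finset.sum_add_distrib, Finset.sum_add_distrib,
    Finset.sum_ite_eq', Finset.sum_ite_eq', Finset.sum_ite_eq']

theorem Con.ok (q : Con V) (hq : q.Dist) : q.gad.Ok := by
  cases q with
  | le i j lam =>
    obtain ⟨hij, hl1, hl2⟩ := hq
    refine ⟨?_, ?_, ?_, ?_, ?_, ?_, ?_, ?_, ?_⟩
    · intro y
      simp only [Con.gad]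
      split_ifs <;> norm_num
    · intro y
      simp only [Con.gad]
      split_ifs <;> norm_num
    · intro b
      simp [Con.gad]
    · intro b
      simp [Con.gad, hij.symm]
    · intro b y
      simp only [Con.gad]
      split_ifs
      · exact Or.inl ⟨rfl, rfl⟩
      · right; norm_num
      · right
        exact ⟨hl1, hl2, by norm_num, by norm_num⟩
      · exact Or.inl ⟨rfl, rfl⟩
    · intro y
      right
      simp [Con.gad]
    · intro b
      simp only [Con.gad]
      split_ifs <;> norm_num
    · intro b
      simp only [Con.gad]
      split_ifs <;> norm_num
    · intro b S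
      cases b with
      | true => simp [Con.gad]
      | false =>
        simp only [Con.gad, Bool.false_eq_true, if_false]
        rw [sum_two86 S i j hij]
        split_ifs <;> norm_num
  | sub i j k =>
    obtain ⟨hij, hik, hjk⟩ := hq
    refine ⟨?_, ?_, ?_, ?_, ?_, ?_, ?_, ?_, ?_⟩
    · intro y
      simp only [Con.gad]
      split_ifs <;> norm_num
    · intro y
      simp only [Con.gad]
      split_ifs <;> norm_num
    · intro b
      simp [Con.gad]
    · intro b
      cases b <;> simp [Con.gad, hik, hjk]
    · intro b y
      simp only [Con.gad]
      split_ifs
      · exact Or.inl ⟨rfl, rfl⟩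
      · right; norm_num
      · right; norm_num
      · right; norm_num
      · exact Or.inl ⟨rfl, rfl⟩
    · intro y
      right
      simp [Con.gad]
    · intro b
      simp only [Con.gad]
      split_ifs <;> norm_num
    · intro b
      simp only [Con.gad]
      split_ifs <;> norm_num
    · intro b S
      cases b with
      | true => simp [Con.gad]
      | false =>
        simp only [Con.gad, Bool.false_eq_true, if_false]
        rw [sum_three86 S i j k hij hik hjk]
        split_ifs <;> norm_num
  | sup i j k =>
    obtain ⟨hij, hik, hjk⟩ := hq
    refine ⟨?_, ?_, ?_, ?_, ?_, ?_, ?_, ?_, ?_⟩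
    · intro y
      simp only [Con.gad]
      split_ifs <;> norm_num
    · intro y
      simp only [Con.gad]
      split_ifs <;> norm_num
    · intro b
      cases b <;> simp [Con.gad, hik, hjk]
    · intro b
      simp [Con.gad]
    · intro b y
      simp only [Con.gad]
      split_ifs
      · exact Or.inl ⟨rfl, rfl⟩
      · right; norm_num
      · right; norm_num
      · right; norm_num
      · exact Or.inl ⟨rfl, rfl⟩
    · intro y
      right
      simp [Con.gad]
    · intro b
      simp only [Con.gad]
      split_ifs <;> norm_num
    · intro b
      simp only [Con.gad]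
      split_ifs <;> norm_num
    · intro b S
      cases b with
      | true => simp [Con.gad]
      | false =>
        simp only [Con.gad, Bool.false_eq_true, if_false]
        rw [sum_three86 S i j k hij hik hjk]
        split_ifs <;> norm_num
  | mul w v x y =>
    obtain ⟨hwv, hwx, hwy, hvx, hvy, hxy⟩ := hq
    refine ⟨?_, ?_, ?_, ?_, ?_, ?_, ?_, ?_, ?_⟩
    · intro y
      simp only [Con.gad]
      split_ifs <;> norm_num
    · intro y
      simp only [Con.gad]
      split_ifs <;> norm_num
    · intro b
      cases b <;> simp [Con.gad]
    · intro b
      cases b <;> simp [Con.gad, hwx.symm, hvx.symm, hwy.symm, hvy.symm]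
    · intro b y
      simp only [Con.gad]
      split_ifs
      · right; norm_num
      · right; norm_num
      · exact Or.inl ⟨rfl, rfl⟩
      · right; norm_num
      · right; norm_num
      · exact Or.inl ⟨rfl, rfl⟩
    · intro z
      simp only [Con.gad, Bool.false_eq_true, if_false, if_true]
      by_cases h1 : z = w
      · right
        have h2 : z ≠ v := by rw [h1]; exact hwv
        have h3 : z ≠ y := by rw [h1]; exact hwy
        simp [h2, h3]
      · by_cases h4 : z = x
        · right
          have h2 : z ≠ v := by rw [h4]; exact hvx.symm
          have h3 : z ≠ y := by rw [h4]; exact hxy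
          simp [h2, h3]
        · left
          simp [h1, h4]
    · intro b
      simp only [Con.gad]
      norm_num
    · intro b
      simp only [Con.gad]
      norm_num
    · intro b S
      cases b with
      | true =>
        simp only [Con.gad, if_true]
        rw [sum_two86 S v y hvy]
        split_ifs <;> norm_num
      | false =>
        simp only [Con.gad, Bool.false_eq_true, if_false]
        rw [sum_two86 S w x hwx]
        split_ifs <;> norm_num

end Pool.Agent.Helper63.UR
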