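import Mathlib
import Pool.Agent.Helper63.UR.Defs

/-!
Relaxed local solutions satisfy the relaxed constraints.
-/

namespace Pool.Agent.Helper63.UR

open Finset

variable {V : Type} [Fintype V] [DecidableEq V]

private theorem h80_single {G : Gad V} {δ : ℝ} {Z : V → ℝ} {β : Bool → ℝ}
    (h : ∀ b (S : Finset V), (∀ y ∈ S, G.wt b y ≠ 0) →
      (∑ y ∈ S, G.a b y < G.th b → ∑ y ∈ S, (G.wt b y : ℝ) * Z y ≤ (1 + δ) * β b) ∧
      (G.th b < ∑ y ∈ S, G.a b y → β b ≤ (1 + δ) * ∑ y ∈ S, (G.wt b y : ℝ) * Z y))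
    (b : Bool) (i : V) (hi : G.wt b i ≠ 0) :
    (G.a b i < G.th b → (G.wt b i : ℝ) * Z i ≤ (1 + δ) * β b) ∧
      (G.th b < G.a b i → β b ≤ (1 + δ) * ((G.wt b i : ℝ) * Z i)) := by
  have := h b {i} (by intro y hy; rw [Finset.mem_singleton] at hy; rw [hy]; exact hi)
  simpa using this

private theorem h80_pair {G : Gad V} {δ : ℝ} {Z : V → ℝ} {β : Bool → ℝ}
    (h : ∀ b (S : Finset V), (∀ y ∈ S, G.wt b y ≠ 0) →
      (∑ y ∈ S, G.a b y < G.th b → ∑ y ∈ S, (G.wt b y : ℝ) * Z y ≤ (1 + δ) * β b) ∧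
      (G.th b < ∑ y ∈ S, G.a b y → β b ≤ (1 + δ) * ∑ y ∈ S, (G.wt b y : ℝ) * Z y))
    (b : Bool) (i j : V) (hij : i ≠ j) (hi : G.wt b i ≠ 0) (hj : G.wt b j ≠ 0) :
    (G.a b i + G.a b j < G.th b →
      (G.wt b i : ℝ) * Z i + (G.wt b j : ℝ) * Z j ≤ (1 + δ) * β b) ∧
      (G.th b < G.a b i + G.a b j →
        β b ≤ (1 + δ) * ((G.wt b i : ℝ) * Z i + (G.wt b j : ℝ) * Z j)) := by
  have := h b {i, j} (by
    intro y hy
    rw [Finset.mem_insert, Finset.mem_singleton] at hy
    rcases hy with hy | hy <;> rw [hy] <;> assumption)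
  rw [Finset.sum_pair hij, Finset.sum_pair hij] at this
  exact this

theorem Con.holds_of_rel (q : Con V) (hq : q.Dist) {δ : ℝ} (hδ : 0 < δ) {z : V → ℝ}
    (hz : ∀ y, 0 < z y) (h : q.gad.Rel δ z) : q.Holds ((1 + δ) ^ 6 - 1) z := by
  obtain ⟨Z, β, hZ, hβ, hS, he⟩ := h
  have hd : (1:ℝ) ≤ 1 + δ := by linarith
  have hd0 : (0:ℝ) < 1 + δ := by linarith
  have h36 : (1 + δ) ^ 3 ≤ (1 + δ) ^ 6 := pow_le_pow_right₀ hd (by norm_num)
  cases q with
  | le i j lam =>
    obtain ⟨hij, h1, h2⟩ := hq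
    have hl0 : (lam : ℚ) ≠ 0 := by linarith
    have hl : (1:ℝ) ≤ (lam : ℝ) := by exact_mod_cast h1
    have A := (h80_single hS false i (by simp [Con.gad])).1 (by simp [Con.gad]; norm_num)
    have B := (h80_single hS false j (by simp [Con.gad, hij.symm, hl0])).2
      (by simp [Con.gad, hij.symm]; norm_num)
    have C := he false
    simp [Con.gad, hij.symm] at A B C
    simp only [Con.Holds]
    have hzi := hz i
    have hzj := hz j
    have hZj := hZ j
    have e1 : z i * Z j ≤ ((1 + δ) ^ 3 * (lam * z j)) * Z j := by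
      calc z i * Z j ≤ (1 + δ) * (z j * Z i) := C
        _ ≤ (1 + δ) * (z j * ((1 + δ) * β false)) := by gcongr
        _ ≤ (1 + δ) * (z j * ((1 + δ) * ((1 + δ) * (lam * Z j)))) := by gcongr
        _ = ((1 + δ) ^ 3 * (lam * z j)) * Z j := by ring
    have e2 : z i ≤ (1 + δ) ^ 3 * (lam * z j) := le_of_mul_le_mul_right e1 hZj
    have e3 : (1 + δ) ^ 3 * ((lam:ℝ) * z j) ≤ (1 + δ) ^ 6 * (lam * z j) := by gcongr
    have e4 : 1 + ((1 + δ) ^ 6 - 1) = (1 + δ) ^ 6 := by ring
    rw [e4]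
    linarith
  | sub i j k =>
    obtain ⟨hij, hik, hjk⟩ := hq
    have A := (h80_single hS false k (by simp [Con.gad])).1
      (by simp [Con.gad, hik.symm, hjk.symm]; norm_num)
    have B := (h80_pair hS false i j hij (by simp [Con.gad]) (by simp [Con.gad])).2
      (by simp [Con.gad, hij.symm]; norm_num)
    have C := he false
    have D := he true
    simp [Con.gad, hij.symm, hik.symm, hjk.symm] at A B C D
    simp only [Con.Holds]
    have hzi := hz i
    have hzj := hz j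
    have hzk := hz k
    have hZi := hZ i
    have hZj := hZ j
    have e1 : z k * (Z i + Z j) ≤ ((1 + δ) ^ 3 * (z i + z j)) * (Z i + Z j) := by
      calc z k * (Z i + Z j) = z k * Z i + z k * Z j := by ring
        _ ≤ (1 + δ) * (z i * Z k) + (1 + δ) * (z j * Z k) := by linarith
        _ = (1 + δ) * ((z i + z j) * Z k) := by ring
        _ ≤ (1 + δ) * ((z i + z j) * ((1 + δ) * β false)) := by gcongr
        _ ≤ (1 + δ) * ((z i + z j) * ((1 + δ) * ((1 + δ) * (Z i + Z j)))) := by gcongr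
        _ = ((1 + δ) ^ 3 * (z i + z j)) * (Z i + Z j) := by ring
    have e2 : z k ≤ (1 + δ) ^ 3 * (z i + z j) := le_of_mul_le_mul_right e1 (by linarith)
    have e3 : (1 + δ) ^ 3 * (z i + z j) ≤ (1 + δ) ^ 6 * (z i + z j) := by gcongr
    have e4 : 1 + ((1 + δ) ^ 6 - 1) = (1 + δ) ^ 6 := by ring
    rw [e4]
    linarith
  | sup i j k =>
    obtain ⟨hij, hik, hjk⟩ := hq
    have A := (h80_pair hS false i j hij (by simp [Con.gad]) (by simp [Con.gad])).1
      (by simp [Con.gad, hij.symm]; norm_num)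
    have B := (h80_single hS false k (by simp [Con.gad])).2
      (by simp [Con.gad, hik.symm, hjk.symm]; norm_num)
    have C := he false
    have D := he true
    simp [Con.gad, hij.symm, hik.symm, hjk.symm] at A B C D
    simp only [Con.Holds]
    have hzi := hz i
    have hzj := hz j
    have hzk := hz k
    have hZk := hZ k
    have e1 : (z i + z j) * Z k ≤ ((1 + δ) ^ 3 * z k) * Z k := by
      calc (z i + z j) * Z k = z i * Z k + z j * Z k := by ring
        _ ≤ (1 + δ) * (z k * Z i) + (1 + δ) * (z k * Z j) := by linarith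
        _ = (1 + δ) * (z k * (Z i + Z j)) := by ring
        _ ≤ (1 + δ) * (z k * ((1 + δ) * β false)) := by gcongr
        _ ≤ (1 + δ) * (z k * ((1 + δ) * ((1 + δ) * Z k))) := by gcongr
        _ = ((1 + δ) ^ 3 * z k) * Z k := by ring
    have e2 : z i + z j ≤ (1 + δ) ^ 3 * z k := le_of_mul_le_mul_right e1 hZk
    have e3 : (1 + δ) ^ 3 * z k ≤ (1 + δ) ^ 6 * z k := by gcongr
    have e4 : 1 + ((1 + δ) ^ 6 - 1) = (1 + δ) ^ 6 := by ring
    rw [e4]
    linarith
  | mul w v x y =>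
    obtain ⟨hwv, hwx, hwy, hvx, hvy, hxy⟩ := hq
    have A := (h80_single hS false w (by simp [Con.gad])).1
      (by simp [Con.gad]; norm_num)
    have B := (h80_single hS false x (by simp [Con.gad])).2
      (by simp [Con.gad, hwx.symm]; norm_num)
    have A' := (h80_single hS true v (by simp [Con.gad])).1
      (by simp [Con.gad]; norm_num)
    have B' := (h80_single hS true y (by simp [Con.gad])).2
      (by simp [Con.gad, hvy.symm]; norm_num)
    have C := he false
    have D := he true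
    simp [Con.gad, hwx.symm, hvy.symm] at A B A' B' C D
    simp only [Con.Holds]
    have hzw := hz w
    have hzv := hz v
    have hzx := hz x
    have hzy := hz y
    have hZx := hZ x
    have hZy := hZ y
    have hZw := hZ w
    have hZv := hZ v
    have e0 : Z w ≤ (1 + δ) ^ 2 * Z x := by
      calc Z w ≤ (1 + δ) * β false := A
        _ ≤ (1 + δ) * ((1 + δ) * Z x) := by gcongr
        _ = _ := by ring
    have e0' : Z v ≤ (1 + δ) ^ 2 * Z y := by
      calc Z v ≤ (1 + δ) * β true := A'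
        _ ≤ (1 + δ) * ((1 + δ) * Z y) := by gcongr
        _ = _ := by ring
    have e1 : (z w * z v) * (Z y * Z x) ≤ ((1 + δ) ^ 6 * (z x * z y)) * (Z y * Z x) := by
      calc (z w * z v) * (Z y * Z x) = (z w * Z y) * (z v * Z x) := by ring
        _ ≤ ((1 + δ) * (z y * Z w)) * ((1 + δ) * (z x * Z v)) := by gcongr
        _ ≤ ((1 + δ) * (z y * ((1 + δ) ^ 2 * Z x))) * ((1 + δ) * (z x * ((1 + δ) ^ 2 * Z y))) := by
            gcongr
        _ = ((1 + δ) ^ 6 * (z x * z y)) * (Z y * Z x) := by ring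
    have e2 : z w * z v ≤ (1 + δ) ^ 6 * (z x * z y) :=
      le_of_mul_le_mul_right e1 (by positivity)
    have e4 : 1 + ((1 + δ) ^ 6 - 1) = (1 + δ) ^ 6 := by ring
    rw [e4]
    exact e2

end Pool.Agent.Helper63.UR
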