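import Mathlib

/-!
Complex numbers which are almost positive.
-/

namespace Pool.Agent.Helper63.UR

open scoped ComplexOrder

/-- `w` is positive up to a small phase -/
def NP (η : ℝ) (w : ℂ) : Prop := 0 < w.re ∧ |w.im| ≤ η * w.re

private theorem mul_pos_data86 {w u : ℂ} (h : 0 < w * u) :
    0 < w.re * u.re - w.im * u.im ∧ w.re * u.im + w.im * u.re = 0 ∧
      0 < u.re ^ 2 + u.im ^ 2 := by
  rw [Complex.lt_def] at h
  simp only [Complex.zero_re, Complex.zero_im, Complex.mul_re, Complex.mul_im] at h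
  refine ⟨h.1, h.2.symm, ?_⟩
  by_contra hcon
  have h1 : u.re = 0 := by nlinarith [sq_nonneg u.re, sq_nonneg u.im]
  have h2 : u.im = 0 := by nlinarith [sq_nonneg u.re, sq_nonneg u.im]
  rw [h1, h2] at h
  simp at h

private theorem mul_pos_re86 {w u : ℂ} (h : 0 < w * u) :
    w.re * (u.re ^ 2 + u.im ^ 2) = u.re * (w.re * u.re - w.im * u.im) := by
  obtain ⟨_, h2, _⟩ := mul_pos_data86 h
  linear_combination u.im * h2

private theorem mul_pos_im86 {w u : ℂ} (h : 0 < w * u) :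
    w.im * (u.re ^ 2 + u.im ^ 2) = -u.im * (w.re * u.re - w.im * u.im) := by
  obtain ⟨_, h2, _⟩ := mul_pos_data86 h
  linear_combination u.re * h2

theorem re_pos_of_mul_pos {w u : ℂ} (h : 0 < w * u) (hu : 0 < u.re) : 0 < w.re := by
  obtain ⟨h1, _, h3⟩ := mul_pos_data86 h
  have h4 := mul_pos_re86 h
  have h5 : 0 < w.re * (u.re ^ 2 + u.im ^ 2) := by
    rw [h4]
    exact mul_pos hu h1
  exact (pos_iff_pos_of_mul_pos h5).2 h3

theorem re_neg_of_mul_pos {w u : ℂ} (h : 0 < w * u) (hu : u.re < 0) : w.re < 0 := by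
  obtain ⟨h1, _, h3⟩ := mul_pos_data86 h
  have h4 := mul_pos_re86 h
  have h5 : w.re * (u.re ^ 2 + u.im ^ 2) < 0 := by
    rw [h4]
    exact mul_neg_of_neg_of_pos hu h1
  by_contra hcon
  have : 0 ≤ w.re * (u.re ^ 2 + u.im ^ 2) := mul_nonneg (not_lt.1 hcon) h3.le
  linarith

theorem np_of_mul_pos {w u : ℂ} {η : ℝ} (h : 0 < w * u) (hu : NP η u) : NP η w := by
  obtain ⟨h1, _, h3⟩ := mul_pos_data86 h
  refine ⟨re_pos_of_mul_pos h hu.1, ?_⟩
  have h4 := mul_pos_re86 h
  have h5 := mul_pos_im86 h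
  have h6 : |w.im| * (u.re ^ 2 + u.im ^ 2) = |u.im| * (w.re * u.re - w.im * u.im) := by
    rw [← abs_of_pos h3, ← abs_mul, h5, abs_mul, abs_neg, abs_of_pos h1]
  have h7 : |w.im| * (u.re ^ 2 + u.im ^ 2) ≤ (η * w.re) * (u.re ^ 2 + u.im ^ 2) := by
    rw [h6]
    calc |u.im| * (w.re * u.re - w.im * u.im) ≤ (η * u.re) * (w.re * u.re - w.im * u.im) :=
          mul_le_mul_of_nonneg_right hu.2 h1.le
      _ = η * (u.re * (w.re * u.re - w.im * u.im)) := by ring
      _ = (η * w.re) * (u.re ^ 2 + u.im ^ 2) := by rw [← h4]; ring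
  exact le_of_mul_le_mul_right h7 h3

theorem NP.mul_re {η : ℝ} (hη : 0 ≤ η) {w u : ℂ} (hw : NP η w) (hu : NP η u) :
    (1 - η ^ 2) * (w.re * u.re) ≤ (w * u).re ∧ (w * u).re ≤ (1 + η ^ 2) * (w.re * u.re) := by
  have h1 : |w.im * u.im| ≤ η ^ 2 * (w.re * u.re) := by
    rw [abs_mul]
    calc |w.im| * |u.im| ≤ (η * w.re) * (η * u.re) :=
          mul_le_mul hw.2 hu.2 (abs_nonneg _) (mul_nonneg hη hw.1.le)
      _ = _ := by ring
  have h2 := abs_le.1 h1
  rw [Complex.mul_re]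
  constructor <;> linarith [h2.1, h2.2]

/-- the real part of a product with a number close to the real number `r` -/
theorem NP.mul_close {η r : ℝ} (hη : 0 ≤ η) (hη1 : η ≤ 1) {w u : ℂ} (hw : NP η w)
    (hu : ‖u - r‖ ≤ η) : (r - 2 * η) * w.re ≤ (u * w).re ∧ (u * w).re ≤ (r + 2 * η) * w.re := by
  have h1 : |u.re - r| ≤ η := by
    have := (Complex.abs_re_le_norm (u - r)).trans hu
    simpa using this
  have h2 : |u.im| ≤ η := by
    have := (Complex.abs_im_le_norm (u - r)).trans hu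
    simpa using this
  have hwre := hw.1
  have h3 : |(u.re - r) * w.re| ≤ η * w.re := by
    rw [abs_mul, abs_of_pos hwre]
    exact mul_le_mul_of_nonneg_right h1 hwre.le
  have h4 : |u.im * w.im| ≤ η * w.re := by
    rw [abs_mul]
    have h5 : |w.im| ≤ w.re := by
      have := hw.2
      nlinarith
    exact mul_le_mul h2 h5 (abs_nonneg _) hη
  have h6 := abs_le.1 h3
  have h7 := abs_le.1 h4
  have h8 : (u * w).re = r * w.re + (u.re - r) * w.re - u.im * w.im := by
    rw [Complex.mul_re]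
    ring
  rw [h8]
  constructor
  · linarith [h6.1, h7.2]
  · linarith [h6.2, h7.1]

end Pool.Agent.Helper63.UR
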