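import Mathlib
import Pool.Agent.Helper63.UR.Defs

/-!
The two sides attached to an exact solution of the local systems of a family of gadgets.
-/

namespace Pool.Agent.Helper63.UR

open Matrix Finset

variable {V C : Type} [Fintype V] [DecidableEq V] [Fintype C] [DecidableEq C]

/-- adjacency of comparators and heavy rows -/
def gadj (G : C → Gad V) (g : C × Bool) (y : V) : Prop := (G g.1).wt g.2 y ≠ 0

/-- `Zf c y`, multiplied by `1 + s` on the left rows of the gadget `c` -/
noncomputable def Zp (G : C → Gad V) (Zf : C → V → ℝ) (s : ℝ) (c : C) (y : V) : ℝ :=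
  if (G c).X y = 4 then (1 + s) * Zf c y else Zf c y

/-- the perturbed entries of the rows of the comparators -/
noncomputable def bG (G : C → Gad V) (Zf : C → V → ℝ) (s : ℝ) (g : C × Bool) (y : V) : ℝ :=
  tq V C * ((G g.1).wt g.2 y * Zf g.1 y + s * (G g.1).a g.2 y) / Zp G Zf s g.1 y

/-- the lower side -/
noncomputable def side1 (G : C → Gad V) (Zf : C → V → ℝ) (s : ℝ) : Side V C where
  a y g := tq V C * (G g.1).a g.2 y / (G g.1).X y
  b g y := bG G Zf s g y
  PV c y := c.elim 1 fun c => ((G c).X y : ℝ)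
  PG c g := if c = some g.1 then -(tq V C * (G g.1).th g.2 : ℝ) else -(Hq V C : ℝ)
  QV e y := if y = (G e.1).el e.2 then 2 else if y = (G e.1).er e.2 then 1 / 2 else 10
  QG _ _ := -(Hq2 V C : ℝ)
  Y e c := if c = none ∨ c = some e.1 then 1 else (sq C : ℝ)

/-- the entry of the base row of the upper side at `e` is `1`; this is the entry of the row of the
gadget -/
noncomputable def ve (G : C → Gad V) (Zf : C → V → ℝ) (z : V → ℝ) (s : ℝ) (e : C × Bool) : ℝ :=
  z ((G e.1).er e.2) / Zf e.1 ((G e.1).er e.2) / (1 + s / 2)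

/-- the gap at the left row -/
noncomputable def gl (G : C → Gad V) (Zf : C → V → ℝ) (z : V → ℝ) (s : ℝ) (e : C × Bool) : ℝ :=
  Zp G Zf s e.1 ((G e.1).el e.2) * ve G Zf z s e - z ((G e.1).el e.2)

/-- the gap at the right row -/
noncomputable def gr (G : C → Gad V) (Zf : C → V → ℝ) (z : V → ℝ) (s : ℝ) (e : C × Bool) : ℝ :=
  z ((G e.1).er e.2) - Zp G Zf s e.1 ((G e.1).er e.2) * ve G Zf z s e

/-- the tiny entries -/
noncomputable def te (G : C → Gad V) (Zf : C → V → ℝ) (z : V → ℝ) (s : ℝ) (e : C × Bool) : ℝ :=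
  min (min (gl G Zf z s e) (gr G Zf z s e)) 1 / (16 * (Fintype.card C + 1))

/-- the upper side -/
noncomputable def side2 (G : C → Gad V) (Zf : C → V → ℝ) (β : C → Bool → ℝ) (z : V → ℝ)
    (s H U : ℝ) : Side V C where
  a y g := bG G Zf s g y
  b g y := tq V C * (G g.1).a g.2 y / (G g.1).X y
  PV c y := c.elim (z y) fun c => Zp G Zf s c y
  PG c g := if c = some g.1 then -(tq V C * (β g.1 g.2 + s * (G g.1).th g.2) : ℝ) else -H
  QV e y := if y = (G e.1).el e.2 then (z y + Zp G Zf s e.1 y * ve G Zf z s e) / 2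
    else if y = (G e.1).er e.2 then (z y + Zp G Zf s e.1 y * ve G Zf z s e) / 2 else 100
  QG _ _ := -U
  Y e c := if c = none then 1 else if c = some e.1 then ve G Zf z s e else te G Zf z s e

/-- exact solutions of all local systems -/
structure Sols (G : C → Gad V) (Zf : C → V → ℝ) (β : C → Bool → ℝ) (z : V → ℝ) : Prop where
  z_box : ∀ y, 1 / 2 ≤ z y ∧ z y ≤ 2
  Z_box : ∀ c y, 1 / 2 ≤ Zf c y ∧ Zf c y ≤ 2
  β_box : ∀ c b, 0 < β c b ∧ β c b ≤ 4
  lo : ∀ c b (S : Finset V), ∑ y ∈ S, (G c).a b y < (G c).th b →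
    ∑ y ∈ S, ((G c).wt b y : ℝ) * Zf c y ≤ β c b
  hi : ∀ c b (S : Finset V), (G c).th b < ∑ y ∈ S, (G c).a b y →
    β c b ≤ ∑ y ∈ S, ((G c).wt b y : ℝ) * Zf c y
  ord : ∀ c b, z ((G c).el b) * Zf c ((G c).er b) ≤ z ((G c).er b) * Zf c ((G c).el b)

end Pool.Agent.Helper63.UR
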