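import Mathlib
import Pool.Agent.Helper63.UR.SuffDefs

/-!
The matrix of a family of gadgets over the reals.
-/

namespace Pool.Agent.Helper63.UR

open Matrix Finset Filter Topology Pool.Agent.Helper5.GKK

variable {V C : Type} [Fintype V] [DecidableEq V] [Fintype C] [DecidableEq C]
variable {G : C → Gad V} {Zf : C → V → ℝ} {β : C → Bool → ℝ} {z : V → ℝ} {s : ℝ}

/-- the matrix of the family over the reals -/
noncomputable def gMr (G : C → Gad V) : Matrix (Ix V C) (Ix V C) ℝ := (gM G).map (fun q : ℚ => (q : ℝ))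

omit [DecidableEq V] [DecidableEq C] in
private theorem gmr_t_pos : (0 : ℝ) < ((tq V C : ℚ) : ℝ) := by
  have h : (0 : ℚ) < tq V C := by
    unfold tq
    positivity
  exact_mod_cast h

omit [DecidableEq V] [DecidableEq C] in
private theorem gmr_t_eq : ((tq V C : ℚ) : ℝ) * (400 * (Fintype.card C + Fintype.card V + 1)) = 1 := by
  have h : tq V C * (400 * (Fintype.card C + Fintype.card V + 1)) = 1 := by
    unfold tq
    field_simp
  exact_mod_cast h

private theorem gmr_a_le (hG : ∀ c, (G c).Ok) (g : C × Bool) (x : V) :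
    (0 : ℝ) ≤ ((G g.1).a g.2 x : ℝ) / ((G g.1).X x : ℝ) ∧
      ((G g.1).a g.2 x : ℝ) / ((G g.1).X x : ℝ) ≤ 64 := by
  have h1 : (1 / 4 : ℝ) ≤ ((G g.1).X x : ℝ) := by
    have h := (Rat.cast_le (K := ℝ)).2 ((hG g.1).X_lo x)
    push_cast at h
    exact h
  have h2 : (0 : ℝ) ≤ ((G g.1).a g.2 x : ℝ) ∧ ((G g.1).a g.2 x : ℝ) ≤ 16 := by
    rcases (hG g.1).supp g.2 x with h | h
    · rw [h.2]
      norm_num
    · have h3 : (1 : ℝ) ≤ ((G g.1).a g.2 x : ℝ) := by exact_mod_cast h.2.2.1
      have h4 : ((G g.1).a g.2 x : ℝ) ≤ 16 := by exact_mod_cast h.2.2.2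
      exact ⟨by linarith, h4⟩
  have h0 : (0 : ℝ) < ((G g.1).X x : ℝ) := by linarith
  refine ⟨div_nonneg h2.1 h0.le, ?_⟩
  rw [div_le_iff₀ h0]
  linarith [h2.2]

private theorem gmr_wt_le (hG : ∀ c, (G c).Ok) (g : C × Bool) (x : V) :
    (0 : ℝ) ≤ ((G g.1).wt g.2 x : ℝ) ∧ ((G g.1).wt g.2 x : ℝ) ≤ 2 := by
  rcases (hG g.1).supp g.2 x with h | h
  · rw [h.1]
    norm_num
  · have h3 : (1 : ℝ) ≤ ((G g.1).wt g.2 x : ℝ) := by exact_mod_cast h.1
    have h4 : ((G g.1).wt g.2 x : ℝ) ≤ 2 := by exact_mod_cast h.2.1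
    exact ⟨by linarith, h4⟩

private theorem gmr_11 (x y : V) :
    gMr G (Sum.inl (Sum.inl x)) (Sum.inl (Sum.inl y)) = if x = y then 1 else 0 := by
  simp only [gMr, Matrix.map_apply, gM]
  split_ifs <;> simp

private theorem gmr_12 (x : V) (g : C × Bool) :
    gMr G (Sum.inl (Sum.inl x)) (Sum.inl (Sum.inr g)) =
      -(((tq V C : ℚ) : ℝ) * (((G g.1).a g.2 x : ℝ) / ((G g.1).X x : ℝ))) := by
  simp only [gMr, Matrix.map_apply, gM]
  push_cast
  ring

private theorem gmr_21 (g : C × Bool) (y : V) :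
    gMr G (Sum.inl (Sum.inr g)) (Sum.inl (Sum.inl y)) =
      -(((tq V C : ℚ) : ℝ) * ((G g.1).wt g.2 y : ℝ)) := by
  simp only [gMr, Matrix.map_apply, gM]
  push_cast
  ring

private theorem gmr_22 (g g' : C × Bool) :
    gMr G (Sum.inl (Sum.inr g)) (Sum.inl (Sum.inr g')) = if g = g' then 1 else 0 := by
  simp only [gMr, Matrix.map_apply, gM]
  split_ifs <;> simp

private theorem gmr_cc (c c' : Option C) :
    gMr G (Sum.inr (Sum.inl c)) (Sum.inr (Sum.inl c')) = if c = c' then 1 else 0 := by
  cases c <;> simp only [gMr, Matrix.map_apply, gM] <;> split_ifs <;> simp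

private theorem gmr_ee (e e' : C × Bool) :
    gMr G (Sum.inr (Sum.inr e)) (Sum.inr (Sum.inr e')) = if e = e' then 1 else 0 := by
  simp only [gMr, Matrix.map_apply, gM]
  split_ifs <;> simp

theorem gMr_lbm (hG : ∀ c, (G c).Ok) : LBM blk (gMr G) := by
  have ht := gmr_t_pos (V := V) (C := C)
  have ht1 := gmr_t_eq (V := V) (C := C)
  have hC : (0 : ℝ) ≤ Fintype.card C := Nat.cast_nonneg _
  have hV : (0 : ℝ) ≤ Fintype.card V := Nat.cast_nonneg _
  refine ⟨?_, ?_, ?_, ?_⟩
  · rintro ((x | g) | (c | e))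
    · rw [gmr_11, if_pos rfl]
    · rw [gmr_22, if_pos rfl]
    · rw [gmr_cc, if_pos rfl]
    · rw [gmr_ee, if_pos rfl]
  · rintro ((x | g) | (c | e)) ((y | g') | (c' | e')) h
    all_goals first
      | (simp only [blk] at h; omega)
      | (simp only [gMr, Matrix.map_apply, gM, Rat.cast_zero])
      | (cases c <;> simp only [gMr, Matrix.map_apply, gM, Rat.cast_zero])
  · rintro ((x | g) | (c | e)) ((y | g') | (c' | e')) h hne
    all_goals first
      | (simp only [blk] at h; omega)
      | skip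
    · rw [gmr_11, if_neg (fun h => hne (by rw [h]))]
    · rw [gmr_12, neg_nonpos]
      exact mul_nonneg ht.le (gmr_a_le hG g' x).1
    · rw [gmr_21, neg_nonpos]
      exact mul_nonneg ht.le (gmr_wt_le hG g y).1
    · rw [gmr_22, if_neg (fun h => hne (by rw [h]))]
    · rw [gmr_cc, if_neg (fun h => hne (by rw [h]))]
    · rw [gmr_ee, if_neg (fun h => hne (by rw [h]))]
  · rintro ((x | g) | (c | e))
    · rw [Finset.sum_filter, Fintype.sum_sum_type, Fintype.sum_sum_type, Fintype.sum_sum_type]
      have h1 : ∀ y : V, (if (Sum.inl (Sum.inl y) : Ix V C) ≠ Sum.inl (Sum.inl x) ∧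
          blk (Sum.inl (Sum.inl y) : Ix V C) = blk (Sum.inl (Sum.inl x) : Ix V C) then
          -(gMr G (Sum.inl (Sum.inl x)) (Sum.inl (Sum.inl y))) else 0) = 0 := by
        intro y
        by_cases hxy : x = y
        · subst hxy
          rw [if_neg (fun h => h.1 rfl)]
        · rw [gmr_11, if_neg hxy, neg_zero, ite_self]
      have h2 : ∀ g : C × Bool, (if (Sum.inl (Sum.inr g) : Ix V C) ≠ Sum.inl (Sum.inl x) ∧
          blk (Sum.inl (Sum.inr g) : Ix V C) = blk (Sum.inl (Sum.inl x) : Ix V C) then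
          -(gMr G (Sum.inl (Sum.inl x)) (Sum.inl (Sum.inr g))) else 0) ≤
          ((tq V C : ℚ) : ℝ) * 64 := by
        intro g
        rw [if_pos ⟨by simp, rfl⟩, gmr_12, neg_neg]
        exact mul_le_mul_of_nonneg_left (gmr_a_le hG g x).2 ht.le
      have h3 : ∀ c : Option C, (if (Sum.inr (Sum.inl c) : Ix V C) ≠ Sum.inl (Sum.inl x) ∧
          blk (Sum.inr (Sum.inl c) : Ix V C) = blk (Sum.inl (Sum.inl x) : Ix V C) then
          -(gMr G (Sum.inl (Sum.inl x)) (Sum.inr (Sum.inl c))) else 0) = 0 := by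
        intro c
        rw [if_neg (fun h => by simp [blk] at h)]
      have h4 : ∀ e : C × Bool, (if (Sum.inr (Sum.inr e) : Ix V C) ≠ Sum.inl (Sum.inl x) ∧
          blk (Sum.inr (Sum.inr e) : Ix V C) = blk (Sum.inl (Sum.inl x) : Ix V C) then
          -(gMr G (Sum.inl (Sum.inl x)) (Sum.inr (Sum.inr e))) else 0) = 0 := by
        intro e
        rw [if_neg (fun h => by simp [blk] at h)]
      rw [Finset.sum_congr rfl fun y _ => h1 y, Finset.sum_congr rfl fun c _ => h3 c,
        Finset.sum_congr rfl fun e _ => h4 e]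
      have h5 := Finset.sum_le_sum fun (g : C × Bool) (_ : g ∈ univ) => h2 g
      rw [Finset.sum_const, Finset.card_univ, Fintype.card_prod, Fintype.card_bool,
        nsmul_eq_mul] at h5
      simp only [Finset.sum_const_zero, zero_add, add_zero]
      refine lt_of_le_of_lt h5 ?_
      push_cast
      nlinarith
    · rw [Finset.sum_filter, Fintype.sum_sum_type, Fintype.sum_sum_type, Fintype.sum_sum_type]
      have h1 : ∀ y : V, (if (Sum.inl (Sum.inl y) : Ix V C) ≠ Sum.inl (Sum.inr g) ∧
          blk (Sum.inl (Sum.inl y) : Ix V C) = blk (Sum.inl (Sum.inr g) : Ix V C) then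
          -(gMr G (Sum.inl (Sum.inr g)) (Sum.inl (Sum.inl y))) else 0) ≤
          ((tq V C : ℚ) : ℝ) * 2 := by
        intro y
        rw [if_pos ⟨by simp, rfl⟩, gmr_21, neg_neg]
        exact mul_le_mul_of_nonneg_left (gmr_wt_le hG g y).2 ht.le
      have h2 : ∀ g' : C × Bool, (if (Sum.inl (Sum.inr g') : Ix V C) ≠ Sum.inl (Sum.inr g) ∧
          blk (Sum.inl (Sum.inr g') : Ix V C) = blk (Sum.inl (Sum.inr g) : Ix V C) then
          -(gMr G (Sum.inl (Sum.inr g)) (Sum.inl (Sum.inr g'))) else 0) = 0 := by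
        intro g'
        by_cases hxy : g = g'
        · subst hxy
          rw [if_neg (fun h => h.1 rfl)]
        · rw [gmr_22, if_neg hxy, neg_zero, ite_self]
      have h3 : ∀ c : Option C, (if (Sum.inr (Sum.inl c) : Ix V C) ≠ Sum.inl (Sum.inr g) ∧
          blk (Sum.inr (Sum.inl c) : Ix V C) = blk (Sum.inl (Sum.inr g) : Ix V C) then
          -(gMr G (Sum.inl (Sum.inr g)) (Sum.inr (Sum.inl c))) else 0) = 0 := by
        intro c
        rw [if_neg (fun h => by simp [blk] at h)]
      have h4 : ∀ e : C × Bool, (if (Sum.inr (Sum.inr e) : Ix V C) ≠ Sum.inl (Sum.inr g) ∧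
          blk (Sum.inr (Sum.inr e) : Ix V C) = blk (Sum.inl (Sum.inr g) : Ix V C) then
          -(gMr G (Sum.inl (Sum.inr g)) (Sum.inr (Sum.inr e))) else 0) = 0 := by
        intro e
        rw [if_neg (fun h => by simp [blk] at h)]
      rw [Finset.sum_congr rfl fun g _ => h2 g, Finset.sum_congr rfl fun c _ => h3 c,
        Finset.sum_congr rfl fun e _ => h4 e]
      have h5 := Finset.sum_le_sum fun (y : V) (_ : y ∈ univ) => h1 y
      rw [Finset.sum_const, Finset.card_univ, nsmul_eq_mul] at h5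
      simp only [Finset.sum_const_zero, add_zero]
      refine lt_of_le_of_lt h5 ?_
      nlinarith
    · refine lt_of_le_of_lt (le_of_eq (Finset.sum_eq_zero ?_)) one_pos
      rintro ((y | g') | (c' | e')) hj
      · exact absurd (Finset.mem_filter.1 hj).2.2 (by simp [blk])
      · exact absurd (Finset.mem_filter.1 hj).2.2 (by simp [blk])
      · rw [Finset.mem_filter] at hj
        rw [gmr_cc, if_neg (fun h => hj.2.1 (by rw [h])), neg_zero]
      · exact absurd (Finset.mem_filter.1 hj).2.2 (by simp [blk])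
    · refine lt_of_le_of_lt (le_of_eq (Finset.sum_eq_zero ?_)) one_pos
      rintro ((y | g') | (c' | e')) hj
      · exact absurd (Finset.mem_filter.1 hj).2.2 (by simp [blk])
      · exact absurd (Finset.mem_filter.1 hj).2.2 (by simp [blk])
      · exact absurd (Finset.mem_filter.1 hj).2.2 (by simp [blk])
      · rw [Finset.mem_filter] at hj
        rw [gmr_ee, if_neg (fun h => hj.2.1 (by rw [h])), neg_zero]

/-- the entries of the lower side converge to those of `gMr G` -/
theorem tendsto_side1 (hG : ∀ c, (G c).Ok) (hZ : ∀ c y, 1 / 2 ≤ Zf c y ∧ Zf c y ≤ 2)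
    (i j : Ix V C) :
    Tendsto (fun s => (side1 G Zf s).mat i j) (𝓝[>] 0) (𝓝 (gMr G i j)) := by
  have const : ∀ i j : Ix V C, (∀ s, (side1 G Zf s).mat i j = gMr G i j) →
      Tendsto (fun s => (side1 G Zf s).mat i j) (𝓝[>] 0) (𝓝 (gMr G i j)) := by
    intro i j h
    simp only [h]
    exact tendsto_const_nhds
  rcases i with (x | g) | (c | e)
  · rcases j with (y | g') | (c' | e')
    · refine const _ _ fun s => ?_
      rw [gmr_11]
      rfl
    · refine const _ _ fun s => ?_
      rw [gmr_12]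
      simp only [Side.mat, side1]
      ring
    · exact const _ _ fun s => by simp only [Side.mat, gMr, Matrix.map_apply, gM, Rat.cast_zero]
    · exact const _ _ fun s => by simp only [Side.mat, gMr, Matrix.map_apply, gM, Rat.cast_zero]
  · rcases j with (y | g') | (c' | e')
    · -- the entries which depend on `s`
      rw [gmr_21]
      simp only [Side.mat, side1, bG]
      have hz : Zf g.1 y ≠ 0 := by
        have := (hZ g.1 y).1
        linarith
      have h1 : Tendsto (fun s : ℝ => Zp G Zf s g.1 y) (𝓝[>] 0) (𝓝 (Zf g.1 y)) := by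
        unfold Zp
        split_ifs with hX
        · have h2 : Continuous fun s : ℝ => (1 + s) * Zf g.1 y := by fun_prop
          have h3 := h2.tendsto 0
          simp only [add_zero, one_mul] at h3
          exact h3.mono_left nhdsWithin_le_nhds
        · exact tendsto_const_nhds
      have h2 : Tendsto (fun s : ℝ => ((tq V C : ℚ) : ℝ) *
          (((G g.1).wt g.2 y : ℝ) * Zf g.1 y + s * ((G g.1).a g.2 y : ℝ))) (𝓝[>] 0)
          (𝓝 (((tq V C : ℚ) : ℝ) * (((G g.1).wt g.2 y : ℝ) * Zf g.1 y))) := by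
        have h3 : Continuous fun s : ℝ => ((tq V C : ℚ) : ℝ) *
          (((G g.1).wt g.2 y : ℝ) * Zf g.1 y + s * ((G g.1).a g.2 y : ℝ)) := by fun_prop
        have h4 := h3.tendsto 0
        simp only [zero_mul, add_zero] at h4
        exact h4.mono_left nhdsWithin_le_nhds
      have h3 := (h2.div h1 hz).neg
      have h4 : -(((tq V C : ℚ) : ℝ) * (((G g.1).wt g.2 y : ℝ) * Zf g.1 y) / Zf g.1 y) =
          -(((tq V C : ℚ) : ℝ) * ((G g.1).wt g.2 y : ℝ)) := by
        field_simp
      rw [h4] at h3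
      exact h3
    · refine const _ _ fun s => ?_
      rw [gmr_22]
      rfl
    · exact const _ _ fun s => by simp only [Side.mat, gMr, Matrix.map_apply, gM, Rat.cast_zero]
    · exact const _ _ fun s => by simp only [Side.mat, gMr, Matrix.map_apply, gM, Rat.cast_zero]
  · refine const _ _ fun s => ?_
    rcases j with (y | g') | (c' | e')
    · cases c <;> simp [Side.mat, side1, gMr, Matrix.map_apply, gM]
    · cases c with
      | none => simp [Side.mat, side1, gMr, Matrix.map_apply, gM]
      | some c =>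
        simp only [Side.mat, side1, gMr, Matrix.map_apply, gM]
        split_ifs <;> push_cast <;> rfl
    · rw [gmr_cc]
      rfl
    · cases c <;> simp only [Side.mat, gMr, Matrix.map_apply, gM, Rat.cast_zero]
  · refine const _ _ fun s => ?_
    rcases j with (y | g') | (c' | e')
    · simp only [Side.mat, side1, gMr, Matrix.map_apply, gM]
      split_ifs <;> norm_num
    · simp only [Side.mat, side1, gMr, Matrix.map_apply, gM]
      push_cast
      rfl
    · simp only [Side.mat, side1, gMr, Matrix.map_apply, gM]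
      split_ifs <;> norm_num
    · rw [gmr_ee]
      rfl

end Pool.Agent.Helper63.UR
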