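import Mathlib
import Pool.Agent.Helper63.UR.Defs

/-!
Continuity of principal minors and Schur complements; closedness.
-/

namespace Pool.Agent.Helper63.UR

open Matrix Finset Filter Topology Pool.Agent.Helper5.GKK
open scoped ComplexOrder

variable {ι : Type*} [Fintype ι] [DecidableEq ι] {n : ℕ}

theorem tendsto_pmg {𝕜 : Type*} [RCLike 𝕜] {α : Type*} {l : Filter α} {M : α → Matrix ι ι 𝕜}
    {M0 : Matrix ι ι 𝕜} (h : ∀ i j, Tendsto (fun s => M s i j) l (𝓝 (M0 i j))) (S : Finset ι) :
    Tendsto (fun s => pmg (M s) S) l (𝓝 (pmg M0 S)) := by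
  have hM : Tendsto (fun s => (M s).submatrix (Subtype.val : S → ι) (Subtype.val : S → ι)) l
      (𝓝 (M0.submatrix (Subtype.val : S → ι) (Subtype.val : S → ι))) :=
    tendsto_pi_nhds.mpr fun x => tendsto_pi_nhds.mpr fun y => h x.1 y.1
  exact ((continuous_id.matrix_det).tendsto _).comp hM

theorem tendsto_scg {𝕜 : Type*} [RCLike 𝕜] {α : Type*} {l : Filter α} {M : α → Matrix ι ι 𝕜}
    {M0 : Matrix ι ι 𝕜} (h : ∀ i j, Tendsto (fun s => M s i j) l (𝓝 (M0 i j))) {K : Finset ι}
    (hK : pmg M0 K ≠ 0) (i j : ι) : Tendsto (fun s => scg (M s) K i j) l (𝓝 (scg M0 K i j)) := by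
  have hinv : ∀ x y : K, Tendsto
      (fun s => ((M s).submatrix (Subtype.val : K → ι) Subtype.val)⁻¹ x y) l
      (𝓝 ((M0.submatrix (Subtype.val : K → ι) Subtype.val)⁻¹ x y)) := by
    intro x y
    have hdet := tendsto_pmg h K
    have hadj : Tendsto (fun s => ((M s).submatrix (Subtype.val : K → ι) Subtype.val).adjugate x y)
        l (𝓝 ((M0.submatrix (Subtype.val : K → ι) Subtype.val).adjugate x y)) := by
      have hM : Tendsto (fun s => (M s).submatrix (Subtype.val : K → ι) (Subtype.val : K → ι)) l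
          (𝓝 (M0.submatrix (Subtype.val : K → ι) (Subtype.val : K → ι))) :=
        tendsto_pi_nhds.mpr fun x => tendsto_pi_nhds.mpr fun y => h x.1 y.1
      have h1 := ((continuous_id.matrix_adjugate).tendsto _).comp hM
      exact (tendsto_pi_nhds.mp (tendsto_pi_nhds.mp h1 x)) y
    have h2 := (hdet.inv₀ hK).mul hadj
    simp only [pmg] at h2
    have e : ∀ A : Matrix K K 𝕜, A⁻¹ x y = A.det⁻¹ * A.adjugate x y := by
      intro A
      rw [Matrix.inv_def, Ring.inverse_eq_inv', Matrix.smul_apply, smul_eq_mul]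
    simp only [e]
    exact h2
  unfold scg
  exact (h i j).sub (tendsto_finsetSum _ fun x _ => tendsto_finsetSum _ fun y _ =>
    ((h i x).mul (hinv x y)).mul (h y j))

/-- limits of limits -/
theorem InL.of_tendsto {α : Type*} {l : Filter α} [l.NeBot] (c : Fin n ≃ ι) {M : α → Matrix ι ι ℝ}
    {M0 : Matrix ι ι ℝ} (h : ∀ i j, Tendsto (fun s => M s i j) l (𝓝 (M0 i j)))
    (hM : ∀ᶠ s in l, InL c (M s)) : InL c M0 := by
  have hcm : Tendsto (fun s => cm c (M s)) l (𝓝 (cm c M0)) := by
    refine tendsto_pi_nhds.mpr fun i => tendsto_pi_nhds.mpr fun j => ?_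
    simp only [cm, Matrix.submatrix_apply, Matrix.map_apply]
    exact (Complex.continuous_ofReal.tendsto _).comp (h (c i) (c j))
  exact isClosed_closure.mem_of_tendsto hcm hM

end Pool.Agent.Helper63.UR
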