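import Mathlib
import Pool.Agent.Helper63.UR.GMr
import Pool.Agent.Helper63.UR.Trans2
import Pool.Agent.Helper63.UR.Alg2

/-!
The special Schur complements of the matrix of a family of gadgets.
-/

namespace Pool.Agent.Helper63.UR

open Matrix Finset Filter Topology Pool.Agent.Helper5.GKK
open scoped ComplexOrder

variable {V C : Type} [Fintype V] [DecidableEq V] [Fintype C] [DecidableEq C]
variable {G : C → Gad V}

/-- the heavy rows in `S` -/
def hS (S : Finset V) : Finset (Ix V C) := S.map ⟨fun y => Sum.inl (Sum.inl y), fun _ _ h => by simpa using h⟩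

private theorem nec2_sub {ι : Type*} [Fintype ι] [DecidableEq ι] {M : Matrix ι ι ℝ} {K : Finset ι}
    (h : ∀ x ∈ K, ∀ y ∈ K, M x y = if x = y then 1 else 0) :
    M.submatrix (Subtype.val : K → ι) (Subtype.val : K → ι) = (1 : Matrix K K ℝ) := by
  ext x y
  rw [Matrix.submatrix_apply, h _ x.2 _ y.2, Matrix.one_apply]
  by_cases hxy : x = y
  · rw [if_pos hxy, if_pos (congrArg _ hxy)]
  · rw [if_neg hxy, if_neg fun h => hxy (Subtype.ext h)]

private theorem nec2_pmg {ι : Type*} [Fintype ι] [DecidableEq ι] {M : Matrix ι ι ℝ} {K : Finset ι}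
    (h : ∀ x ∈ K, ∀ y ∈ K, M x y = if x = y then 1 else 0) : pmg M K = 1 := by
  rw [pmg, nec2_sub h, Matrix.det_one]

private theorem nec2_scg {ι : Type*} [Fintype ι] [DecidableEq ι] {M : Matrix ι ι ℝ} {K : Finset ι}
    (h : ∀ x ∈ K, ∀ y ∈ K, M x y = if x = y then 1 else 0) (i j : ι) :
    scg M K i j = M i j - ∑ x ∈ K, M i x * M x j := by
  rw [scg, nec2_sub h, inv_one, ← Finset.sum_coe_sort K]
  congr 1
  refine Finset.sum_congr rfl fun x _ => ?_
  rw [Finset.sum_eq_single x]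
  · rw [Matrix.one_apply_eq, mul_one]
  · intro y _ hy
    rw [Matrix.one_apply_ne hy.symm]
    ring
  · intro h
    exact absurd (Finset.mem_univ _) h

private theorem nec2_gMr (i j : Ix V C) : gMr G i j = ((gM G i j : ℚ) : ℝ) := rfl

private theorem nec2_hS (S : Finset V) : ∀ x ∈ (hS S : Finset (Ix V C)), ∀ y ∈ (hS S : Finset (Ix V C)),
    gMr G x y = if x = y then 1 else 0 := by
  intro x hx y hy
  unfold hS at hx hy
  rw [Finset.mem_map] at hx hy
  obtain ⟨a, _, rfl⟩ := hx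
  obtain ⟨b, _, rfl⟩ := hy
  show gMr G (Sum.inl (Sum.inl a)) (Sum.inl (Sum.inl b)) =
    if (Sum.inl (Sum.inl a) : Ix V C) = Sum.inl (Sum.inl b) then 1 else 0
  rw [nec2_gMr]
  by_cases hab : a = b
  · subst hab
    simp [gM]
  · simp [gM, hab]

private theorem nec2_co (c : Option C) : ∀ x ∈ ({Sum.inr (Sum.inl c)} : Finset (Ix V C)),
    ∀ y ∈ ({Sum.inr (Sum.inl c)} : Finset (Ix V C)), gMr G x y = if x = y then 1 else 0 := by
  intro x hx y hy
  rw [Finset.mem_singleton] at hx hy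
  subst hx hy
  rw [nec2_gMr]
  simp [gM]

theorem pmg_hS (S : Finset V) : pmg (gMr G) (hS S) = 1 := by
  exact nec2_pmg (nec2_hS S)

theorem scg_hS (hG : ∀ c, (G c).Ok) (c : C) (b : Bool) (S : Finset V) :
    scg (gMr G) (hS S) (Sum.inr (Sum.inl (some c))) (Sum.inl (Sum.inr (c, b)))
      = tq V C * (-((G c).th b : ℝ) + ∑ y ∈ S, ((G c).a b y : ℝ)) := by
  have h0 : ∑ x ∈ hS S, gMr G (Sum.inr (Sum.inl (some c))) x * gMr G x (Sum.inl (Sum.inr (c, b))) =
      ∑ y ∈ S, gMr G (Sum.inr (Sum.inl (some c))) (Sum.inl (Sum.inl y)) *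
        gMr G (Sum.inl (Sum.inl y)) (Sum.inl (Sum.inr (c, b))) := Finset.sum_map _ _ _
  rw [nec2_scg (nec2_hS S), h0]
  have h1 : gMr G (Sum.inr (Sum.inl (some c))) (Sum.inl (Sum.inr (c, b))) =
      -((tq V C : ℝ) * ((G c).th b : ℝ)) := by
    rw [nec2_gMr]
    simp [gM]
  have h2 : ∀ y : V, gMr G (Sum.inr (Sum.inl (some c))) (Sum.inl (Sum.inl y)) *
      gMr G (Sum.inl (Sum.inl y)) (Sum.inl (Sum.inr (c, b))) =
      -((tq V C : ℝ) * ((G c).a b y : ℝ)) := by
    intro y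
    rw [nec2_gMr, nec2_gMr]
    have hX : ((G c).X y : ℝ) ≠ 0 := by
      have := (hG c).X_lo y
      have h3 : (G c).X y ≠ 0 := by
        intro h
        rw [h] at this
        norm_num at this
      exact_mod_cast h3
    simp only [gM]
    push_cast
    field_simp
  rw [h1, Finset.sum_congr rfl fun y _ => h2 y, Finset.sum_neg_distrib, ← Finset.mul_sum]
  ring

theorem pmg_co (c : Option C) : pmg (gMr G) {Sum.inr (Sum.inl c)} = 1 := by
  exact nec2_pmg (nec2_co c)

theorem scg_none_el (e : C × Bool) : scg (gMr G) {Sum.inr (Sum.inl none)} (Sum.inr (Sum.inr e))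
    (Sum.inl (Sum.inl ((G e.1).el e.2))) = 1 := by
  rw [nec2_scg (nec2_co none), Finset.sum_singleton, nec2_gMr, nec2_gMr, nec2_gMr]
  simp only [gM, if_true, true_or]
  norm_num

theorem scg_some_el (hG : ∀ c, (G c).Ok) (e : C × Bool) :
    scg (gMr G) {Sum.inr (Sum.inl (some e.1))} (Sum.inr (Sum.inr e))
    (Sum.inl (Sum.inl ((G e.1).el e.2))) = -2 := by
  rw [nec2_scg (nec2_co (some e.1)), Finset.sum_singleton, nec2_gMr, nec2_gMr, nec2_gMr]
  simp only [gM, if_true, or_true, (hG e.1).X_el]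
  norm_num

private theorem nec2_ne (hG : ∀ c, (G c).Ok) (e : C × Bool) : (G e.1).er e.2 ≠ (G e.1).el e.2 := by
  intro h
  have h1 := (hG e.1).X_el e.2
  have h2 := (hG e.1).X_er e.2
  rw [h, h1] at h2
  norm_num at h2

theorem scg_none_er (hG : ∀ c, (G c).Ok) (e : C × Bool) :
    scg (gMr G) {Sum.inr (Sum.inl none)} (Sum.inr (Sum.inr e))
    (Sum.inl (Sum.inl ((G e.1).er e.2))) = -1 / 2 := by
  rw [nec2_scg (nec2_co none), Finset.sum_singleton, nec2_gMr, nec2_gMr, nec2_gMr]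
  simp only [gM, if_true, true_or, nec2_ne hG e, if_false]
  norm_num

theorem scg_some_er (hG : ∀ c, (G c).Ok) (e : C × Bool) :
    scg (gMr G) {Sum.inr (Sum.inl (some e.1))} (Sum.inr (Sum.inr e))
    (Sum.inl (Sum.inl ((G e.1).er e.2))) = 1 / 4 := by
  rw [nec2_scg (nec2_co (some e.1)), Finset.sum_singleton, nec2_gMr, nec2_gMr, nec2_gMr]
  simp only [gM, if_true, or_true, nec2_ne hG e, if_false, (hG e.1).X_er]
  norm_num

end Pool.Agent.Helper63.UR
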