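import Mathlib
import Pool.Agent.Helper63.UR.Defs
import Pool.Agent.Helper85.SVG.Det

/-!
Transport between `Fin n` and general index types, between real and complex matrices.
-/

namespace Pool.Agent.Helper63.UR

open Matrix Finset Filter Topology Pool.Agent.Helper5.GKK
open scoped ComplexOrder

variable {ι : Type*} [Fintype ι] [DecidableEq ι] {n : ℕ}

/-- the enumeration of a finite set -/
private def eqv (c : Fin n ≃ ι) (S : Finset (Fin n)) : S ≃ (S.map c.toEmbedding : Finset ι) where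
  toFun x := ⟨c x, Finset.mem_map_of_mem _ x.2⟩
  invFun y := ⟨c.symm y, by
    obtain ⟨x, hx, hxy⟩ := Finset.mem_map.1 y.2
    rw [← hxy]
    simpa using hx⟩
  left_inv x := by simp
  right_inv y := by simp

private theorem sub_eq (c : Fin n ≃ ι) (M : Matrix ι ι ℂ) (S : Finset (Fin n)) :
    (M.submatrix c c).submatrix (Subtype.val : S → Fin n) Subtype.val =
      (M.submatrix (Subtype.val : ↥(S.map c.toEmbedding) → ι) Subtype.val).submatrix
        (eqv c S) (eqv c S) := by
  ext x y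
  rfl

private theorem pm_tr (c : Fin n ≃ ι) (M : Matrix ι ι ℂ) (S : Finset (Fin n)) :
    pm (M.submatrix c c) S = pmg M (S.map c.toEmbedding) := by
  unfold pm pmg
  rw [sub_eq, det_submatrix_equiv_self]

private theorem sc_tr (c : Fin n ≃ ι) (M : Matrix ι ι ℂ) (K : Finset (Fin n)) (i j : Fin n) :
    sc (M.submatrix c c) K i j = scg M (K.map c.toEmbedding) (c i) (c j) := by
  unfold sc scg
  rw [sub_eq, inv_submatrix_equiv]
  congr 1
  rw [← (eqv c K).sum_comp]
  refine Finset.sum_congr rfl fun x _ => ?_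
  rw [← (eqv c K).sum_comp]
  rfl

private theorem mul_pos_iff' {r : ℝ} (hr : 0 < r) (z : ℂ) : 0 < (r : ℂ) * z ↔ 0 < z := by
  rw [Complex.pos_iff, Complex.pos_iff, Complex.re_ofReal_mul, Complex.im_ofReal_mul]
  constructor
  · rintro ⟨h1, h2⟩
    refine ⟨(pos_iff_pos_of_mul_pos h1).1 hr, ?_⟩
    rcases mul_eq_zero.1 h2.symm with h | h
    · exact absurd h hr.ne'
    · exact h.symm
  · rintro ⟨h1, h2⟩
    exact ⟨mul_pos hr h1, by rw [← h2, mul_zero]⟩

private theorem ap_iff {A : Matrix (Fin n) (Fin n) ℂ} (hP : ∀ S, 0 < pm A S) {K : Finset (Fin n)}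
    {i j : Fin n} (hi : i ∉ K) (hj : j ∉ K) (hij : i ≠ j) :
    ∃ r : ℝ, 0 < r ∧ ap A K i j = (r : ℂ) * (sc A K i j * sc A K j i) := by
  obtain ⟨r, hr⟩ : ∃ r : ℝ, pm A K = r := ⟨(pm A K).re, (Complex.ext rfl (by
    simpa using (Complex.pos_iff.mp (hP K)).2.symm))⟩
  have hr0 : 0 < r := by
    have := hP K
    rw [hr] at this
    exact_mod_cast this
  refine ⟨r * r, mul_pos hr0 hr0, ?_⟩
  rw [Pool.Agent.Helper85.SVG.ap_eq_pp A hP hi hj hij,
    Pool.Agent.Helper85.SVG.pp_eq_sc A K (hP K).ne',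
    Pool.Agent.Helper85.SVG.pp_eq_sc A K (hP K).ne', hr]
  push_cast
  ring

private theorem pm_all (c : Fin n ≃ ι) (M : Matrix ι ι ℂ) :
    (∀ S, 0 < pm (M.submatrix c c) S) ↔ ∀ S, 0 < pmg M S := by
  constructor
  · intro h S
    have h1 := h (S.map c.symm.toEmbedding)
    rw [pm_tr] at h1
    have h2 : (S.map c.symm.toEmbedding).map c.toEmbedding = S := by
      rw [Finset.map_map]
      ext x
      simp
    rwa [h2] at h1
  · intro h S
    rw [pm_tr]
    exact h _

theorem isStrictGKK_iff_strict (c : Fin n ≃ ι) (M : Matrix ι ι ℂ) :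
    IsStrictGKK (M.submatrix c c) ↔ Strict M := by
  rw [isStrictGKK_iff, pm_all]
  unfold Strict
  refine and_congr_right fun hP => ?_
  have hP' := (pm_all c M).2 hP
  constructor
  · intro h K i j hi hj hij
    have hi' : c.symm i ∉ K.map c.symm.toEmbedding := by
      simpa using hi
    have hj' : c.symm j ∉ K.map c.symm.toEmbedding := by
      simpa using hj
    have hij' : c.symm i ≠ c.symm j := fun h => hij (c.symm.injective h)
    have h1 := h (K.map c.symm.toEmbedding) (c.symm i) (c.symm j) hi' hj' hij'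
    obtain ⟨r, hr, hap⟩ := ap_iff hP' hi' hj' hij'
    rw [hap, mul_pos_iff' hr, sc_tr, sc_tr] at h1
    have h2 : (K.map c.symm.toEmbedding).map c.toEmbedding = K := by
      rw [Finset.map_map]
      ext x
      simp
    rwa [h2, Equiv.apply_symm_apply, Equiv.apply_symm_apply] at h1
  · intro h K i j hi hj hij
    obtain ⟨r, hr, hap⟩ := ap_iff hP' hi hj hij
    rw [hap, mul_pos_iff' hr, sc_tr, sc_tr]
    exact h _ _ _ (by simpa using hi) (by simpa using hj) fun h => hij (c.injective h)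

private theorem map_inv_real {κ : Type*} [Fintype κ] [DecidableEq κ] (M : Matrix κ κ ℝ) :
    (M.map (fun x : ℝ => (x : ℂ)))⁻¹ = M⁻¹.map (fun x : ℝ => (x : ℂ)) := by
  have h1 : M.map (fun x : ℝ => (x : ℂ)) = Complex.ofRealHom.mapMatrix M := rfl
  have h2 : M⁻¹.map (fun x : ℝ => (x : ℂ)) = Complex.ofRealHom.mapMatrix M⁻¹ := rfl
  rw [h1, h2, Matrix.inv_def, Matrix.inv_def, ← RingHom.map_det, ← RingHom.map_adjugate,
    Ring.inverse_eq_inv', Ring.inverse_eq_inv']
  ext i j
  simp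

private theorem pmg_map (M : Matrix ι ι ℝ) (S : Finset ι) :
    pmg (M.map (fun x : ℝ => (x : ℂ))) S = ((pmg M S : ℝ) : ℂ) := by
  unfold pmg
  have h1 : (M.map (fun x : ℝ => (x : ℂ))).submatrix (Subtype.val : S → ι) Subtype.val =
      Complex.ofRealHom.mapMatrix (M.submatrix (Subtype.val : S → ι) Subtype.val) := rfl
  rw [h1, ← RingHom.map_det]
  rfl

private theorem scg_map (M : Matrix ι ι ℝ) (K : Finset ι) (i j : ι) :
    scg (M.map (fun x : ℝ => (x : ℂ))) K i j = ((scg M K i j : ℝ) : ℂ) := by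
  unfold scg
  have h1 : (M.map (fun x : ℝ => (x : ℂ))).submatrix (Subtype.val : K → ι)
      (Subtype.val : K → ι) =
      (M.submatrix (Subtype.val : K → ι) (Subtype.val : K → ι)).map
        (fun x : ℝ => (x : ℂ)) := rfl
  rw [h1, map_inv_real]
  push_cast
  rfl

theorem strict_ofReal (M : Matrix ι ι ℝ) (hP : ∀ S, 0 < pmg M S)
    (h : ∀ (K : Finset ι) (i j : ι), i ∉ K → j ∉ K → i ≠ j → 0 < scg M K i j * scg M K j i) :
    Strict (M.map (fun x : ℝ => (x : ℂ))) := by
  refine ⟨fun S => ?_, fun K i j hi hj hij => ?_⟩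
  · rw [pmg_map]
    exact Complex.zero_lt_real.2 (hP S)
  · rw [scg_map, scg_map, ← Complex.ofReal_mul]
    exact Complex.zero_lt_real.2 (h K i j hi hj hij)

theorem isGKK_cm (c : Fin n ≃ ι) (M : Matrix ι ι ℝ) (hP : ∀ S, 0 < pmg M S)
    (h : ∀ (K : Finset ι) (i j : ι), i ∉ K → j ∉ K → i ≠ j → 0 ≤ scg M K i j * scg M K j i) :
    IsGKK (cm c M) := by
  have hP1 : ∀ S, 0 < pmg (M.map (fun x : ℝ => (x : ℂ))) S := by
    intro S
    rw [pmg_map]
    exact Complex.zero_lt_real.2 (hP S)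
  have hP' := (pm_all c _).2 hP1
  unfold cm
  rw [isGKK_iff]
  refine ⟨hP', fun K i j hi hj hij => ?_⟩
  obtain ⟨r, hr, hap⟩ := ap_iff hP' hi hj hij
  rw [hap, sc_tr, sc_tr, scg_map, scg_map, ← Complex.ofReal_mul, ← Complex.ofReal_mul]
  exact Complex.zero_le_real.2 (mul_nonneg hr.le (h _ _ _ (by simpa using hi) (by simpa using hj)
    fun h => hij (c.injective h)))

end Pool.Agent.Helper63.UR
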