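import Mathlib
import Pool.Agent.Helper63.UR.Nec1
import Pool.Agent.Helper63.UR.Nec2
import Pool.Agent.Helper63.UR.Trans1
import Pool.Agent.Helper63.NG.Basic

/-!
Limits of strict GKK matrices give relaxed solutions.
-/

namespace Pool.Agent.Helper63.UR

open Matrix Finset Filter Topology Pool.Agent.Helper5.GKK
open scoped ComplexOrder

variable {V C : Type} [Fintype V] [DecidableEq V] [Fintype C] [DecidableEq C]
variable {G : C → Gad V}

/-- the filter of approximations -/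
theorem InL.exists_filter {ι : Type*} [Fintype ι] [DecidableEq ι] {n : ℕ} {c : Fin n ≃ ι}
    {M : Matrix ι ι ℝ} (h : InL c M) : ∃ l : Filter (Matrix ι ι ℂ), l.NeBot ∧
      (∀ᶠ B in l, Strict B) ∧ ∀ i j, Tendsto (fun B : Matrix ι ι ℂ => B i j) l (𝓝 (M i j : ℂ)) := by
  have h0 : (𝓝[{B : Matrix (Fin n) (Fin n) ℂ | IsStrictGKK B}] (cm c M)).NeBot :=
    mem_closure_iff_nhdsWithin_neBot.1 h
  refine ⟨Filter.map (fun B : Matrix (Fin n) (Fin n) ℂ => B.submatrix c.symm c.symm)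
    (𝓝[{B : Matrix (Fin n) (Fin n) ℂ | IsStrictGKK B}] (cm c M)), inferInstance, ?_, fun i j => ?_⟩
  · rw [Filter.eventually_map]
    filter_upwards [self_mem_nhdsWithin] with B hB
    have h1 : (B.submatrix c.symm c.symm).submatrix c c = B := by
      ext i j
      simp
    rw [← isStrictGKK_iff_strict c, h1]
    exact hB
  · rw [Filter.tendsto_map'_iff]
    have h1 : ((M i j : ℝ) : ℂ) = cm c M (c.symm i) (c.symm j) := by
      simp [cm]
    rw [h1]
    have h2 : Continuous fun B : Matrix (Fin n) (Fin n) ℂ => B (c.symm i) (c.symm j) :=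
      continuous_apply_apply _ _
    exact (h2.tendsto _).mono_left nhdsWithin_le_nhds

/-- the row coefficients of the comparator `g` in an approximation: `s_S(g, c)` is
`B g c + ∑ y ∈ S, nco B S g y * B y c` -/
noncomputable def nco (B : Matrix (Ix V C) (Ix V C) ℂ) (S : Finset V) (g : C × Bool) (y : V) : ℂ :=
  if h : (Sum.inl (Sum.inl y) : Ix V C) ∈ hS (C := C) S then
    -∑ x : {x : Ix V C // x ∈ hS (C := C) S}, B (Sum.inl (Sum.inr g)) x.1 *
      (B.submatrix (Subtype.val : {x : Ix V C // x ∈ hS (C := C) S} → Ix V C)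
      Subtype.val)⁻¹ x ⟨Sum.inl (Sum.inl y), h⟩ else 0

private theorem nec3_mem {S : Finset V} {y : V} :
    (Sum.inl (Sum.inl y) : Ix V C) ∈ hS (C := C) S ↔ y ∈ S := by
  unfold hS
  rw [Finset.mem_map]
  constructor
  · rintro ⟨z, hz, hzy⟩
    have h1 : (Sum.inl (Sum.inl z) : Ix V C) = Sum.inl (Sum.inl y) := hzy
    rw [Sum.inl.injEq, Sum.inl.injEq] at h1
    rwa [← h1]
  · intro h
    exact ⟨y, h, rfl⟩

private theorem nec3_exists {S : Finset V} {x : Ix V C} (h : x ∈ hS (C := C) S) :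
    ∃ y ∈ S, x = Sum.inl (Sum.inl y) := by
  unfold hS at h
  obtain ⟨z, hz, hzy⟩ := Finset.mem_map.1 h
  exact ⟨z, hz, hzy.symm⟩

/-- the enumeration of `hS S` -/
private noncomputable def nec3_equiv (S : Finset V) : S ≃ (hS (C := C) S : Finset (Ix V C)) :=
  Equiv.ofBijective (fun v => ⟨Sum.inl (Sum.inl v.1), nec3_mem.2 v.2⟩) (by
    constructor
    · intro v w hvw
      have h1 := congrArg Subtype.val hvw
      simp only [Sum.inl.injEq] at h1
      exact Subtype.ext h1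
    · rintro ⟨x, hx⟩
      obtain ⟨y, hy, rfl⟩ := nec3_exists hx
      exact ⟨⟨y, hy⟩, rfl⟩)

theorem scg_nco (B : Matrix (Ix V C) (Ix V C) ℂ) (S : Finset V) (g : C × Bool) (j : Ix V C) :
    scg B (hS S) (Sum.inl (Sum.inr g)) j
      = B (Sum.inl (Sum.inr g)) j + ∑ y ∈ S, nco B S g y * B (Sum.inl (Sum.inl y)) j := by
  unfold scg
  rw [sub_eq_add_neg]
  congr 1
  rw [Finset.sum_comm, ← Finset.sum_coe_sort S, ← (nec3_equiv (C := C) S).sum_comp, ← Finset.sum_neg_distrib]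
  refine Finset.sum_congr rfl fun v _ => ?_
  have h1 : (Sum.inl (Sum.inl v.1) : Ix V C) ∈ hS (C := C) S := nec3_mem.2 v.2
  unfold nco
  rw [dif_pos h1, neg_mul, Finset.sum_mul]
  rfl

private theorem nec3_11 (x y : V) :
    gMr G (Sum.inl (Sum.inl x)) (Sum.inl (Sum.inl y)) = if x = y then 1 else 0 := by
  simp only [gMr, Matrix.map_apply, gM]
  split_ifs <;> simp

private theorem nec3_21 (g : C × Bool) (y : V) :
    gMr G (Sum.inl (Sum.inr g)) (Sum.inl (Sum.inl y)) =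
      -(((tq V C : ℚ) : ℝ) * ((G g.1).wt g.2 y : ℝ)) := by
  simp only [gMr, Matrix.map_apply, gM]
  push_cast
  ring

theorem tendsto_nco {l : Filter (Matrix (Ix V C) (Ix V C) ℂ)}
    (hl : ∀ i j, Tendsto (fun B : Matrix (Ix V C) (Ix V C) ℂ => B i j) l (𝓝 (gMr G i j : ℂ)))
    (S : Finset V) (g : C × Bool) {y : V} (hy : y ∈ S) :
    Tendsto (fun B => nco B S g y) l (𝓝 ((tq V C : ℝ) * ((G g.1).wt g.2 y : ℝ) : ℂ)) := by
  have hy' : (Sum.inl (Sum.inl y) : Ix V C) ∈ hS (C := C) S := nec3_mem.2 hy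
  have h1 : ∀ x z : {x : Ix V C // x ∈ hS (C := C) S}, ((gMr G x.1 z.1 : ℝ) : ℂ) =
      (1 : Matrix {x : Ix V C // x ∈ hS (C := C) S} {x : Ix V C // x ∈ hS (C := C) S} ℂ) x z := by
    rintro ⟨x, hx⟩ ⟨z, hz⟩
    obtain ⟨a, ha, rfl⟩ := nec3_exists hx
    obtain ⟨b, hb, rfl⟩ := nec3_exists hz
    simp only [nec3_11, Matrix.one_apply, Subtype.mk.injEq, Sum.inl.injEq]
    split_ifs <;> simp
  have h2 := fun x z => Pool.Agent.Helper63.NG.tendsto_inv (l := l)
    (M := fun B : Matrix (Ix V C) (Ix V C) ℂ =>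
      B.submatrix (Subtype.val : {x : Ix V C // x ∈ hS (C := C) S} → Ix V C) Subtype.val)
    (M0 := 1) (fun x z => by
      rw [← h1 x z]
      exact hl x.1 z.1) (by simp) x z
  rw [inv_one] at h2
  have h3 : Tendsto (fun B : Matrix (Ix V C) (Ix V C) ℂ =>
      -∑ x : {x : Ix V C // x ∈ hS (C := C) S}, B (Sum.inl (Sum.inr g)) x.1 *
      (B.submatrix (Subtype.val : {x : Ix V C // x ∈ hS (C := C) S} → Ix V C)
      Subtype.val)⁻¹ x ⟨Sum.inl (Sum.inl y), hy'⟩) l
      (𝓝 (-∑ x : {x : Ix V C // x ∈ hS (C := C) S}, (gMr G (Sum.inl (Sum.inr g)) x.1 : ℂ) *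
        (1 : Matrix {x : Ix V C // x ∈ hS (C := C) S} {x : Ix V C // x ∈ hS (C := C) S} ℂ) x
          ⟨Sum.inl (Sum.inl y), hy'⟩)) :=
    (tendsto_finsetSum _ fun x _ => (hl _ _).mul (h2 x _)).neg
  have h4 : -∑ x : {x : Ix V C // x ∈ hS (C := C) S}, (gMr G (Sum.inl (Sum.inr g)) x.1 : ℂ) *
        (1 : Matrix {x : Ix V C // x ∈ hS (C := C) S} {x : Ix V C // x ∈ hS (C := C) S} ℂ) x
          ⟨Sum.inl (Sum.inl y), hy'⟩ = ((tq V C : ℝ) * ((G g.1).wt g.2 y : ℝ) : ℂ) := by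
    rw [Finset.sum_eq_single ⟨Sum.inl (Sum.inl y), hy'⟩]
    · rw [Matrix.one_apply_eq, mul_one, nec3_21]
      push_cast
      ring
    · intro x _ hx
      rw [Matrix.one_apply_ne hx, mul_zero]
    · intro h
      exact absurd (Finset.mem_univ _) h
  rw [h4] at h3
  refine h3.congr fun B => ?_
  unfold nco
  rw [dif_pos hy']

end Pool.Agent.Helper63.UR
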