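import Mathlib
import Pool.Agent.Helper63.UR.Nec3
import Pool.Agent.Helper63.UR.Alg1

/-!
Limits of strict GKK matrices give relaxed solutions.
-/

namespace Pool.Agent.Helper63.UR

open Matrix Finset Filter Topology Pool.Agent.Helper5.GKK
open scoped ComplexOrder

variable {V C : Type} [Fintype V] [DecidableEq V] [Fintype C] [DecidableEq C]
variable {G : C → Gad V}

/-- the closeness of an approximation `B` used below -/
structure Near (G : C → Gad V) (η : ℝ) (B : Matrix (Ix V C) (Ix V C) ℂ) : Prop where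
  strict : Strict B
  np_col : ∀ (c : Option C) (y : V), NP η (B (Sum.inl (Sum.inl y)) (Sum.inr (Sum.inl c)))
  np_last : ∀ (e : C × Bool) (c : Option C), c = none ∨ c = some e.1 →
    NP η ((B (Sum.inr (Sum.inl c)) (Sum.inr (Sum.inl c)))⁻¹
      * B (Sum.inr (Sum.inl c)) (Sum.inr (Sum.inr e)))
  coe : ∀ (g : C × Bool) (S : Finset V) (y : V), y ∈ S →
    ‖nco B S g y - ((tq V C : ℝ) * ((G g.1).wt g.2 y : ℝ) : ℝ)‖ ≤ η
  neg_g : ∀ g : C × Bool, (B (Sum.inl (Sum.inr g)) (Sum.inr (Sum.inl (some g.1)))).re < 0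
  lo : ∀ (c : C) (b : Bool) (S : Finset V), ∑ y ∈ S, (G c).a b y < (G c).th b →
    (scg B (hS S) (Sum.inl (Sum.inr (c, b))) (Sum.inr (Sum.inl (some c)))).re < 0
  hi : ∀ (c : C) (b : Bool) (S : Finset V), (G c).th b < ∑ y ∈ S, (G c).a b y →
    0 < (scg B (hS S) (Sum.inl (Sum.inr (c, b))) (Sum.inr (Sum.inl (some c)))).re
  el_none : ∀ e : C × Bool, 0 < (scg B {Sum.inr (Sum.inl none)}
    (Sum.inl (Sum.inl ((G e.1).el e.2))) (Sum.inr (Sum.inr e))).re
  el_some : ∀ e : C × Bool, (scg B {Sum.inr (Sum.inl (some e.1))}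
    (Sum.inl (Sum.inl ((G e.1).el e.2))) (Sum.inr (Sum.inr e))).re < 0
  er_none : ∀ e : C × Bool, (scg B {Sum.inr (Sum.inl none)}
    (Sum.inl (Sum.inl ((G e.1).er e.2))) (Sum.inr (Sum.inr e))).re < 0
  er_some : ∀ e : C × Bool, 0 < (scg B {Sum.inr (Sum.inl (some e.1))}
    (Sum.inl (Sum.inl ((G e.1).er e.2))) (Sum.inr (Sum.inr e))).re

section

variable {ι : Type*} [DecidableEq ι]

private theorem n4_pmg_map (M : Matrix ι ι ℝ) (K : Finset ι) :
    pmg (M.map (fun x : ℝ => (x : ℂ))) K = ((pmg M K : ℝ) : ℂ) := by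
  unfold pmg
  have h1 : (M.map (fun x : ℝ => (x : ℂ))).submatrix (Subtype.val : K → ι) Subtype.val
      = Complex.ofRealHom.mapMatrix (M.submatrix (Subtype.val : K → ι) Subtype.val) := by
    ext x y; rfl
  rw [h1, ← RingHom.map_det]
  rfl

private theorem n4_scg_map (M : Matrix ι ι ℝ) {K : Finset ι} (hK : pmg M K ≠ 0) (i j : ι) :
    scg (M.map (fun x : ℝ => (x : ℂ))) K i j = ((scg M K i j : ℝ) : ℂ) := by
  set N := M.submatrix (Subtype.val : K → ι) Subtype.val with hN
  have hu : IsUnit N.det := isUnit_iff_ne_zero.mpr hK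
  have h1 : (M.map (fun x : ℝ => (x : ℂ))).submatrix (Subtype.val : K → ι) Subtype.val
      = Complex.ofRealHom.mapMatrix N := by
    ext x y; rfl
  have h2 : (Complex.ofRealHom.mapMatrix N)⁻¹ = Complex.ofRealHom.mapMatrix N⁻¹ := by
    refine inv_eq_left_inv ?_
    rw [← map_mul, nonsing_inv_mul _ hu, map_one]
  unfold scg
  rw [h1, h2, ← hN]
  push_cast
  rfl

private theorem n4_scg_empty {𝕜 : Type*} [Field 𝕜] (M : Matrix ι ι 𝕜) (i j : ι) :
    scg M ∅ i j = M i j := by
  unfold scg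
  rw [Finset.univ_eq_empty, Finset.sum_empty, sub_zero]

omit [DecidableEq ι] in
private theorem n4_np_event {l : Filter (Matrix ι ι ℂ)} {η : ℝ} (hη : 0 < η)
    {f : Matrix ι ι ℂ → ℂ} {r : ℝ} (hr : 0 < r) (hf : Tendsto f l (𝓝 (r : ℂ))) :
    ∀ᶠ B in l, NP η (f B) := by
  have h1 : Tendsto (fun B => (f B).re) l (𝓝 r) := by
    have := (Complex.continuous_re.tendsto (r : ℂ)).comp hf
    rw [Complex.ofReal_re] at this
    exact this
  have h2 : Tendsto (fun B => (f B).im) l (𝓝 0) := by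
    have := (Complex.continuous_im.tendsto (r : ℂ)).comp hf
    rw [Complex.ofReal_im] at this
    exact this
  have h3 : Tendsto (fun B => |(f B).im| - η * (f B).re) l (𝓝 (|(0:ℝ)| - η * r)) :=
    h2.abs.sub (h1.const_mul η)
  have h4 : |(0:ℝ)| - η * r < 0 := by
    rw [abs_zero]
    have := mul_pos hη hr
    linarith
  filter_upwards [h1.eventually (lt_mem_nhds hr), h3.eventually (gt_mem_nhds h4)] with B e1 e2
  exact ⟨e1, by linarith⟩

end

/-- approximations are near -/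
theorem exists_near (hG : ∀ c, (G c).Ok) {n : ℕ} {e : Fin n ≃ Ix V C} (h : InL e (gMr G)) {η : ℝ}
    (hη : 0 < η) : ∃ B, Near G η B := by
  obtain ⟨l, hl, hs, ht⟩ := h.exists_filter
  have ht' : ∀ i j, Tendsto (fun B : Matrix (Ix V C) (Ix V C) ℂ => B i j) l
      (𝓝 ((gMr G).map (fun x : ℝ => (x : ℂ)) i j)) := ht
  -- limits of Schur complements
  have hsc : ∀ (K : Finset (Ix V C)) (i j : Ix V C), pmg (gMr G) K = 1 →
      Tendsto (fun B : Matrix (Ix V C) (Ix V C) ℂ => (scg B K i j).re) l (𝓝 (scg (gMr G) K i j)) := by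
    intro K i j hK
    have h0 : pmg ((gMr G).map (fun x : ℝ => (x : ℂ))) K ≠ 0 := by
      rw [n4_pmg_map, hK]
      simp
    have h1 := tendsto_scg ht' h0 i j
    rw [n4_scg_map _ (by rw [hK]; exact one_ne_zero)] at h1
    have h2 := (Complex.continuous_re.tendsto _).comp h1
    rw [Complex.ofReal_re] at h2
    exact h2
  have htpos : (0 : ℝ) < (tq V C : ℝ) := by
    have : (0 : ℚ) < tq V C := by
      unfold tq
      positivity
    exact_mod_cast this
  -- the events
  have e_col : ∀ᶠ B : Matrix (Ix V C) (Ix V C) ℂ in l, ∀ (c : Option C) (y : V),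
      NP η (B (Sum.inl (Sum.inl y)) (Sum.inr (Sum.inl c))) := by
    refine eventually_all.mpr fun c => eventually_all.mpr fun y => ?_
    have hr : 0 < gMr G (Sum.inr (Sum.inl c)) (Sum.inl (Sum.inl y)) := by
      cases c with
      | none => simp [gMr, gM]
      | some c =>
        have := (hG c).X_lo y
        have h2 : (0 : ℚ) < (G c).X y := lt_of_lt_of_le (by norm_num) this
        simp only [gMr, gM, map_apply]
        exact_mod_cast h2
    filter_upwards [hs, n4_np_event hη hr (ht (Sum.inr (Sum.inl c)) (Sum.inl (Sum.inl y)))]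
      with B e1 e2
    have h3 := e1.2 ∅ (Sum.inl (Sum.inl y)) (Sum.inr (Sum.inl c)) (by simp) (by simp) (by simp)
    rw [n4_scg_empty, n4_scg_empty] at h3
    exact np_of_mul_pos h3 e2
  have e_last : ∀ᶠ B : Matrix (Ix V C) (Ix V C) ℂ in l, ∀ (e : C × Bool) (c : Option C),
      c = none ∨ c = some e.1 → NP η ((B (Sum.inr (Sum.inl c)) (Sum.inr (Sum.inl c)))⁻¹
      * B (Sum.inr (Sum.inl c)) (Sum.inr (Sum.inr e))) := by
    refine eventually_all.mpr fun e => eventually_all.mpr fun c => ?_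
    by_cases hc : c = none ∨ c = some e.1
    swap
    · exact Eventually.of_forall fun B hB => absurd hB hc
    have hr : (0 : ℝ) < 1 := one_pos
    have h1 : gMr G (Sum.inr (Sum.inr e)) (Sum.inr (Sum.inl c)) = 1 := by
      simp only [gMr, gM, map_apply, if_pos hc]
      norm_num
    have h2 := ht (Sum.inr (Sum.inr e)) (Sum.inr (Sum.inl c))
    rw [h1] at h2
    filter_upwards [hs, n4_np_event hη hr h2] with B e1 e2 _
    have h3 := e1.2 ∅ (Sum.inr (Sum.inl c)) (Sum.inr (Sum.inr e)) (by simp) (by simp) (by simp)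
    rw [n4_scg_empty, n4_scg_empty] at h3
    have h4 : 0 < B (Sum.inr (Sum.inl c)) (Sum.inr (Sum.inl c)) := by
      have h5 := e1.1 {Sum.inr (Sum.inl c)}
      have h6 := pmg_insert B (K := ∅) (i := Sum.inr (Sum.inl c)) (by rw [pmg_empty]; exact one_ne_zero)
        (by simp)
      rw [pmg_empty, one_mul, n4_scg_empty] at h6
      rw [← h6]
      exact h5
    refine np_of_mul_pos ?_ e2
    rw [mul_assoc]
    exact mul_pos (inv_pos.mpr h4) h3
  have e_coe : ∀ᶠ B : Matrix (Ix V C) (Ix V C) ℂ in l, ∀ (g : C × Bool) (S : Finset V) (y : V), y ∈ S →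
      ‖nco B S g y - ((tq V C : ℝ) * ((G g.1).wt g.2 y : ℝ) : ℝ)‖ ≤ η := by
    refine eventually_all.mpr fun g => eventually_all.mpr fun S => eventually_all.mpr fun y => ?_
    by_cases hy : y ∈ S
    swap
    · exact Eventually.of_forall fun B hB => absurd hB hy
    have h1 := tendsto_nco (G := G) ht S g hy
    have h2 := (tendsto_iff_norm_sub_tendsto_zero.mp h1).eventually (gt_mem_nhds hη)
    filter_upwards [h2] with B hB _
    have e : (((tq V C : ℝ) * ((G g.1).wt g.2 y : ℝ) : ℝ) : ℂ)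
        = ((tq V C : ℝ) : ℂ) * (((G g.1).wt g.2 y : ℝ) : ℂ) := by push_cast; rfl
    rw [e]
    exact hB.le
  have e_neg : ∀ᶠ B : Matrix (Ix V C) (Ix V C) ℂ in l, ∀ g : C × Bool,
      (B (Sum.inl (Sum.inr g)) (Sum.inr (Sum.inl (some g.1)))).re < 0 := by
    refine eventually_all.mpr fun g => ?_
    have hr : gMr G (Sum.inr (Sum.inl (some g.1))) (Sum.inl (Sum.inr g)) < 0 := by
      have h1 := (hG g.1).th_lo g.2
      have h2 : (0 : ℝ) < ((G g.1).th g.2 : ℝ) := by
        have : (0 : ℚ) < (G g.1).th g.2 := lt_of_lt_of_le one_pos h1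
        exact_mod_cast this
      simp only [gMr, gM, map_apply, if_true]
      push_cast
      have := mul_pos htpos h2
      linarith
    have h1 := hsc ∅ (Sum.inr (Sum.inl (some g.1))) (Sum.inl (Sum.inr g)) (pmg_empty _)
    rw [n4_scg_empty] at h1
    filter_upwards [hs, h1.eventually (gt_mem_nhds hr)] with B e1 e2
    have h3 := e1.2 ∅ (Sum.inl (Sum.inr g)) (Sum.inr (Sum.inl (some g.1))) (by simp) (by simp) (by simp)
    have h4 := re_neg_of_mul_pos h3 e2
    rwa [n4_scg_empty] at h4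
  have e_lohi : ∀ᶠ B : Matrix (Ix V C) (Ix V C) ℂ in l, ∀ (c : C) (b : Bool) (S : Finset V),
      (∑ y ∈ S, (G c).a b y < (G c).th b →
        (scg B (hS S) (Sum.inl (Sum.inr (c, b))) (Sum.inr (Sum.inl (some c)))).re < 0) ∧
      ((G c).th b < ∑ y ∈ S, (G c).a b y →
        0 < (scg B (hS S) (Sum.inl (Sum.inr (c, b))) (Sum.inr (Sum.inl (some c)))).re) := by
    refine eventually_all.mpr fun c => eventually_all.mpr fun b => eventually_all.mpr fun S => ?_
    have hlim := hsc (hS S) (Sum.inr (Sum.inl (some c))) (Sum.inl (Sum.inr (c, b))) (pmg_hS S)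
    rw [scg_hS hG] at hlim
    have m1 : (Sum.inl (Sum.inr (c, b)) : Ix V C) ∉ hS (C := C) S := by
      intro hm
      unfold hS at hm
      obtain ⟨x, _, hx⟩ := Finset.mem_map.mp hm
      have hx' : (Sum.inl (Sum.inl x) : Ix V C) = Sum.inl (Sum.inr (c, b)) := hx
      simp at hx'
    have m2 : (Sum.inr (Sum.inl (some c)) : Ix V C) ∉ hS (C := C) S := by
      intro hm
      unfold hS at hm
      obtain ⟨x, _, hx⟩ := Finset.mem_map.mp hm
      have hx' : (Sum.inl (Sum.inl x) : Ix V C) = Sum.inr (Sum.inl (some c)) := hx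
      simp at hx'
    rcases lt_trichotomy (∑ y ∈ S, (G c).a b y) ((G c).th b) with h1 | h1 | h1
    · have hlt : (tq V C : ℝ) * (-((G c).th b : ℝ) + ∑ y ∈ S, ((G c).a b y : ℝ)) < 0 := by
        have h2 : (∑ y ∈ S, ((G c).a b y : ℝ)) < ((G c).th b : ℝ) := by exact_mod_cast h1
        nlinarith
      filter_upwards [hs, hlim.eventually (gt_mem_nhds hlt)] with B e1 e2
      refine ⟨fun _ => ?_, fun h3 => absurd h3 (lt_asymm h1)⟩
      exact re_neg_of_mul_pos (e1.2 _ _ _ m1 m2 (by simp)) e2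
    · exact absurd h1 ((hG c).ne b S)
    · have hlt : 0 < (tq V C : ℝ) * (-((G c).th b : ℝ) + ∑ y ∈ S, ((G c).a b y : ℝ)) := by
        have h2 : ((G c).th b : ℝ) < (∑ y ∈ S, ((G c).a b y : ℝ)) := by exact_mod_cast h1
        nlinarith
      filter_upwards [hs, hlim.eventually (lt_mem_nhds hlt)] with B e1 e2
      refine ⟨fun h3 => absurd h3 (lt_asymm h1), fun _ => ?_⟩
      exact re_pos_of_mul_pos (e1.2 _ _ _ m1 m2 (by simp)) e2
  have e_fin : ∀ᶠ B : Matrix (Ix V C) (Ix V C) ℂ in l, ∀ e : C × Bool,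
      0 < (scg B {Sum.inr (Sum.inl none)}
        (Sum.inl (Sum.inl ((G e.1).el e.2))) (Sum.inr (Sum.inr e))).re ∧
      (scg B {Sum.inr (Sum.inl (some e.1))}
        (Sum.inl (Sum.inl ((G e.1).el e.2))) (Sum.inr (Sum.inr e))).re < 0 ∧
      (scg B {Sum.inr (Sum.inl none)}
        (Sum.inl (Sum.inl ((G e.1).er e.2))) (Sum.inr (Sum.inr e))).re < 0 ∧
      0 < (scg B {Sum.inr (Sum.inl (some e.1))}
        (Sum.inl (Sum.inl ((G e.1).er e.2))) (Sum.inr (Sum.inr e))).re := by
    refine eventually_all.mpr fun e => ?_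
    have l1 := hsc {Sum.inr (Sum.inl none)} (Sum.inr (Sum.inr e)) (Sum.inl (Sum.inl ((G e.1).el e.2)))
      (pmg_co none)
    have l2 := hsc {Sum.inr (Sum.inl (some e.1))} (Sum.inr (Sum.inr e))
      (Sum.inl (Sum.inl ((G e.1).el e.2))) (pmg_co (some e.1))
    have l3 := hsc {Sum.inr (Sum.inl none)} (Sum.inr (Sum.inr e)) (Sum.inl (Sum.inl ((G e.1).er e.2)))
      (pmg_co none)
    have l4 := hsc {Sum.inr (Sum.inl (some e.1))} (Sum.inr (Sum.inr e))
      (Sum.inl (Sum.inl ((G e.1).er e.2))) (pmg_co (some e.1))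
    rw [scg_none_el] at l1
    rw [scg_some_el hG] at l2
    rw [scg_none_er hG] at l3
    rw [scg_some_er hG] at l4
    filter_upwards [hs, l1.eventually (lt_mem_nhds (show (0:ℝ) < 1 by norm_num)),
      l2.eventually (gt_mem_nhds (show (-2:ℝ) < 0 by norm_num)),
      l3.eventually (gt_mem_nhds (show (-1/2:ℝ) < 0 by norm_num)),
      l4.eventually (lt_mem_nhds (show (0:ℝ) < 1/4 by norm_num))] with B e0 e1 e2 e3 e4
    exact ⟨re_pos_of_mul_pos (e0.2 _ _ _ (by simp) (by simp) (by simp)) e1,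
      re_neg_of_mul_pos (e0.2 _ _ _ (by simp) (by simp) (by simp)) e2,
      re_neg_of_mul_pos (e0.2 _ _ _ (by simp) (by simp) (by simp)) e3,
      re_pos_of_mul_pos (e0.2 _ _ _ (by simp) (by simp) (by simp)) e4⟩
  obtain ⟨B, hB⟩ := (hs.and (e_col.and (e_last.and (e_coe.and (e_neg.and
    (e_lohi.and e_fin)))))).exists
  obtain ⟨b0, b1, b2, b3, b4, b5, b6⟩ := hB
  exact ⟨B, b0, b1, b2, b3, b4, fun c b S => (b5 c b S).1, fun c b S => (b5 c b S).2,
    fun e => (b6 e).1, fun e => (b6 e).2.1, fun e => (b6 e).2.2.1, fun e => (b6 e).2.2.2⟩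

end Pool.Agent.Helper63.UR
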