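import Mathlib
import Pool.Agent.Helper63.UR.Nec4

/-!
Near matrices give relaxed solutions.
-/

namespace Pool.Agent.Helper63.UR

open Matrix Finset Filter Topology Pool.Agent.Helper5.GKK
open scoped ComplexOrder

variable {V C : Type} [Fintype V] [DecidableEq V] [Fintype C] [DecidableEq C]
variable {G : C → Gad V}

private theorem n5_scg_single {ι : Type*} [DecidableEq ι] (B : Matrix ι ι ℂ) (k i j : ι) :
    scg B {k} i j = B i j - B i k * ((B k k)⁻¹ * B k j) := by
  unfold scg
  have hk : k ∈ ({k} : Finset ι) := mem_singleton_self k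
  let k' : ({k} : Finset ι) := ⟨k, hk⟩
  have hu : ∀ x : ({k} : Finset ι), x = k' := fun x => Subtype.ext (mem_singleton.mp x.2)
  have : Subsingleton ({k} : Finset ι) := ⟨fun x y => by rw [hu x, hu y]⟩
  rw [inv_subsingleton]
  have hsum : ∀ f : ({k} : Finset ι) → ℂ, ∑ x, f x = f k' := by
    intro f
    refine Fintype.sum_eq_single k' ?_
    intro x hx
    exact absurd (hu x) hx
  rw [hsum, hsum]
  simp only [diagonal_apply_eq, submatrix_apply, Ring.inverse_eq_inv']
  ring

private theorem n5_prod {zl zr Zl Zr wn ws q : ℝ} (hq0 : 0 ≤ q) (hq1 : q < 1) (_hzl : 0 < zl)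
    (_hzr : 0 < zr) (hZl : 0 < Zl) (hZr : 0 < Zr) (hwn : 0 < wn) (hws : 0 < ws)
    (h1 : (1 - q) * (zl * wn) ≤ (1 + q) * (Zl * ws))
    (h2 : (1 - q) * (Zr * ws) ≤ (1 + q) * (zr * wn)) :
    (1 - q) ^ 2 * (zl * Zr) ≤ (1 + q) ^ 2 * (zr * Zl) := by
  have hq2 : 0 < 1 - q := by linarith
  have h3 := mul_le_mul h1 h2 (by positivity) (by positivity)
  have h4 : 0 < wn * ws := mul_pos hwn hws
  refine le_of_mul_le_mul_right ?_ h4
  calc (1 - q) ^ 2 * (zl * Zr) * (wn * ws) = (1 - q) * (zl * wn) * ((1 - q) * (Zr * ws)) := by ring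
    _ ≤ (1 + q) * (Zl * ws) * ((1 + q) * (zr * wn)) := h3
    _ = _ := by ring

private theorem n5_fin {q δ : ℝ} (hδ : 0 < δ) (hq : q ≤ 1 / 4) (hq2 : q ≤ δ / 16) :
    (1 + q) ^ 2 ≤ (1 + δ) * (1 - q) ^ 2 := by
  have h1 : (3 / 4 : ℝ) ^ 2 ≤ (1 - q) ^ 2 := pow_le_pow_left₀ (by norm_num) (by linarith) 2
  have h2 := mul_le_mul_of_nonneg_left h1 hδ.le
  nlinarith

theorem Near.rel (hG : ∀ c, (G c).Ok) {δ : ℝ} (hδ : 0 < δ) :
    ∃ η > 0, ∀ B, Near G η B → ∀ c, (G c).Rel δ
      (fun y => (B (Sum.inl (Sum.inl y)) (Sum.inr (Sum.inl none))).re) := by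
  have htq : (0 : ℚ) < tq V C := by
    unfold tq
    positivity
  have ht : (0 : ℝ) < (tq V C : ℝ) := by exact_mod_cast htq
  have ht1 : (tq V C : ℝ) ≤ 1 := by
    have h1 : tq V C ≤ 1 := by
      unfold tq
      rw [div_le_one (by positivity)]
      have h2 : (0 : ℚ) ≤ Fintype.card C := by positivity
      have h3 : (0 : ℚ) ≤ Fintype.card V := by positivity
      linarith
    exact_mod_cast h1
  set t : ℝ := (tq V C : ℝ) with htdef
  have h1δ : 0 < 1 + δ := by linarith
  set η : ℝ := t * δ / (8 * (1 + δ)) with hηdef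
  have hη : 0 < η := by positivity
  have hη' : η * (8 * (1 + δ)) = t * δ := by
    rw [hηdef]
    field_simp
  have hη1 : η ≤ 1 / 2 := by nlinarith
  have hη2 : 8 * η ≤ δ := by nlinarith
  have hη3 : 2 * η * (1 + δ) ≤ t * δ := by nlinarith
  have hη4 : 2 * η ≤ t * δ := by nlinarith
  refine ⟨η, hη, fun B hB c => ?_⟩
  have hβ : ∀ b : Bool, 0 < -(B (Sum.inl (Sum.inr (c, b))) (Sum.inr (Sum.inl (some c)))).re / t := by
    intro b
    have := hB.neg_g (c, b)
    exact div_pos (by simpa using this) ht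
  refine ⟨fun y => (B (Sum.inl (Sum.inl y)) (Sum.inr (Sum.inl (some c)))).re,
    fun b => -(B (Sum.inl (Sum.inr (c, b))) (Sum.inr (Sum.inl (some c)))).re / t,
    fun y => (hB.np_col (some c) y).1, hβ, ?_, ?_⟩
  · intro b S hS0
    -- the values
    have hexp : (scg B (hS S) (Sum.inl (Sum.inr (c, b))) (Sum.inr (Sum.inl (some c)))).re
        = (B (Sum.inl (Sum.inr (c, b))) (Sum.inr (Sum.inl (some c)))).re
          + ∑ y ∈ S, (nco B S (c, b) y * B (Sum.inl (Sum.inl y)) (Sum.inr (Sum.inl (some c)))).re := by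
      rw [scg_nco, Complex.add_re, Complex.re_sum]
    have hterm : ∀ y ∈ S, (t * ((G c).wt b y : ℝ) - 2 * η)
        * (B (Sum.inl (Sum.inl y)) (Sum.inr (Sum.inl (some c)))).re ≤
          (nco B S (c, b) y * B (Sum.inl (Sum.inl y)) (Sum.inr (Sum.inl (some c)))).re ∧
        (nco B S (c, b) y * B (Sum.inl (Sum.inl y)) (Sum.inr (Sum.inl (some c)))).re ≤
          (t * ((G c).wt b y : ℝ) + 2 * η)
            * (B (Sum.inl (Sum.inl y)) (Sum.inr (Sum.inl (some c)))).re := by
      intro y hy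
      exact (hB.np_col (some c) y).mul_close hη.le (by linarith) (hB.coe (c, b) S y hy)
    have hwt : ∀ y ∈ S, (1 : ℝ) ≤ ((G c).wt b y : ℝ) := by
      intro y hy
      rcases (hG c).supp b y with h | h
      · exact absurd h.1 (hS0 y hy)
      · exact_mod_cast h.1
    have hZ : ∀ y, 0 < (B (Sum.inl (Sum.inl y)) (Sum.inr (Sum.inl (some c)))).re :=
      fun y => (hB.np_col (some c) y).1
    constructor
    · intro hlt
      have h1 := hB.lo c b S hlt
      rw [hexp] at h1
      have h2 : ∑ y ∈ S, t * ((G c).wt b y : ℝ)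
          * (B (Sum.inl (Sum.inl y)) (Sum.inr (Sum.inl (some c)))).re ≤
          (1 + δ) * ∑ y ∈ S, (nco B S (c, b) y
            * B (Sum.inl (Sum.inl y)) (Sum.inr (Sum.inl (some c)))).re := by
        rw [mul_sum]
        refine sum_le_sum fun y hy => ?_
        have h3 := (hterm y hy).1
        have h4 : t * ((G c).wt b y : ℝ) ≤ (1 + δ) * (t * ((G c).wt b y : ℝ) - 2 * η) := by
          have h5 := mul_le_mul_of_nonneg_left (hwt y hy) (mul_pos ht hδ).le
          linarith
        calc _ ≤ (1 + δ) * (t * ((G c).wt b y : ℝ) - 2 * η)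
              * (B (Sum.inl (Sum.inl y)) (Sum.inr (Sum.inl (some c)))).re :=
              mul_le_mul_of_nonneg_right h4 (hZ y).le
          _ = (1 + δ) * ((t * ((G c).wt b y : ℝ) - 2 * η)
              * (B (Sum.inl (Sum.inl y)) (Sum.inr (Sum.inl (some c)))).re) := by ring
          _ ≤ _ := mul_le_mul_of_nonneg_left h3 h1δ.le
      have h5 : ∑ y ∈ S, t * ((G c).wt b y : ℝ)
          * (B (Sum.inl (Sum.inl y)) (Sum.inr (Sum.inl (some c)))).re =
          t * ∑ y ∈ S, ((G c).wt b y : ℝ)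
            * (B (Sum.inl (Sum.inl y)) (Sum.inr (Sum.inl (some c)))).re := by
        rw [mul_sum]
        exact sum_congr rfl fun y _ => by ring
      rw [h5] at h2
      have h6 : t * ∑ y ∈ S, ((G c).wt b y : ℝ)
            * (B (Sum.inl (Sum.inl y)) (Sum.inr (Sum.inl (some c)))).re ≤
          (1 + δ) * -(B (Sum.inl (Sum.inr (c, b))) (Sum.inr (Sum.inl (some c)))).re := by
        refine h2.trans (mul_le_mul_of_nonneg_left ?_ h1δ.le)
        linarith
      show _ ≤ (1 + δ) * (-(B (Sum.inl (Sum.inr (c, b))) (Sum.inr (Sum.inl (some c)))).re / t)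
      rw [← mul_div_assoc, le_div_iff₀ ht, mul_comm _ t]
      exact h6
    · intro hlt
      have h1 := hB.hi c b S hlt
      rw [hexp] at h1
      have h2 : ∑ y ∈ S, (nco B S (c, b) y
            * B (Sum.inl (Sum.inl y)) (Sum.inr (Sum.inl (some c)))).re ≤
          (1 + δ) * ∑ y ∈ S, t * ((G c).wt b y : ℝ)
          * (B (Sum.inl (Sum.inl y)) (Sum.inr (Sum.inl (some c)))).re := by
        rw [mul_sum]
        refine sum_le_sum fun y hy => ?_
        have h3 := (hterm y hy).2
        have h4 : t * ((G c).wt b y : ℝ) + 2 * η ≤ (1 + δ) * (t * ((G c).wt b y : ℝ)) := by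
          have h5 := mul_le_mul_of_nonneg_left (hwt y hy) (mul_pos ht hδ).le
          linarith
        calc _ ≤ _ := h3
          _ ≤ (1 + δ) * (t * ((G c).wt b y : ℝ))
              * (B (Sum.inl (Sum.inl y)) (Sum.inr (Sum.inl (some c)))).re :=
              mul_le_mul_of_nonneg_right h4 (hZ y).le
          _ = _ := by ring
      have h5 : ∑ y ∈ S, t * ((G c).wt b y : ℝ)
          * (B (Sum.inl (Sum.inl y)) (Sum.inr (Sum.inl (some c)))).re =
          t * ∑ y ∈ S, ((G c).wt b y : ℝ)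
            * (B (Sum.inl (Sum.inl y)) (Sum.inr (Sum.inl (some c)))).re := by
        rw [mul_sum]
        exact sum_congr rfl fun y _ => by ring
      rw [h5] at h2
      show -(B (Sum.inl (Sum.inr (c, b))) (Sum.inr (Sum.inl (some c)))).re / t ≤ (1 + δ) * _
      rw [div_le_iff₀ ht]
      calc _ ≤ _ := (by linarith : -(B (Sum.inl (Sum.inr (c, b))) (Sum.inr (Sum.inl (some c)))).re ≤
            (1 + δ) * (t * ∑ y ∈ S, ((G c).wt b y : ℝ)
            * (B (Sum.inl (Sum.inl y)) (Sum.inr (Sum.inl (some c)))).re))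
        _ = _ := by ring
  · intro b
    have a1 := hB.el_none (c, b)
    have a2 := hB.el_some (c, b)
    have a3 := hB.er_none (c, b)
    have a4 := hB.er_some (c, b)
    rw [n5_scg_single, Complex.sub_re] at a1 a2 a3 a4
    have wn := hB.np_last (c, b) none (Or.inl rfl)
    have ws := hB.np_last (c, b) (some c) (Or.inr rfl)
    have nl := hB.np_col none ((G c).el b)
    have nr := hB.np_col none ((G c).er b)
    have sl := hB.np_col (some c) ((G c).el b)
    have sr := hB.np_col (some c) ((G c).er b)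
    have m1 := (nl.mul_re hη.le wn).1
    have m2 := (sl.mul_re hη.le ws).2
    have m3 := (sr.mul_re hη.le ws).1
    have m4 := (nr.mul_re hη.le wn).2
    have hq : η ^ 2 ≤ 1 / 4 := by nlinarith
    have hq0 : 0 ≤ η ^ 2 := sq_nonneg η
    have key := n5_prod hq0 (by linarith) nl.1 nr.1 sl.1 sr.1 wn.1 ws.1
      (by simp only at a1 a2; linarith) (by simp only at a3 a4; linarith)
    have hq2 : η ^ 2 ≤ δ / 16 := by
      have h9 := mul_le_mul_of_nonneg_left hη1 hη.le
      rw [pow_two]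
      linarith
    have hfin : (1 + η ^ 2) ^ 2 ≤ (1 + δ) * (1 - η ^ 2) ^ 2 := n5_fin hδ hq hq2
    have hpos : 0 < (1 - η ^ 2) ^ 2 := by
      have : 0 < 1 - η ^ 2 := by linarith
      positivity
    refine le_of_mul_le_mul_left ?_ hpos
    refine key.trans ?_
    have := mul_le_mul_of_nonneg_right hfin (mul_pos nr.1 sl.1).le
    calc _ ≤ _ := this
      _ = _ := by ring

/-- **Limits of strict GKK matrices give relaxed solutions.** -/
theorem nec (hG : ∀ c, (G c).Ok) {n : ℕ} {e : Fin n ≃ Ix V C} (h : InL e (gMr G)) {δ : ℝ}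
    (hδ : 0 < δ) : ∃ z : V → ℝ, (∀ y, 0 < z y) ∧ ∀ c, (G c).Rel δ z := by
  obtain ⟨η, hη, hrel⟩ := Near.rel (G := G) hG hδ
  obtain ⟨B, hB⟩ := exists_near hG h hη
  exact ⟨_, fun y => (hB.np_col none y).1, fun c => hrel B hB c⟩

end Pool.Agent.Helper63.UR
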