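import Mathlib
import Pool.Agent.Helper63.UR.Alg1
import Pool.Agent.Helper63.UR.Alg2

/-!
Block lower triangular matrices with diagonally dominant `Z`-matrices as diagonal blocks.
-/

namespace Pool.Agent.Helper63.UR

open Matrix Finset

variable {ι : Type*} [Fintype ι] [DecidableEq ι] {p : ι → ℕ} {M : Matrix ι ι ℝ}

/-- the row of `i` against a vector which vanishes on the lower blocks -/
private theorem sum_block15 (h : LBM p M) {w : ι → ℝ} (i : ι) (hw : ∀ x, p x < p i → w x = 0) :
    ∑ x, M i x * w x =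
      w i + ∑ x ∈ univ.filter (fun x => x ≠ i ∧ p x = p i), M i x * w x := by
  have hi : i ∉ univ.filter (fun x => x ≠ i ∧ p x = p i) := by simp
  rw [← Finset.sum_subset (Finset.subset_univ (insert i (univ.filter fun x => x ≠ i ∧ p x = p i))),
    Finset.sum_insert hi, h.diag, one_mul]
  intro x _ hx
  rw [Finset.mem_insert, not_or, Finset.mem_filter] at hx
  have hx2 : p x ≠ p i := fun h' => hx.2 ⟨Finset.mem_univ _, hx.1, h'⟩
  rcases lt_or_gt_of_ne hx2 with h' | h'
  · rw [hw x h', mul_zero]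
  · rw [h.low i x h', zero_mul]

/-- maximum principle in one block -/
private theorem block_max15 (h : LBM p M) {K : Finset ι} {w : ι → ℝ} {n : ℕ} {c : ℝ} (hc : 0 ≤ c)
    (hlow : ∀ x, p x < n → w x = 0) (hK : ∀ k ∈ K, ∑ x, M k x * w x = 0)
    (hout : ∀ x, p x = n → x ∉ K → w x ≤ c) : ∀ x, p x = n → w x ≤ c := by
  by_contra hcon
  push Not at hcon
  obtain ⟨x0, hx0, hx0c⟩ := hcon
  obtain ⟨k, hk, hmax⟩ := Finset.exists_max_image (univ.filter fun x => p x = n) w
    ⟨x0, Finset.mem_filter.2 ⟨Finset.mem_univ _, hx0⟩⟩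
  rw [Finset.mem_filter] at hk
  have hwk : c < w k := lt_of_lt_of_le hx0c (hmax x0 (Finset.mem_filter.2 ⟨Finset.mem_univ _, hx0⟩))
  have hkK : k ∈ K := by
    by_contra hn
    have := hout k hk.2 hn
    linarith
  have h1 := hK k hkK
  rw [sum_block15 h k (by rw [hk.2]; exact hlow)] at h1
  have h2 : ∑ x ∈ univ.filter (fun x => x ≠ k ∧ p x = p k), -(M k x) * w x ≤
      ∑ x ∈ univ.filter (fun x => x ≠ k ∧ p x = p k), -(M k x) * w k := by
    refine Finset.sum_le_sum fun x hx => ?_
    rw [Finset.mem_filter] at hx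
    have h3 := h.off k x hx.2.2.symm (Ne.symm hx.2.1)
    exact mul_le_mul_of_nonneg_left
      (hmax x (Finset.mem_filter.2 ⟨Finset.mem_univ _, hx.2.2.trans hk.2⟩)) (by linarith)
  rw [← Finset.sum_mul] at h2
  have h4 := h.row k
  have h5 : ∑ x ∈ univ.filter (fun x => x ≠ k ∧ p x = p k), -(M k x) * w x = w k := by
    have : ∑ x ∈ univ.filter (fun x => x ≠ k ∧ p x = p k), -(M k x) * w x =
        -∑ x ∈ univ.filter (fun x => x ≠ k ∧ p x = p k), M k x * w x := by
      rw [← Finset.sum_neg_distrib]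
      exact Finset.sum_congr rfl fun x _ => by ring
    rw [this]
    linarith
  rw [h5] at h2
  nlinarith

/-- the certificate vanishes on the lower blocks -/
private theorem cert_low15 (h : LBM p M) {K : Finset ι} {j : ι} {w : ι → ℝ}
    (h0 : ∀ x, x ∉ insert j K → w x = 0) (hK : ∀ k ∈ K, ∑ x, M k x * w x = 0) :
    ∀ n, n < p j → ∀ x, p x = n → w x = 0 := by
  intro n
  induction n using Nat.strong_induction_on with
  | _ n ih =>
    intro hn
    have hlow : ∀ x, p x < n → w x = 0 := fun x hx => ih (p x) hx (by omega) x rfl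
    have hout : ∀ x, p x = n → x ∉ K → w x = 0 := by
      intro x hx hxK
      refine h0 x ?_
      rw [Finset.mem_insert, not_or]
      refine ⟨?_, hxK⟩
      rintro rfl
      omega
    have h1 := block_max15 h (w := w) (n := n) le_rfl hlow hK (fun x hx hxK => (hout x hx hxK).le)
    have h2 := block_max15 h (w := fun x => -w x) (n := n) (K := K) le_rfl
      (fun x hx => by rw [hlow x hx, neg_zero])
      (fun k hk => by
        have := hK k hk
        calc ∑ x, M k x * -w x = -∑ x, M k x * w x := by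
              rw [← Finset.sum_neg_distrib]
              exact Finset.sum_congr rfl fun x _ => by ring
          _ = 0 := by rw [this, neg_zero])
      (fun x hx hxK => by rw [hout x hx hxK, neg_zero])
    intro x hx
    have h3 := h1 x hx
    have h4 := h2 x hx
    linarith

/-- the certificate on the block of `j` -/
private theorem cert_blk15 (h : LBM p M) {K : Finset ι} {j : ι} {w : ι → ℝ} (hwj : w j = 1)
    (h0 : ∀ x, x ∉ insert j K → w x = 0) (hK : ∀ k ∈ K, ∑ x, M k x * w x = 0) :
    ∀ x, p x = p j → 0 ≤ w x ∧ w x ≤ 1 := by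
  have hlow : ∀ x, p x < p j → w x = 0 := fun x hx => cert_low15 h h0 hK (p x) hx x rfl
  have hout : ∀ x, x ∉ K → 0 ≤ w x ∧ w x ≤ 1 := by
    intro x hxK
    by_cases hx : x = j
    · rw [hx, hwj]
      exact ⟨zero_le_one, le_rfl⟩
    · rw [h0 x (by rw [Finset.mem_insert, not_or]; exact ⟨hx, hxK⟩)]
      exact ⟨le_rfl, zero_le_one⟩
  have h1 := block_max15 h (w := w) (n := p j) zero_le_one hlow hK
    (fun x _ hxK => (hout x hxK).2)
  have h2 := block_max15 h (w := fun x => -w x) (n := p j) (K := K) le_rfl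
      (fun x hx => by rw [hlow x hx, neg_zero])
      (fun k hk => by
        have := hK k hk
        calc ∑ x, M k x * -w x = -∑ x, M k x * w x := by
              rw [← Finset.sum_neg_distrib]
              exact Finset.sum_congr rfl fun x _ => by ring
          _ = 0 := by rw [this, neg_zero])
      (fun x _ hxK => by
        have := (hout x hxK).1
        linarith)
  intro x hx
  have h3 := h2 x hx
  exact ⟨by linarith, h1 x hx⟩

private theorem scg_pos15 (h : LBM p M) {K : Finset ι} (hK : pmg M K ≠ 0) {i : ι} (hi : i ∉ K) :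
    0 < scg M K i i := by
  obtain ⟨w, hwi, h0, hw, hs⟩ := exists_cert M hK hi
  have hlow : ∀ x, p x < p i → w x = 0 := fun x hx => cert_low15 h h0 hw (p x) hx x rfl
  have hblk := cert_blk15 h hwi h0 hw
  rw [hs i, sum_block15 h i hlow, hwi]
  have h1 : ∑ x ∈ univ.filter (fun x => x ≠ i ∧ p x = p i), M i x ≤
      ∑ x ∈ univ.filter (fun x => x ≠ i ∧ p x = p i), M i x * w x := by
    refine Finset.sum_le_sum fun x hx => ?_
    rw [Finset.mem_filter] at hx
    have h3 := h.off i x hx.2.2.symm (Ne.symm hx.2.1)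
    have h4 := hblk x hx.2.2
    nlinarith
  have h2 := h.row i
  rw [Finset.sum_neg_distrib] at h2
  linarith

theorem LBM.pmg_pos (h : LBM p M) (S : Finset ι) : 0 < pmg M S := by
  induction S using Finset.induction_on with
  | empty =>
    rw [pmg_empty]
    exact one_pos
  | insert i K hi ih =>
    rw [pmg_insert M ih.ne' hi]
    exact mul_pos ih (scg_pos15 h ih.ne' hi)

theorem LBM.scg_le (h : LBM p M) {K : Finset ι} {i j : ι} (hi : i ∉ K) (hj : j ∉ K) (hij : i ≠ j)
    (hp : p i = p j) : scg M K i j ≤ M i j := by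
  obtain ⟨w, hwj, h0, hw, hs⟩ := exists_cert M (h.pmg_pos K).ne' hj
  have hlow : ∀ x, p x < p i → w x = 0 := fun x hx => cert_low15 h h0 hw (p x) (by omega) x rfl
  have hblk := cert_blk15 h hwj h0 hw
  have hwi : w i = 0 := h0 i (by rw [Finset.mem_insert, not_or]; exact ⟨hij, hi⟩)
  rw [hs i, sum_block15 h i hlow, hwi, zero_add]
  have hjm : j ∈ univ.filter (fun x => x ≠ i ∧ p x = p i) :=
    Finset.mem_filter.2 ⟨Finset.mem_univ _, hij.symm, hp.symm⟩
  rw [← Finset.add_sum_erase _ _ hjm, hwj, mul_one]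
  have h1 : ∑ x ∈ (univ.filter (fun x => x ≠ i ∧ p x = p i)).erase j, M i x * w x ≤ 0 := by
    refine Finset.sum_nonpos fun x hx => ?_
    rw [Finset.mem_erase, Finset.mem_filter] at hx
    have h3 := h.off i x hx.2.2.2.symm (Ne.symm hx.2.2.1)
    have h4 := hblk x (hx.2.2.2.trans hp)
    nlinarith
  linarith

theorem LBM.scg_low (h : LBM p M) {K : Finset ι} {i j : ι} (hi : i ∉ K) (hj : j ∉ K)
    (hp : p i < p j) : scg M K i j = 0 := by
  obtain ⟨w, hwj, h0, hw, hs⟩ := exists_cert M (h.pmg_pos K).ne' hj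
  rw [hs i]
  refine Finset.sum_eq_zero fun x _ => ?_
  rcases lt_or_ge (p i) (p x) with h1 | h1
  · rw [h.low i x h1, zero_mul]
  · rw [cert_low15 h h0 hw (p x) (by omega) x rfl, mul_zero]

end Pool.Agent.Helper63.UR
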