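import Mathlib
import Pool.Agent.Helper63.UR.Lower
import Pool.Agent.Helper63.UR.Trans1

/-!
Block triangular matrices are GKK matrices.
-/

namespace Pool.Agent.Helper63.UR

open Matrix Finset Filter Topology Pool.Agent.Helper5.GKK
open scoped ComplexOrder

variable {ι : Type*} [Fintype ι] [DecidableEq ι] {n : ℕ} {p : ι → ℕ} {A B : Matrix ι ι ℝ}

theorem LBM.isGKK (c : Fin n ≃ ι) (hA : LBM p A) : IsGKK (cm c A) := by
  refine isGKK_cm c A hA.pmg_pos (fun K i j hi hj hij => ?_)
  rcases lt_trichotomy (p i) (p j) with h | h | h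
  · rw [hA.scg_low hi hj h, zero_mul]
  · exact mul_nonneg_of_nonpos_of_nonpos
      ((hA.scg_le hi hj hij h).trans (hA.off i j h hij))
      ((hA.scg_le hj hi hij.symm h.symm).trans (hA.off j i h.symm hij.symm))
  · rw [hA.scg_low hj hi h, mul_zero]

end Pool.Agent.Helper63.UR
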