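import Mathlib
import Pool.Agent.Helper63.UR.Lower
import Pool.Agent.Helper63.UR.Trans1
import Pool.Agent.Helper63.UR.Trans2
import Pool.Agent.Helper63.UR.Alg3

/-!
Matrices with an opposite are limits of strict GKK matrices: strict diagonal blocks.
-/

namespace Pool.Agent.Helper63.UR

open Matrix Finset Filter Topology Pool.Agent.Helper5.GKK
open scoped ComplexOrder

variable {ι : Type*} [Fintype ι] [DecidableEq ι] {n : ℕ} {p : ι → ℕ} {A B : Matrix ι ι ℝ}

/-- the perturbed matrix -/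
private noncomputable def pM31 (p : ι → ℕ) (A B : Matrix ι ι ℝ) (e : ℝ) : Matrix ι ι ℝ :=
  Matrix.of fun i j => A i j + if p i < p j then e ^ (p j - p i) * B j i else 0

omit [Fintype ι] [DecidableEq ι] in
private theorem tendsto_pM31 (i j : ι) :
    Tendsto (fun e => pM31 p A B e i j) (𝓝[>] (0 : ℝ)) (𝓝 (A i j)) := by
  have h0 : Tendsto (fun e : ℝ => e) (𝓝[>] (0 : ℝ)) (𝓝 0) := tendsto_nhdsWithin_of_tendsto_nhds tendsto_id
  by_cases h : p i < p j
  · have e1 : (fun e => pM31 p A B e i j) = fun e : ℝ => A i j + e ^ (p j - p i) * B j i := by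
      funext e
      simp only [pM31, Matrix.of_apply, if_pos h]
    rw [e1]
    have h1 := ((h0.pow (p j - p i)).mul_const (B j i)).const_add (A i j)
    rw [zero_pow (Nat.sub_ne_zero_of_lt h), zero_mul, add_zero] at h1
    exact h1
  · have e1 : (fun e => pM31 p A B e i j) = fun _ : ℝ => A i j := by
      funext e
      simp only [pM31, Matrix.of_apply, if_neg h, add_zero]
    rw [e1]
    exact tendsto_const_nhds

/-- the scaled matrix -/
private noncomputable def pN31 (p : ι → ℕ) (A B : Matrix ι ι ℝ) (e : ℝ) : Matrix ι ι ℝ :=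
  Matrix.of fun i j => ((e ^ p i)⁻¹)⁻¹ * pM31 p A B e i j * (e ^ p j)⁻¹

private theorem tendsto_pN31 (hA : LBM p A) (hB : LBM p B)
    (hAB : ∀ i j, p i = p j → A i j = B j i) (i j : ι) :
    Tendsto (fun e => pN31 p A B e i j) (𝓝[>] (0 : ℝ)) (𝓝 (Bᵀ i j)) := by
  have h0 : Tendsto (fun e : ℝ => e) (𝓝[>] (0 : ℝ)) (𝓝 0) := tendsto_nhdsWithin_of_tendsto_nhds tendsto_id
  have hpos : ∀ᶠ e : ℝ in 𝓝[>] (0 : ℝ), 0 < e := self_mem_nhdsWithin
  rw [Matrix.transpose_apply]
  rcases lt_trichotomy (p i) (p j) with h | h | h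
  · refine tendsto_const_nhds.congr' ?_
    filter_upwards [hpos] with e he
    have hi : e ^ p i ≠ 0 := (pow_pos he _).ne'
    have hj : e ^ p j ≠ 0 := (pow_pos he _).ne'
    have hd : e ^ (p j - p i) ≠ 0 := (pow_pos he _).ne'
    have hsplit : e ^ p j = e ^ (p j - p i) * e ^ p i := by
      rw [← pow_add, Nat.sub_add_cancel h.le]
    simp only [pN31, pM31, Matrix.of_apply, if_pos h, hA.low i j h, zero_add, inv_inv]
    rw [hsplit]
    field_simp
  · refine tendsto_const_nhds.congr' ?_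
    filter_upwards [hpos] with e he
    have hi : e ^ p i ≠ 0 := (pow_pos he _).ne'
    simp only [pN31, pM31, Matrix.of_apply, h, lt_irrefl, if_false, add_zero, inv_inv]
    rw [← h, hAB i j h]
    field_simp
  · have h1 : Tendsto (fun e : ℝ => e ^ (p i - p j) * A i j) (𝓝[>] (0 : ℝ)) (𝓝 (B j i)) := by
      have h2 := (h0.pow (p i - p j)).mul_const (A i j)
      rw [zero_pow (Nat.sub_ne_zero_of_lt h), zero_mul] at h2
      rw [hB.low j i h]
      exact h2
    refine h1.congr' ?_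
    filter_upwards [hpos] with e he
    have hj : e ^ p j ≠ 0 := (pow_pos he _).ne'
    have hsplit : e ^ p i = e ^ (p i - p j) * e ^ p j := by
      rw [← pow_add, Nat.sub_add_cancel h.le]
    simp only [pN31, pM31, Matrix.of_apply, if_neg (not_lt.2 h.le), add_zero, inv_inv]
    rw [hsplit]
    field_simp

/-- `A + ∑ e ^ (q - p) U_pq` with `U = Bᵀ` is strict for small `e > 0`. -/
theorem opp_strict (c : Fin n ≃ ι) (hA : LBM p A) (hB : LBM p B)
    (hAB : ∀ i j, p i = p j → A i j = B j i) (hneg : ∀ i j, p i = p j → i ≠ j → A i j < 0)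
    (hs : ∀ (K : Finset ι) (i j : ι), i ∉ K → j ∉ K → p i < p j → 0 < scg A K j i * scg B K j i) :
    InL c A := by
  have hpos : ∀ᶠ e : ℝ in 𝓝[>] (0 : ℝ), 0 < e := self_mem_nhdsWithin
  have hpm : ∀ S : Finset ι, ∀ᶠ e in 𝓝[>] (0 : ℝ), 0 < pmg (pM31 p A B e) S := fun S =>
    (tendsto_pmg (fun i j => tendsto_pM31 i j) S).eventually (lt_mem_nhds (hA.pmg_pos S))
  have hMs : ∀ (K : Finset ι) (i j : ι),
      Tendsto (fun e => scg (pM31 p A B e) K i j) (𝓝[>] (0 : ℝ)) (𝓝 (scg A K i j)) := fun K i j =>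
    tendsto_scg (fun i j => tendsto_pM31 i j) (hA.pmg_pos K).ne' i j
  have hNs : ∀ (K : Finset ι) (i j : ι),
      Tendsto (fun e => scg (pN31 p A B e) K i j) (𝓝[>] (0 : ℝ)) (𝓝 (scg B K j i)) := by
    intro K i j
    have h1 := tendsto_scg (l := 𝓝[>] (0 : ℝ)) (M := pN31 p A B) (M0 := Bᵀ) (K := K)
      (fun i j => tendsto_pN31 hA hB hAB i j) (by rw [pmg_transpose]; exact (hB.pmg_pos K).ne') i j
    rwa [scg_transpose] at h1
  -- the pairs from different blocks
  have hlt : ∀ (K : Finset ι) (i j : ι), i ∉ K → j ∉ K → p i < p j →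
      ∀ᶠ e in 𝓝[>] (0 : ℝ), 0 < scg (pM31 p A B e) K i j * scg (pM31 p A B e) K j i := by
    intro K i j hi hj hp
    have h1 := ((hMs K j i).mul (hNs K i j)).eventually (lt_mem_nhds (hs K i j hi hj hp))
    filter_upwards [h1, hpos, hpm K] with e h2 he hK
    have hdi : 0 < e ^ p i := pow_pos he _
    have hdj : 0 < e ^ p j := pow_pos he _
    have h3 : scg (pN31 p A B e) K i j = ((e ^ p i)⁻¹)⁻¹ * scg (pM31 p A B e) K i j * (e ^ p j)⁻¹ :=
      scg_scale (pM31 p A B e) (d := fun i => (e ^ p i)⁻¹) (fun i => inv_ne_zero (pow_pos he _).ne') hK.ne' hj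
    rw [h3, inv_inv] at h2
    have h4 : scg (pM31 p A B e) K j i * (e ^ p i * scg (pM31 p A B e) K i j * (e ^ p j)⁻¹) =
        e ^ p i * (e ^ p j)⁻¹ * (scg (pM31 p A B e) K i j * scg (pM31 p A B e) K j i) := by ring
    rw [h4] at h2
    exact (pos_iff_pos_of_mul_pos h2).1 (mul_pos hdi (inv_pos.2 hdj))
  have hall : ∀ (K : Finset ι) (i j : ι), i ∉ K → j ∉ K → i ≠ j →
      ∀ᶠ e in 𝓝[>] (0 : ℝ), 0 < scg (pM31 p A B e) K i j * scg (pM31 p A B e) K j i := by
    intro K i j hi hj hij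
    rcases lt_trichotomy (p i) (p j) with h | h | h
    · exact hlt K i j hi hj h
    · have h1 : scg A K i j < 0 := (hA.scg_le hi hj hij h).trans_lt (hneg i j h hij)
      have h2 : scg A K j i < 0 := (hA.scg_le hj hi hij.symm h.symm).trans_lt (hneg j i h.symm hij.symm)
      exact ((hMs K i j).mul (hMs K j i)).eventually (lt_mem_nhds (mul_pos_of_neg_of_neg h1 h2))
    · filter_upwards [hlt K j i hj hi h] with e he
      rwa [mul_comm]
  refine InL.of_tendsto c (M := pM31 p A B) (fun i j => tendsto_pM31 i j) ?_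
  have e1 : ∀ᶠ e in 𝓝[>] (0 : ℝ), ∀ S : Finset ι, 0 < pmg (pM31 p A B e) S := eventually_all.2 hpm
  have e2 : ∀ᶠ e in 𝓝[>] (0 : ℝ), ∀ (K : Finset ι) (i j : ι), i ∉ K → j ∉ K → i ≠ j →
      0 < scg (pM31 p A B e) K i j * scg (pM31 p A B e) K j i := by
    refine eventually_all.2 fun K => eventually_all.2 fun i => eventually_all.2 fun j => ?_
    by_cases h : i ∉ K ∧ j ∉ K ∧ i ≠ j
    · filter_upwards [hall K i j h.1 h.2.1 h.2.2] with e he _ _ _ using he
    · exact Eventually.of_forall fun e h1 h2 h3 => absurd ⟨h1, h2, h3⟩ h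
  filter_upwards [e1, e2] with e h1 h2
  exact subset_closure ((isStrictGKK_iff_strict c _).2 (strict_ofReal _ h1 h2))

end Pool.Agent.Helper63.UR
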