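import Mathlib
import Pool.Agent.Helper63.UR.Opp2

/-!
Matrices with an opposite are limits of strict GKK matrices.
-/

namespace Pool.Agent.Helper63.UR

open Matrix Finset Filter Topology Pool.Agent.Helper5.GKK
open scoped ComplexOrder

variable {ι : Type*} [Fintype ι] [DecidableEq ι] {n : ℕ} {p : ι → ℕ} {A B : Matrix ι ι ℝ}

/-- the perturbed matrix: `k` is subtracted from the off-diagonal entries of the diagonal blocks -/
private noncomputable def pert (p : ι → ℕ) (A : Matrix ι ι ℝ) (k : ℝ) : Matrix ι ι ℝ :=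
  Matrix.of fun i j => A i j - (if i ≠ j ∧ p i = p j then k else 0)

private theorem pert_apply (k : ℝ) (i j : ι) :
    pert p A k i j = A i j - (if i ≠ j ∧ p i = p j then k else 0) := rfl

private theorem tendsto_pert (i j : ι) :
    Tendsto (fun k => pert p A k i j) (𝓝[>] 0) (𝓝 (A i j)) := by
  have h : Tendsto (fun k : ℝ => pert p A k i j) (𝓝 0) (𝓝 (A i j)) := by
    simp only [pert_apply]
    by_cases hc : i ≠ j ∧ p i = p j
    · simp only [if_pos hc]
      have : Tendsto (fun k : ℝ => A i j - k) (𝓝 0) (𝓝 (A i j - 0)) :=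
        tendsto_const_nhds.sub tendsto_id
      rwa [sub_zero] at this
    · simp only [if_neg hc, sub_zero]
      exact tendsto_const_nhds
  exact h.mono_left nhdsWithin_le_nhds

private theorem pert_lbm (hA : LBM p A) : ∀ᶠ k in 𝓝[>] (0 : ℝ), LBM p (pert p A k) := by
  have h1 : ∀ᶠ k in 𝓝[>] (0 : ℝ), ∀ i : ι,
      ∑ j ∈ univ.filter (fun j => j ≠ i ∧ p j = p i), -(pert p A k i j) < 1 := by
    refine eventually_all.2 fun i => ?_
    have h2 : Tendsto (fun k => ∑ j ∈ univ.filter (fun j => j ≠ i ∧ p j = p i), -(pert p A k i j))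
        (𝓝[>] 0) (𝓝 (∑ j ∈ univ.filter (fun j => j ≠ i ∧ p j = p i), -(A i j))) :=
      tendsto_finsetSum _ fun j _ => (tendsto_pert i j).neg
    exact h2.eventually_lt_const (hA.row i)
  have h2 : ∀ᶠ k in 𝓝[>] (0 : ℝ), 0 < k := eventually_mem_nhdsWithin
  filter_upwards [h1, h2] with k hk hk0
  refine ⟨fun i => ?_, fun i j hij => ?_, fun i j hij hne => ?_, hk⟩
  · rw [pert_apply, if_neg (fun h => h.1 rfl), sub_zero, hA.diag]
  · rw [pert_apply, if_neg (fun h => hij.ne h.2), sub_zero, hA.low i j hij]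
  · rw [pert_apply, if_pos ⟨hne, hij⟩]
    linarith [hA.off i j hij hne]

/-- the diagonal blocks may have zeros -/
theorem opp (c : Fin n ≃ ι) (hA : LBM p A) (hB : LBM p B)
    (hAB : ∀ i j, p i = p j → A i j = B j i)
    (hs : ∀ (K : Finset ι) (i j : ι), i ∉ K → j ∉ K → p i < p j → 0 < scg A K j i * scg B K j i) :
    InL c A := by
  refine InL.of_tendsto (l := 𝓝[>] (0 : ℝ)) c (M := fun k => pert p A k) tendsto_pert ?_
  have h3 : ∀ᶠ k in 𝓝[>] (0 : ℝ), ∀ (K : Finset ι) (i j : ι), i ∉ K → j ∉ K → p i < p j →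
      0 < scg (pert p A k) K j i * scg (pert p B k) K j i := by
    refine eventually_all.2 fun K => eventually_all.2 fun i => eventually_all.2 fun j => ?_
    by_cases hc : i ∉ K ∧ j ∉ K ∧ p i < p j
    · have t1 := tendsto_scg (M := fun k => pert p A k) (tendsto_pert (p := p) (A := A))
        (K := K) (hA.pmg_pos K).ne' j i
      have t2 := tendsto_scg (M := fun k => pert p B k) (tendsto_pert (p := p) (A := B))
        (K := K) (hB.pmg_pos K).ne' j i
      filter_upwards [(t1.mul t2).eventually_const_lt (hs K i j hc.1 hc.2.1 hc.2.2)] with k hk _ _ _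
      exact hk
    · refine Eventually.of_forall fun k h1 h2 h3 => absurd ⟨h1, h2, h3⟩ hc
  have h2 : ∀ᶠ k in 𝓝[>] (0 : ℝ), 0 < k := eventually_mem_nhdsWithin
  filter_upwards [pert_lbm hA, pert_lbm hB, h3, h2] with k kA kB k3 k0
  refine opp_strict c kA kB (fun i j hij => ?_) (fun i j hij hne => ?_) k3
  · rw [pert_apply, pert_apply, hAB i j hij]
    congr 1
    by_cases h : i = j
    · subst h; rfl
    · rw [if_pos ⟨h, hij⟩, if_pos ⟨fun h' => h h'.symm, hij.symm⟩]
  · rw [pert_apply, if_pos ⟨hne, hij⟩]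
    linarith [hA.off i j hij hne]

end Pool.Agent.Helper63.UR
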