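import Mathlib
import Pool.Agent.Helper63.UR.Defs

/-!
The matrix of a side is block lower triangular.
-/

namespace Pool.Agent.Helper63.UR

open Matrix Finset

variable {V C : Type} [Fintype V] [DecidableEq V] [Fintype C] [DecidableEq C]
variable {s : Side V C} {adj : C × Bool → V → Prop} {ν : ℝ}

private theorem sideA1_a (h : s.Good adj ν) (x : V) (g : C × Bool) : 0 ≤ s.a x g := by
  by_cases hg : adj g x
  · exact h.ν_pos.le.trans (h.a_adj g x hg)
  · exact (h.a_nadj g x hg).ge

private theorem sideA1_b (h : s.Good adj ν) (x : V) (g : C × Bool) : 0 ≤ s.b g x := by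
  by_cases hg : adj g x
  · exact h.ν_pos.le.trans (h.b_adj g x hg)
  · exact (h.b_nadj g x hg).ge

theorem Side.Good.lbm (h : s.Good adj ν) : LBM blk s.mat := by
  refine ⟨?_, ?_, ?_, ?_⟩
  · rintro ((x | g) | (c | e)) <;> simp [Side.mat]
  · rintro ((x | g) | (c | e)) ((x' | g') | (c' | e')) hlt <;> simp [Side.mat, blk] at hlt ⊢
  · rintro ((x | g) | (c | e)) ((x' | g') | (c' | e')) heq hne
    all_goals first
      | (exfalso; simp [blk] at heq; done)
      | skip
    · have : x ≠ x' := fun h => hne (by rw [h])
      simp [Side.mat, this]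
    · simpa [Side.mat] using sideA1_a h x g'
    · simpa [Side.mat] using sideA1_b h x' g
    · have : g ≠ g' := fun h => hne (by rw [h])
      simp [Side.mat, this]
    · have : c ≠ c' := fun h => hne (by rw [h])
      simp [Side.mat, this]
    · have : e ≠ e' := fun h => hne (by rw [h])
      simp [Side.mat, this]
  · rintro ((x | g) | (c | e))
    all_goals rw [Finset.sum_filter, Fintype.sum_sum_type, Fintype.sum_sum_type, Fintype.sum_sum_type]
    · have h1 : ∑ y : V, (if (Sum.inl (Sum.inl y) : Ix V C) ≠ Sum.inl (Sum.inl x) ∧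
          blk (Sum.inl (Sum.inl y) : Ix V C) = blk (Sum.inl (Sum.inl x) : Ix V C) then
          -(s.mat (Sum.inl (Sum.inl x)) (Sum.inl (Sum.inl y))) else 0) = 0 := by
        refine Finset.sum_eq_zero fun y _ => ?_
        by_cases hxy : x = y
        · subst hxy; simp
        · simp [Side.mat, hxy]
      have h2 := h.a_row x
      rw [h1]
      simp only [Side.mat, blk]
      simp
      linarith
    · have h1 : ∑ y : C × Bool, (if (Sum.inl (Sum.inr y) : Ix V C) ≠ Sum.inl (Sum.inr g) ∧
          blk (Sum.inl (Sum.inr y) : Ix V C) = blk (Sum.inl (Sum.inr g) : Ix V C) then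
          -(s.mat (Sum.inl (Sum.inr g)) (Sum.inl (Sum.inr y))) else 0) = 0 := by
        refine Finset.sum_eq_zero fun y _ => ?_
        by_cases hxy : g = y
        · subst hxy; simp
        · simp [Side.mat, hxy]
      have h2 := h.b_row g
      rw [h1]
      simp only [Side.mat, blk]
      simp
      linarith
    · have h1 : ∑ y : Option C, (if (Sum.inr (Sum.inl y) : Ix V C) ≠ Sum.inr (Sum.inl c) ∧
          blk (Sum.inr (Sum.inl y) : Ix V C) = blk (Sum.inr (Sum.inl c) : Ix V C) then
          -(s.mat (Sum.inr (Sum.inl c)) (Sum.inr (Sum.inl y))) else 0) = 0 := by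
        refine Finset.sum_eq_zero fun y _ => ?_
        by_cases hxy : c = y
        · subst hxy; simp
        · simp [Side.mat, hxy]
      rw [h1]
      simp [Side.mat, blk]
    · have h1 : ∑ y : C × Bool, (if (Sum.inr (Sum.inr y) : Ix V C) ≠ Sum.inr (Sum.inr e) ∧
          blk (Sum.inr (Sum.inr y) : Ix V C) = blk (Sum.inr (Sum.inr e) : Ix V C) then
          -(s.mat (Sum.inr (Sum.inr e)) (Sum.inr (Sum.inr y))) else 0) = 0 := by
        refine Finset.sum_eq_zero fun y _ => ?_
        by_cases hxy : e = y
        · subst hxy; simp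
        · simp [Side.mat, hxy]
      rw [h1]
      simp [Side.mat, blk]

end Pool.Agent.Helper63.UR
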