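import Mathlib
import Pool.Agent.Helper63.UR.SideA1
import Pool.Agent.Helper63.UR.Lower

/-!
The fixed point equations are solvable.
-/

namespace Pool.Agent.Helper63.UR

open Matrix Finset

variable {V C : Type} [Fintype V] [DecidableEq V] [Fintype C] [DecidableEq C]
variable {s : Side V C} {adj : C × Bool → V → Prop} {ν : ℝ}

theorem Side.Good.exists_cert (h : s.Good adj ν) (K : Finset (V ⊕ (C × Bool)))
    (d : V ⊕ (C × Bool)) (hd : d ∉ K) : ∃ ω, s.Cert K d ω := by
  have hK : pmg s.mat (K.map Function.Embedding.inl) ≠ 0 := (h.lbm.pmg_pos _).ne'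
  have hj : (Sum.inl d : Ix V C) ∉ K.map Function.Embedding.inl := by
    intro hc
    obtain ⟨x, hx, hxd⟩ := Finset.mem_map.1 hc
    exact hd (Sum.inl_injective hxd ▸ hx)
  obtain ⟨w, h1, h0, hw, -⟩ := Pool.Agent.Helper63.UR.exists_cert s.mat hK hj
  refine ⟨fun i => w (Sum.inl i), ⟨h1, fun k hk => ?_, fun y hy => ?_, fun g hg => ?_⟩⟩
  · refine h0 _ fun hc => hk ?_
    rcases Finset.mem_insert.1 hc with h2 | h2
    · exact Finset.mem_insert.2 (Or.inl (Sum.inl_injective h2))
    · obtain ⟨x, hx, hxd⟩ := Finset.mem_map.1 h2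
      exact Finset.mem_insert.2 (Or.inr (Sum.inl_injective hxd ▸ hx))
  · have h2 := hw (Sum.inl (Sum.inl y)) (Finset.mem_map.2 ⟨Sum.inl y, hy, rfl⟩)
    rw [Fintype.sum_sum_type, Fintype.sum_sum_type] at h2
    simp only [Side.mat, ite_mul, one_mul, zero_mul, Finset.sum_ite_eq, Finset.mem_univ, if_true,
      Finset.sum_const_zero, add_zero, neg_mul, Finset.sum_neg_distrib] at h2
    linarith
  · have h2 := hw (Sum.inl (Sum.inr g)) (Finset.mem_map.2 ⟨Sum.inr g, hg, rfl⟩)
    rw [Fintype.sum_sum_type, Fintype.sum_sum_type] at h2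
    simp only [Side.mat, ite_mul, one_mul, zero_mul, Finset.sum_ite_eq, Finset.mem_univ, if_true,
      Finset.sum_const_zero, add_zero, neg_mul, Finset.sum_neg_distrib] at h2
    linarith

end Pool.Agent.Helper63.UR
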