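import Mathlib
import Pool.Agent.Helper63.UR.SideA1
import Pool.Agent.Helper63.UR.Lower

/-!
The Schur complements of the matrix of a side.
-/

namespace Pool.Agent.Helper63.UR

open Matrix Finset

variable {V C : Type} [Fintype V] [DecidableEq V] [Fintype C] [DecidableEq C]
variable {s : Side V C} {adj : C × Bool → V → Prop} {ν : ℝ}

private lemma row_v92 (s : Side V C) (w : Ix V C → ℝ) (x : V) :
    ∑ j, s.mat (Sum.inl (Sum.inl x)) j * w j
      = w (Sum.inl (Sum.inl x)) - ∑ g, s.a x g * w (Sum.inl (Sum.inr g)) := by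
  rw [Fintype.sum_sum_type, Fintype.sum_sum_type, Fintype.sum_sum_type]
  simp only [Side.mat, ite_mul, one_mul, zero_mul, Finset.sum_ite_eq, Finset.mem_univ, if_true,
    Finset.sum_const_zero, add_zero, neg_mul, Finset.sum_neg_distrib]
  ring

private lemma row_g92 (s : Side V C) (w : Ix V C → ℝ) (g : C × Bool) :
    ∑ j, s.mat (Sum.inl (Sum.inr g)) j * w j
      = w (Sum.inl (Sum.inr g)) - ∑ y, s.b g y * w (Sum.inl (Sum.inl y)) := by
  rw [Fintype.sum_sum_type, Fintype.sum_sum_type, Fintype.sum_sum_type]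
  simp only [Side.mat, ite_mul, one_mul, zero_mul, Finset.sum_ite_eq, Finset.mem_univ, if_true,
    Finset.sum_const_zero, add_zero, neg_mul, Finset.sum_neg_distrib]
  ring

private lemma row_c92 (s : Side V C) (w : Ix V C → ℝ) (c : Option C) :
    ∑ j, s.mat (Sum.inr (Sum.inl c)) j * w j
      = (∑ y, s.PV c y * w (Sum.inl (Sum.inl y)) + ∑ g, s.PG c g * w (Sum.inl (Sum.inr g)))
        + w (Sum.inr (Sum.inl c)) := by
  rw [Fintype.sum_sum_type, Fintype.sum_sum_type, Fintype.sum_sum_type]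
  simp only [Side.mat, ite_mul, one_mul, zero_mul, Finset.sum_ite_eq, Finset.mem_univ, if_true,
    Finset.sum_const_zero, add_zero]

private lemma row_e92 (s : Side V C) (w : Ix V C → ℝ) (e : C × Bool) :
    ∑ j, s.mat (Sum.inr (Sum.inr e)) j * w j
      = (∑ y, s.QV e y * w (Sum.inl (Sum.inl y)) + ∑ g, s.QG e g * w (Sum.inl (Sum.inr g)))
        + (∑ c, s.Y e c * w (Sum.inr (Sum.inl c)) + w (Sum.inr (Sum.inr e))) := by
  rw [Fintype.sum_sum_type, Fintype.sum_sum_type, Fintype.sum_sum_type]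
  simp only [Side.mat, ite_mul, one_mul, zero_mul, Finset.sum_ite_eq, Finset.mem_univ, if_true]

/-- the values of the certificate at the gadget columns -/
private noncomputable def wc92 (s : Side V C) (K : Finset (Ix V C)) (ω : V ⊕ (C × Bool) → ℝ)
    (c : Option C) : ℝ :=
  if Sum.inr (Sum.inl c) ∈ K then
    -(∑ y, s.PV c y * ω (Sum.inl y) + ∑ g, s.PG c g * ω (Sum.inr g)) else 0

/-- the values of the certificate at the last block -/
private noncomputable def we92 (s : Side V C) (K : Finset (Ix V C)) (ω : V ⊕ (C × Bool) → ℝ)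
    (e : C × Bool) : ℝ :=
  if Sum.inr (Sum.inr e) ∈ K then
    -((∑ y, s.QV e y * ω (Sum.inl y) + ∑ g, s.QG e g * ω (Sum.inr g))
      + ∑ c, s.Y e c * wc92 s K ω c) else 0

/-- the certificate -/
private noncomputable def w92 (s : Side V C) (K : Finset (Ix V C)) (ω : V ⊕ (C × Bool) → ℝ) :
    Ix V C → ℝ
  | Sum.inl x => ω x
  | Sum.inr (Sum.inl c) => wc92 s K ω c
  | Sum.inr (Sum.inr e) => we92 s K ω e

private theorem scg_w92 (h : s.Good adj ν) {K : Finset (Ix V C)} {d : V ⊕ (C × Bool)}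
    (hd : Sum.inl d ∉ K) {ω : V ⊕ (C × Bool) → ℝ} (hω : s.Cert (lpart K) d ω) (i : Ix V C) :
    scg s.mat K i (Sum.inl d) = ∑ x, s.mat i x * w92 s K ω x := by
  refine scg_of_cert s.mat (h.lbm.pmg_pos K).ne' hd hω.one ?_ ?_ i
  · rintro (x | c | e) hx
    · refine hω.zero x fun hx' => hx ?_
      rw [Finset.mem_insert] at hx' ⊢
      rcases hx' with rfl | hx'
      · exact Or.inl rfl
      · exact Or.inr (Finset.mem_filter.1 hx').2
    · exact if_neg fun hK => hx (Finset.mem_insert_of_mem hK)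
    · exact if_neg fun hK => hx (Finset.mem_insert_of_mem hK)
  · rintro ((x | g) | c | e) hk
    · rw [row_v92]
      exact sub_eq_zero.2 (hω.hv x (Finset.mem_filter.2 ⟨Finset.mem_univ _, hk⟩))
    · rw [row_g92]
      exact sub_eq_zero.2 (hω.lt g (Finset.mem_filter.2 ⟨Finset.mem_univ _, hk⟩))
    · rw [row_c92]
      have : w92 s K ω (Sum.inr (Sum.inl c)) =
          -(∑ y, s.PV c y * ω (Sum.inl y) + ∑ g, s.PG c g * ω (Sum.inr g)) := if_pos hk
      rw [this]
      exact add_neg_cancel _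
    · rw [row_e92]
      have : w92 s K ω (Sum.inr (Sum.inr e)) =
          -((∑ y, s.QV e y * ω (Sum.inl y) + ∑ g, s.QG e g * ω (Sum.inr g))
            + ∑ c, s.Y e c * wc92 s K ω c) := if_pos hk
      rw [this, ← add_assoc]
      exact add_neg_cancel _

theorem Side.Good.scg_co (h : s.Good adj ν) {K : Finset (Ix V C)} {d : V ⊕ (C × Bool)}
    (hd : Sum.inl d ∉ K) {ω : V ⊕ (C × Bool) → ℝ} (hω : s.Cert (lpart K) d ω) {c : Option C}
    (hc : Sum.inr (Sum.inl c) ∉ K) :
    scg s.mat K (Sum.inr (Sum.inl c)) (Sum.inl d)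
      = ∑ y, s.PV c y * ω (Sum.inl y) + ∑ g, s.PG c g * ω (Sum.inr g) := by
  rw [scg_w92 h hd hω, row_c92]
  have : w92 s K ω (Sum.inr (Sum.inl c)) = 0 := if_neg hc
  rw [this, add_zero]
  rfl

theorem Side.Good.scg_ee (h : s.Good adj ν) {K : Finset (Ix V C)} {d : V ⊕ (C × Bool)}
    (hd : Sum.inl d ∉ K) {ω : V ⊕ (C × Bool) → ℝ} (hω : s.Cert (lpart K) d ω) {e : C × Bool}
    (he : Sum.inr (Sum.inr e) ∉ K) :
    scg s.mat K (Sum.inr (Sum.inr e)) (Sum.inl d)
      = ∑ y, s.evl e y (cpart K) * ω (Sum.inl y) + ∑ g, s.evg e g (cpart K) * ω (Sum.inr g) := by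
  rw [scg_w92 h hd hω, row_e92]
  have h1 : w92 s K ω (Sum.inr (Sum.inr e)) = 0 := if_neg he
  rw [h1, add_zero]
  have h2 : ∑ c, s.Y e c * w92 s K ω (Sum.inr (Sum.inl c))
      = ∑ c ∈ cpart K, -(s.Y e c * (∑ y, s.PV c y * ω (Sum.inl y)
        + ∑ g, s.PG c g * ω (Sum.inr g))) := by
    rw [cpart, Finset.sum_filter]
    refine Finset.sum_congr rfl fun c _ => ?_
    show s.Y e c * wc92 s K ω c = _
    unfold wc92
    split_ifs
    · ring
    · ring
  rw [h2]
  have h3 : ∑ y, s.evl e y (cpart K) * ω (Sum.inl y) = ∑ y, s.QV e y * ω (Sum.inl y)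
      - ∑ c ∈ cpart K, s.Y e c * ∑ y, s.PV c y * ω (Sum.inl y) := by
    simp only [Side.evl, sub_mul, Finset.sum_sub_distrib, Finset.sum_mul, Finset.mul_sum]
    rw [Finset.sum_comm]
    simp only [mul_assoc]
  have h4 : ∑ g, s.evg e g (cpart K) * ω (Sum.inr g) = ∑ g, s.QG e g * ω (Sum.inr g)
      - ∑ c ∈ cpart K, s.Y e c * ∑ g, s.PG c g * ω (Sum.inr g) := by
    simp only [Side.evg, sub_mul, Finset.sum_sub_distrib, Finset.sum_mul, Finset.mul_sum]
    rw [Finset.sum_comm]
    simp only [mul_assoc]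
  rw [h3, h4, Finset.sum_neg_distrib]
  simp only [mul_add, Finset.sum_add_distrib]
  show (∑ y, s.QV e y * ω (Sum.inl y) + ∑ g, s.QG e g * ω (Sum.inr g)) + _ = _
  ring

theorem Side.Good.scg_ec (h : s.Good adj ν) {K : Finset (Ix V C)} {c : Option C} {e : C × Bool}
    (hc : Sum.inr (Sum.inl c) ∉ K) (he : Sum.inr (Sum.inr e) ∉ K) :
    scg s.mat K (Sum.inr (Sum.inr e)) (Sum.inr (Sum.inl c)) = s.Y e c := by
  set w : Ix V C → ℝ := fun x => match x with
    | Sum.inl _ => 0
    | Sum.inr (Sum.inl c') => if c' = c then 1 else 0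
    | Sum.inr (Sum.inr e') => if Sum.inr (Sum.inr e') ∈ K then -s.Y e' c else 0 with hwdef
  have hsum : ∀ e' : C × Bool, ∑ c', s.Y e' c' * w (Sum.inr (Sum.inl c')) = s.Y e' c := by
    intro e'
    simp only [hwdef, mul_ite, mul_one, mul_zero, Finset.sum_ite_eq', Finset.mem_univ, if_true]
  have hz1 : ∀ f : V → ℝ, ∑ y, f y * w (Sum.inl (Sum.inl y)) = 0 := by
    intro f
    simp only [hwdef, mul_zero, Finset.sum_const_zero]
  have hz2 : ∀ f : C × Bool → ℝ, ∑ g, f g * w (Sum.inl (Sum.inr g)) = 0 := by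
    intro f
    simp only [hwdef, mul_zero, Finset.sum_const_zero]
  have h0 : ∀ x, w (Sum.inl x) = 0 := fun x => rfl
  have key := scg_of_cert s.mat (h.lbm.pmg_pos K).ne' (j := Sum.inr (Sum.inl c)) hc (w := w)
    (if_pos rfl) (by
      rintro (x | c' | e') hx
      · rfl
      · refine if_neg fun hcc => hx ?_
        rw [hcc]
        exact Finset.mem_insert_self _ _
      · exact if_neg fun hK => hx (Finset.mem_insert_of_mem hK)) (by
      rintro ((x | g) | c' | e') hk
      · rw [row_v92, hz2, h0 (Sum.inl x), sub_zero]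
      · rw [row_g92, hz1, h0 (Sum.inr g), sub_zero]
      · rw [row_c92, hz1, hz2, add_zero, zero_add]
        refine if_neg fun hcc => hc ?_
        rw [← hcc]
        exact hk
      · rw [row_e92, hz1, hz2, hsum, add_zero, zero_add]
        have : w (Sum.inr (Sum.inr e')) = -s.Y e' c := if_pos hk
        rw [this]
        exact add_neg_cancel _) (Sum.inr (Sum.inr e))
  rw [key, row_e92, hz1, hz2, hsum]
  have : w (Sum.inr (Sum.inr e)) = 0 := if_neg he
  rw [this, add_zero, zero_add, add_zero]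

end Pool.Agent.Helper63.UR
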