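import Mathlib
import Pool.Agent.Helper63.UR.Defs

/-!
Bounds and uniqueness for the solutions of the fixed point equations.
-/

namespace Pool.Agent.Helper63.UR

open Matrix Finset

variable {V C : Type} [Fintype V] [DecidableEq V] [Fintype C] [DecidableEq C]
variable {s : Side V C} {adj : C × Bool → V → Prop} {ν : ℝ}

private theorem Side.Good.a_nonneg' (h : s.Good adj ν) (y g) : 0 ≤ s.a y g := by
  by_cases hg : adj g y
  · exact h.ν_pos.le.trans (h.a_adj g y hg)
  · exact (h.a_nadj g y hg).ge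

private theorem Side.Good.b_nonneg' (h : s.Good adj ν) (g y) : 0 ≤ s.b g y := by
  by_cases hg : adj g y
  · exact h.ν_pos.le.trans (h.b_adj g y hg)
  · exact (h.b_nadj g y hg).ge

private theorem sum_le_half {ι : Type*} [Fintype ι] {w f : ι → ℝ} {m : ℝ} (hw : ∀ i, 0 ≤ w i)
    (hs : ∑ i, w i ≤ 1 / 2) (hf : ∀ i, f i ≤ m) (hm : 0 ≤ m) : ∑ i, w i * f i ≤ m / 2 := by
  calc ∑ i, w i * f i ≤ ∑ i, w i * m := sum_le_sum fun i _ => mul_le_mul_of_nonneg_left (hf i) (hw i)
    _ = (∑ i, w i) * m := by rw [sum_mul]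
    _ ≤ 1 / 2 * m := mul_le_mul_of_nonneg_right hs hm
    _ = m / 2 := by ring

/-- The maximum principle. -/
private theorem Side.Good.max_principle (h : s.Good adj ν) {K : Finset (V ⊕ (C × Bool))}
    {f : V ⊕ (C × Bool) → ℝ} (h0 : ∀ k, k ∉ K → f k ≤ 0)
    (hv : ∀ y, Sum.inl y ∈ K → f (Sum.inl y) ≤ ∑ g, s.a y g * f (Sum.inr g))
    (hl : ∀ g, Sum.inr g ∈ K → f (Sum.inr g) ≤ ∑ y, s.b g y * f (Sum.inl y)) (k) : f k ≤ 0 := by
  by_contra hk
  push Not at hk
  haveI : Nonempty (V ⊕ (C × Bool)) := ⟨k⟩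
  obtain ⟨m, hm⟩ := Finite.exists_max f
  have hpos : 0 < f m := hk.trans_le (hm k)
  have hmK : m ∈ K := by
    by_contra hmK
    exact absurd (h0 m hmK) (not_le.2 hpos)
  have key : f m ≤ f m / 2 := by
    rcases m with y | g
    · exact (hv y hmK).trans (sum_le_half (h.a_nonneg' y) (h.a_row y) (fun g => hm _) hpos.le)
    · exact (hl g hmK).trans (sum_le_half (h.b_nonneg' g) (h.b_row g) (fun y => hm _) hpos.le)
  linarith

theorem Side.Good.cert_nonneg (h : s.Good adj ν) {K : Finset (V ⊕ (C × Bool))}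
    {d : V ⊕ (C × Bool)} (hd : d ∉ K) {ω : V ⊕ (C × Bool) → ℝ} (hω : s.Cert K d ω) (k) : 0 ≤ ω k := by
  have := h.max_principle (K := K) (f := fun k => -ω k) ?_ ?_ ?_ k
  · simpa using this
  · intro k hk
    by_cases hkd : k = d
    · rw [hkd, hω.one]
      norm_num
    · rw [hω.zero k (by simp [hkd, hk])]
      norm_num
  · intro y hy
    simp only [mul_neg, sum_neg_distrib]
    rw [hω.hv y hy]
  · intro g hg
    simp only [mul_neg, sum_neg_distrib]
    rw [hω.lt g hg]

theorem Side.Good.cert_le_one (h : s.Good adj ν) {K : Finset (V ⊕ (C × Bool))}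
    {d : V ⊕ (C × Bool)} (hd : d ∉ K) {ω : V ⊕ (C × Bool) → ℝ} (hω : s.Cert K d ω) (k) : ω k ≤ 1 := by
  have := h.max_principle (K := K) (f := fun k => ω k - 1) ?_ ?_ ?_ k
  · linarith
  · intro k hk
    by_cases hkd : k = d
    · rw [hkd, hω.one]
      norm_num
    · rw [hω.zero k (by simp [hkd, hk])]
      norm_num
  · intro y hy
    simp only [mul_sub, mul_one, sum_sub_distrib]
    have := h.a_row y
    rw [hω.hv y hy]
    linarith
  · intro g hg
    simp only [mul_sub, mul_one, sum_sub_distrib]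
    have := h.b_row g
    rw [hω.lt g hg]
    linarith

theorem Side.Good.cert_unique (h : s.Good adj ν) {K : Finset (V ⊕ (C × Bool))}
    {d : V ⊕ (C × Bool)} (hd : d ∉ K) {ω ω' : V ⊕ (C × Bool) → ℝ} (hω : s.Cert K d ω)
    (hω' : s.Cert K d ω') : ω = ω' := by
  have key : ∀ {ω ω' : V ⊕ (C × Bool) → ℝ}, s.Cert K d ω → s.Cert K d ω' → ∀ k, ω k ≤ ω' k := by
    intro ω ω' hω hω' k
    have := h.max_principle (K := K) (f := fun k => ω k - ω' k) ?_ ?_ ?_ k
    · linarith
    · intro k hk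
      by_cases hkd : k = d
      · rw [hkd, hω.one, hω'.one]
        norm_num
      · rw [hω.zero k (by simp [hkd, hk]), hω'.zero k (by simp [hkd, hk])]
        norm_num
    · intro y hy
      simp only [mul_sub, sum_sub_distrib]
      rw [hω.hv y hy, hω'.hv y hy]
    · intro g hg
      simp only [mul_sub, sum_sub_distrib]
      rw [hω.lt g hg, hω'.lt g hg]
  funext k
  exact le_antisymm (key hω hω' k) (key hω' hω k)

end Pool.Agent.Helper63.UR
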