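import Mathlib
import Pool.Agent.Helper63.UR.SideA2

/-!
Domination.
-/

namespace Pool.Agent.Helper63.UR

open Matrix Finset

variable {V C : Type} [Fintype V] [DecidableEq V] [Fintype C] [DecidableEq C]
variable {s : Side V C} {adj : C × Bool → V → Prop} {ν : ℝ}
variable {K : Finset (V ⊕ (C × Bool))} {d : V ⊕ (C × Bool)} {ω : V ⊕ (C × Bool) → ℝ}

/-- the value of the column `c` -/
def Side.R (s : Side V C) (c : Option C) (ω : V ⊕ (C × Bool) → ℝ) : ℝ :=
  ∑ y, s.PV c y * ω (Sum.inl y) + ∑ g, s.PG c g * ω (Sum.inr g)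

/-- the value of the row `e` -/
def Side.RE (s : Side V C) (e : C × Bool) (T : Finset (Option C)) (ω : V ⊕ (C × Bool) → ℝ) : ℝ :=
  ∑ y, s.evl e y T * ω (Sum.inl y) + ∑ g, s.evg e g T * ω (Sum.inr g)

/-- a comparator which is not designated in `c` dominates -/
theorem Side.Good.R_dom (h : s.Good adj ν) (hd : d ∉ K) (hω : s.Cert K d ω) {c : Option C}
    {g : C × Bool} (hg : c ≠ some g.1) (hν : ν ^ 3 ≤ ω (Sum.inr g)) : s.R c ω < 0 := by
  have h0 := h.cert_nonneg hd hω
  have h1 := h.cert_le_one hd hω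
  have e1 : ∑ y, s.PV c y * ω (Sum.inl y) ≤ ∑ y, s.PV c y := by
    apply Finset.sum_le_sum
    intro y _
    exact mul_le_of_le_one_right (h.PV_pos c y).le (h1 _)
  have e2 : ∑ g', s.PG c g' * ω (Sum.inr g') ≤ s.PG c g * ω (Sum.inr g) := by
    rw [← Finset.add_sum_erase _ _ (Finset.mem_univ g)]
    have : ∑ g' ∈ univ.erase g, s.PG c g' * ω (Sum.inr g') ≤ 0 := by
      apply Finset.sum_nonpos
      intro g' _
      exact mul_nonpos_of_nonpos_of_nonneg (h.PG_neg c g').le (h0 _)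
    linarith
  have e3 : s.PG c g * ω (Sum.inr g) ≤ s.PG c g * ν ^ 3 :=
    mul_le_mul_of_nonpos_left hν (h.PG_neg c g).le
  have e4 := h.dom c g hg
  unfold Side.R
  linarith

/-- a comparator dominates the last block -/
theorem Side.Good.RE_dom (h : s.Good adj ν) (hd : d ∉ K) (hω : s.Cert K d ω) {e g : C × Bool}
    {T : Finset (Option C)} (hν : ν ≤ ω (Sum.inr g)) : s.RE e T ω < 0 := by
  have h0 := h.cert_nonneg hd hω
  have h1 := h.cert_le_one hd hω
  have hneg : ∀ g', s.evg e g' T < 0 := by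
    intro g'
    have h2 := h.edom e g' T
    have h3 : 0 ≤ ∑ y, |s.evl e y T| := Finset.sum_nonneg fun y _ => abs_nonneg _
    have h4 : s.evg e g' T * ν < 0 := by linarith
    by_contra hc
    push Not at hc
    have := mul_nonneg hc h.ν_pos.le
    linarith
  have e1 : ∑ y, s.evl e y T * ω (Sum.inl y) ≤ ∑ y, |s.evl e y T| := by
    apply Finset.sum_le_sum
    intro y _
    calc s.evl e y T * ω (Sum.inl y) ≤ |s.evl e y T| * ω (Sum.inl y) :=
          mul_le_mul_of_nonneg_right (le_abs_self _) (h0 _)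
      _ ≤ |s.evl e y T| := mul_le_of_le_one_right (abs_nonneg _) (h1 _)
  have e2 : ∑ g', s.evg e g' T * ω (Sum.inr g') ≤ s.evg e g T * ω (Sum.inr g) := by
    rw [← Finset.add_sum_erase _ _ (Finset.mem_univ g)]
    have : ∑ g' ∈ univ.erase g, s.evg e g' T * ω (Sum.inr g') ≤ 0 := by
      apply Finset.sum_nonpos
      intro g' _
      exact mul_nonpos_of_nonpos_of_nonneg (hneg g').le (h0 _)
    linarith
  have e3 : s.evg e g T * ω (Sum.inr g) ≤ s.evg e g T * ν :=
    mul_le_mul_of_nonpos_left hν (hneg g).le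
  have e4 := h.edom e g T
  unfold Side.RE
  linarith

/-- lower bounds along an edge -/
theorem Side.Good.cert_edge_lt (h : s.Good adj ν) (hd : d ∉ K) (hω : s.Cert K d ω) {g : C × Bool}
    {y : V} (hg : Sum.inr g ∈ K) (hgy : adj g y) : ν * ω (Sum.inl y) ≤ ω (Sum.inr g) := by
  have h0 := h.cert_nonneg hd hω
  have hb : ∀ y', 0 ≤ s.b g y' := by
    intro y'
    by_cases hadj : adj g y'
    · exact h.ν_pos.le.trans (h.b_adj g y' hadj)
    · exact (h.b_nadj g y' hadj).ge
  rw [hω.lt g hg]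
  calc ν * ω (Sum.inl y) ≤ s.b g y * ω (Sum.inl y) :=
        mul_le_mul_of_nonneg_right (h.b_adj g y hgy) (h0 _)
    _ ≤ ∑ y', s.b g y' * ω (Sum.inl y') :=
        Finset.single_le_sum (f := fun y' => s.b g y' * ω (Sum.inl y'))
          (fun y' _ => mul_nonneg (hb y') (h0 _)) (Finset.mem_univ y)

theorem Side.Good.cert_edge_hv (h : s.Good adj ν) (hd : d ∉ K) (hω : s.Cert K d ω) {g : C × Bool}
    {y : V} (hy : Sum.inl y ∈ K) (hgy : adj g y) : ν * ω (Sum.inr g) ≤ ω (Sum.inl y) := by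
  have h0 := h.cert_nonneg hd hω
  have ha : ∀ g', 0 ≤ s.a y g' := by
    intro g'
    by_cases hadj : adj g' y
    · exact h.ν_pos.le.trans (h.a_adj g' y hadj)
    · exact (h.a_nadj g' y hadj).ge
  rw [hω.hv y hy]
  calc ν * ω (Sum.inr g) ≤ s.a y g * ω (Sum.inr g) :=
        mul_le_mul_of_nonneg_right (h.a_adj g y hgy) (h0 _)
    _ ≤ ∑ g', s.a y g' * ω (Sum.inr g') :=
        Finset.single_le_sum (f := fun g' => s.a y g' * ω (Sum.inr g'))
          (fun g' _ => mul_nonneg (ha g') (h0 _)) (Finset.mem_univ g)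

end Pool.Agent.Helper63.UR
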