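import Mathlib
import Pool.Agent.Helper63.UR.SideB1

/-!
Exact values.
-/

namespace Pool.Agent.Helper63.UR

open Matrix Finset

variable {V C : Type} [Fintype V] [DecidableEq V] [Fintype C] [DecidableEq C]
variable {s : Side V C} {adj : C × Bool → V → Prop} {ν : ℝ}
variable {K : Finset (V ⊕ (C × Bool))} {d : V ⊕ (C × Bool)} {ω : V ⊕ (C × Bool) → ℝ}

private theorem sideB2_heavy (h : s.Good adj ν) {x : V} (hd : Sum.inl x ∉ K)
    (hω : s.Cert K (Sum.inl x) ω) (hK : ∀ g, Sum.inr g ∈ K → ¬ adj g x) :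
    (∀ y, ω (Sum.inl y) = if y = x then 1 else 0) ∧ ∀ g, ω (Sum.inr g) = 0 := by
  have h1 : s.Cert K (Sum.inl x) (fun k => if k = Sum.inl x then 1 else 0) := by
    refine ⟨by simp, ?_, ?_, ?_⟩
    · intro k hk
      rw [Finset.mem_insert, not_or] at hk
      exact if_neg hk.1
    · intro y hy
      have hyx : y ≠ x := fun h2 => hd (h2 ▸ hy)
      simp [hyx]
    · intro g hg
      rw [Finset.sum_eq_zero]
      · simp
      · intro y _
        by_cases hyx : y = x
        · subst hyx
          rw [h.b_nadj g y (hK g hg), zero_mul]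
        · simp [hyx]
  have h2 := h.cert_unique hd hω h1
  constructor
  · intro y
    rw [h2]
    simp
  · intro g
    rw [h2]
    simp

/-- a heavy row without comparator -/
theorem Side.Good.R_heavy (h : s.Good adj ν) {x : V} (hd : Sum.inl x ∉ K)
    (hω : s.Cert K (Sum.inl x) ω) {c : Option C} (hK : ∀ g, Sum.inr g ∈ K → ¬ adj g x) :
    s.R c ω = s.PV c x := by
  obtain ⟨h1, h2⟩ := sideB2_heavy h hd hω hK
  unfold Side.R
  simp [h1, h2]

/-- a heavy row without comparator in the last block -/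
theorem Side.Good.RE_heavy (h : s.Good adj ν) {x : V} (hd : Sum.inl x ∉ K)
    (hω : s.Cert K (Sum.inl x) ω) {e : C × Bool} {T : Finset (Option C)}
    (hK : ∀ g, Sum.inr g ∈ K → ¬ adj g x) : s.RE e T ω = s.evl e x T := by
  obtain ⟨h1, h2⟩ := sideB2_heavy h hd hω hK
  unfold Side.RE
  simp [h1, h2]

open scoped Classical in
/-- a designated comparator -/
theorem Side.Good.R_val (h : s.Good adj ν) {g : C × Bool} (hd : Sum.inr g ∉ K)
    (hω : s.Cert K (Sum.inr g) ω)
    (hK : ∀ y g', Sum.inl y ∈ K → adj g y → Sum.inr g' ∈ K → ¬ adj g' y) :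
    s.R (some g.1) ω = s.val g (univ.filter fun y => Sum.inl y ∈ K ∧ adj g y) := by
  have h1 : s.Cert K (Sum.inr g) (Sum.elim (fun y => if Sum.inl y ∈ K ∧ adj g y then s.a y g else 0)
      (fun g' => if g' = g then 1 else 0)) := by
    refine ⟨by simp, ?_, ?_, ?_⟩
    · rintro (y | g') hk
      · rw [Finset.mem_insert, not_or] at hk
        rw [Sum.elim_inl, if_neg (fun h2 => hk.2 h2.1)]
      · rw [Finset.mem_insert, not_or] at hk
        rw [Sum.elim_inr, if_neg (fun h2 => hk.1 (by rw [h2]))]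
    · intro y hy
      rw [Sum.elim_inl]
      have e1 : ∑ g', s.a y g' * Sum.elim (fun y => if Sum.inl y ∈ K ∧ adj g y then s.a y g else 0)
          (fun g' => if g' = g then (1 : ℝ) else 0) (Sum.inr g') = s.a y g := by
        simp
      rw [e1]
      by_cases hg : adj g y
      · rw [if_pos ⟨hy, hg⟩]
      · rw [if_neg (fun h2 => hg h2.2), h.a_nadj g y hg]
    · intro g' hg'
      have hne : g' ≠ g := fun h2 => hd (h2 ▸ hg')
      rw [Sum.elim_inr, if_neg hne, Finset.sum_eq_zero]
      intro y _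
      rw [Sum.elim_inl]
      by_cases hy : Sum.inl y ∈ K ∧ adj g y
      · rw [h.b_nadj g' y (hK y g' hy.1 hy.2 hg'), zero_mul]
      · rw [if_neg hy, mul_zero]
  have h2 := h.cert_unique hd hω h1
  unfold Side.R Side.val
  rw [h2]
  simp only [Sum.elim_inl, Sum.elim_inr]
  rw [Finset.sum_filter, add_comm]
  congr 1
  · simp
  · refine Finset.sum_congr rfl fun y _ => ?_
    by_cases hy : Sum.inl y ∈ K ∧ adj g y
    · rw [if_pos hy, if_pos hy, mul_comm]
    · rw [if_neg hy, if_neg hy, mul_zero]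

end Pool.Agent.Helper63.UR
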