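import Mathlib
import Pool.Agent.Helper63.UR.SideB1

/-!
Heavy rows next to a designated comparator.
-/

namespace Pool.Agent.Helper63.UR

open Matrix Finset

variable {V C : Type} [Fintype V] [DecidableEq V] [Fintype C] [DecidableEq C]
variable {s : Side V C} {adj : C × Bool → V → Prop} {ν : ℝ}
variable {K : Finset (V ⊕ (C × Bool))} {d : V ⊕ (C × Bool)} {ω : V ⊕ (C × Bool) → ℝ}

omit [DecidableEq V] [DecidableEq C] in
private theorem a_nonneg30 (h : s.Good adj ν) (y : V) (g : C × Bool) : 0 ≤ s.a y g := by
  by_cases hg : adj g y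
  · exact h.ν_pos.le.trans (h.a_adj g y hg)
  · exact (h.a_nadj g y hg).ge

omit [DecidableEq V] [DecidableEq C] in
private theorem b_nonneg30 (h : s.Good adj ν) (g : C × Bool) (y : V) : 0 ≤ s.b g y := by
  by_cases hg : adj g y
  · exact h.ν_pos.le.trans (h.b_adj g y hg)
  · exact (h.b_nadj g y hg).ge

/-- a heavy row with one designated comparator -/
theorem Side.Good.R_light (h : s.Good adj ν) {x : V} (hd : Sum.inl x ∉ K)
    (hω : s.Cert K (Sum.inl x) ω) {g : C × Bool} (hg : Sum.inr g ∈ K) (hgx : adj g x)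
    (hK : ∀ y g', (y = x ∨ Sum.inl y ∈ K) → adj g y → Sum.inr g' ∈ K → adj g' y → g' = g) :
    0 < s.R (some g.1) ω := by
  classical
  set S : Finset V := univ.filter fun y => Sum.inl y ∈ K ∧ adj g y with hS
  have hxS : x ∉ S := by
    intro hx
    rw [hS, mem_filter] at hx
    exact hd hx.2.1
  set σ : ℝ := ∑ y ∈ S, s.b g y * s.a y g with hσ
  have ha : ∀ y, s.a y g ≤ 1 / 2 := fun y =>
    (single_le_sum (f := fun g => s.a y g) (fun g _ => a_nonneg30 h y g) (mem_univ g)).trans (h.a_row y)
  have hσ4 : σ ≤ 1 / 4 := by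
    have h1 : σ ≤ ∑ y ∈ S, s.b g y * (1 / 2) :=
      sum_le_sum fun y _ => mul_le_mul_of_nonneg_left (ha y) (b_nonneg30 h g y)
    have h2 : ∑ y ∈ S, s.b g y * (1 / 2) ≤ ∑ y, s.b g y * (1 / 2) :=
      sum_le_sum_of_subset_of_nonneg (subset_univ _)
        fun y _ _ => mul_nonneg (b_nonneg30 h g y) (by norm_num)
    rw [← sum_mul, ← sum_mul] at h2
    rw [← sum_mul] at h1
    have h3 := h.b_row g
    linarith
  set w : ℝ := s.b g x / (1 - σ) with hw
  have hσ1 : (0 : ℝ) < 1 - σ := by linarith
  have hw0 : 0 ≤ w := div_nonneg (b_nonneg30 h g x) hσ1.le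
  have hweq : w = s.b g x + σ * w := by
    have h1 : w * (1 - σ) = s.b g x := by
      rw [hw]
      field_simp
    linarith
  have hw2 : w ≤ 2 * s.b g x := by
    have h1 : σ * w ≤ 1 / 4 * w := mul_le_mul_of_nonneg_right hσ4 hw0
    have h2 := b_nonneg30 h g x
    linarith
  set ω' : V ⊕ (C × Bool) → ℝ := fun k => Sum.elim
    (fun y => if y = x then 1 else if y ∈ S then s.a y g * w else 0)
    (fun g' => if g' = g then w else 0) k with hω'
  have hl : ∀ y, ω' (Sum.inl y) = if y = x then 1 else if y ∈ S then s.a y g * w else 0 := fun _ => rfl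
  have hr : ∀ g', ω' (Sum.inr g') = if g' = g then w else 0 := fun _ => rfl
  have hsum : ∀ f : V → ℝ, ∑ y, f y * ω' (Sum.inl y) = f x + ∑ y ∈ S, f y * (s.a y g * w) := by
    intro f
    have h1 : ∀ y, f y * ω' (Sum.inl y) =
        (if y = x then f y else 0) + (if y ∈ S then f y * (s.a y g * w) else 0) := by
      intro y
      rw [hl]
      by_cases hy : y = x
      · subst hy
        rw [if_pos rfl, if_pos rfl, if_neg hxS]
        ring
      · rw [if_neg hy, if_neg hy]
        split_ifs <;> ring
    rw [sum_congr rfl fun y _ => h1 y, sum_add_distrib, sum_ite_eq', if_pos (mem_univ x), sum_ite_mem,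
      univ_inter]
  have hsumg : ∀ f : C × Bool → ℝ, ∑ g', f g' * ω' (Sum.inr g') = f g * w := by
    intro f
    rw [sum_eq_single g]
    · rw [hr, if_pos rfl]
    · intro g' _ hne
      rw [hr, if_neg hne, mul_zero]
    · exact fun hne => absurd (mem_univ g) hne
  have hcert : s.Cert K (Sum.inl x) ω' := by
    refine ⟨?_, ?_, ?_, ?_⟩
    · rw [hl, if_pos rfl]
    · intro k hk
      rw [mem_insert, not_or] at hk
      rcases k with y | g'
      · rw [hl, if_neg (fun hy => hk.1 (by rw [hy])), if_neg]
        intro hy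
        rw [hS, mem_filter] at hy
        exact hk.2 hy.2.1
      · rw [hr, if_neg]
        intro hne
        rw [hne] at hk
        exact hk.2 hg
    · intro y hy
      have hyx : y ≠ x := by
        rintro rfl
        exact hd hy
      rw [hsumg (fun g' => s.a y g'), hl, if_neg hyx]
      by_cases hyg : adj g y
      · rw [if_pos]
        rw [hS, mem_filter]
        exact ⟨mem_univ _, hy, hyg⟩
      · rw [if_neg, h.a_nadj g y hyg, zero_mul]
        intro hy2
        rw [hS, mem_filter] at hy2
        exact hyg hy2.2.2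
    · intro g' hg'
      rw [hsum (fun y => s.b g' y), hr]
      by_cases hgg : g' = g
      · subst hgg
        rw [if_pos rfl]
        have h1 : ∑ y ∈ S, s.b g' y * (s.a y g' * w) = σ * w := by
          rw [hσ, sum_mul]
          exact sum_congr rfl fun y _ => by ring
        rw [h1]
        exact hweq
      · rw [if_neg hgg]
        have h1 : s.b g' x = 0 := by
          apply h.b_nadj
          intro hadj
          exact hgg (hK x g' (Or.inl rfl) hgx hg' hadj)
        have h2 : ∑ y ∈ S, s.b g' y * (s.a y g * w) = 0 := by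
          refine sum_eq_zero fun y hy => ?_
          rw [hS, mem_filter] at hy
          have h3 : s.b g' y = 0 := by
            apply h.b_nadj
            intro hadj
            exact hgg (hK y g' (Or.inr hy.2.1) hy.2.2 hg' hadj)
          rw [h3, zero_mul]
        rw [h1, h2, add_zero]
  have heq : ω = ω' := h.cert_unique hd hω hcert
  rw [heq]
  unfold Side.R
  rw [hsum (fun y => s.PV (some g.1) y), hsumg (fun g' => s.PG (some g.1) g')]
  have h1 : 0 ≤ ∑ y ∈ S, s.PV (some g.1) y * (s.a y g * w) :=
    sum_nonneg fun y _ => mul_nonneg (h.PV_pos _ _).le (mul_nonneg (a_nonneg30 h y g) hw0)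
  have h2 := h.light g x hgx
  have h3 := h.PG_neg (some g.1) g
  nlinarith [mul_le_mul_of_nonpos_left hw2 h3.le]

end Pool.Agent.Helper63.UR
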