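import Mathlib
import Pool.Agent.Helper63.UR.SideB2
import Pool.Agent.Helper63.UR.SideB3

/-!
The signs of the two sides agree.
-/

namespace Pool.Agent.Helper63.UR

open Matrix Finset

variable {V C : Type} [Fintype V] [DecidableEq V] [Fintype C] [DecidableEq C]
variable {s1 s2 : Side V C} {adj : C × Bool → V → Prop} {ν : ℝ}
variable {K : Finset (V ⊕ (C × Bool))} {d : V ⊕ (C × Bool)}

omit [DecidableEq V] [DecidableEq C] in
private theorem disj26 (h : s1.Good adj ν) {g g' : C × Bool} {y : V} (hg : adj g y)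
    (hg' : adj g' y) (hne : g' ≠ g) : (some g.1 : Option C) ≠ some g'.1 := by
  intro hc
  have hc' : g.1 = g'.1 := Option.some.inj hc
  obtain ⟨c1, b1⟩ := g
  obtain ⟨c2, b2⟩ := g'
  simp only at hc'
  subst hc'
  exact hne (by rw [h.disj _ _ _ _ hg hg'])

omit [DecidableEq V] [DecidableEq C] in
private theorem pow3_le26 (h : s1.Good adj ν) : ν ^ 3 ≤ ν := by
  have h0 := h.ν_pos
  have h1 := h.ν_le
  have h2 : ν ^ 2 ≤ 1 := pow_le_one₀ h0.le h1
  calc ν ^ 3 = ν ^ 2 * ν := by ring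
    _ ≤ 1 * ν := mul_le_mul_of_nonneg_right h2 h0.le
    _ = ν := one_mul _

omit [DecidableEq V] [DecidableEq C] in
private theorem pow3_le_sq26 (h : s1.Good adj ν) : ν ^ 3 ≤ ν * ν := by
  have h0 := h.ν_pos
  have h1 := h.ν_le
  calc ν ^ 3 = ν * ν * ν := by ring
    _ ≤ ν * ν * 1 := mul_le_mul_of_nonneg_left h1 (mul_nonneg h0.le h0.le)
    _ = ν * ν := mul_one _

/-- one side, `d = inr g`, another comparator over a common heavy row -/
private theorem neg_b26 (h : s1.Good adj ν) {g g' : C × Bool} {y : V}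
    (hd : Sum.inr g ∉ K) {ω : V ⊕ (C × Bool) → ℝ} (hω : s1.Cert K (Sum.inr g) ω)
    (hy : Sum.inl y ∈ K) (hgy : adj g y) (hg' : Sum.inr g' ∈ K) (hgy' : adj g' y) :
    s1.R (some g.1) ω < 0 := by
  have hne : g' ≠ g := by
    rintro rfl
    exact hd hg'
  have e1 := h.cert_edge_hv hd hω hy hgy
  have e2 := h.cert_edge_lt hd hω hg' hgy'
  rw [hω.one, mul_one] at e1
  have e3 : ν * ν ≤ ν * ω (Sum.inl y) := mul_le_mul_of_nonneg_left e1 h.ν_pos.le
  exact h.R_dom hd hω (disj26 h hgy hgy' hne) ((pow3_le_sq26 h).trans (e3.trans e2))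

/-- one side, `d = inl x`, a chain to another comparator -/
private theorem neg_c26 (h : s1.Good adj ν) {x : V} {g g' : C × Bool} {y : V}
    (hd : Sum.inl x ∉ K) {ω : V ⊕ (C × Bool) → ℝ} (hω : s1.Cert K (Sum.inl x) ω)
    (hg : Sum.inr g ∈ K) (hgx : adj g x)
    (hy : Sum.inl y ∈ K) (hgy : adj g y) (hg' : Sum.inr g' ∈ K) (hgy' : adj g' y)
    (hne : g' ≠ g) : s1.R (some g.1) ω < 0 := by
  have e0 := h.cert_edge_lt hd hω hg hgx
  rw [hω.one, mul_one] at e0
  have e1 := h.cert_edge_hv hd hω hy hgy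
  have e2 := h.cert_edge_lt hd hω hg' hgy'
  have h0 := h.ν_pos
  have e3 : ν * ν ≤ ω (Sum.inl y) := (mul_le_mul_of_nonneg_left e0 h0.le).trans e1
  have e4 : ν * (ν * ν) ≤ ν * ω (Sum.inl y) := mul_le_mul_of_nonneg_left e3 h0.le
  refine h.R_dom hd hω (disj26 h hgy hgy' hne) ?_
  calc ν ^ 3 = ν * (ν * ν) := by ring
    _ ≤ _ := e4.trans e2

/-- one side, `d = inl x`, a comparator next to `x` which is not designated -/
private theorem neg_a26 (h : s1.Good adj ν) {x : V} {g : C × Bool} {c : Option C}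
    (hd : Sum.inl x ∉ K) {ω : V ⊕ (C × Bool) → ℝ} (hω : s1.Cert K (Sum.inl x) ω)
    (hg : Sum.inr g ∈ K) (hgx : adj g x) (hc : c ≠ some g.1) : s1.R c ω < 0 := by
  have e0 := h.cert_edge_lt hd hω hg hgx
  rw [hω.one, mul_one] at e0
  exact h.R_dom hd hω hc ((pow3_le26 h).trans e0)

/-- **The signs of the two sides agree.** -/
theorem joint_col (h1 : s1.Good adj ν) (h2 : s2.Good adj ν) (hd : d ∉ K)
    (hval : ∀ g (S : Finset V), (∀ y ∈ S, adj g y) → 0 < s1.val g S * s2.val g S)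
    {ω1 ω2 : V ⊕ (C × Bool) → ℝ} (hω1 : s1.Cert K d ω1) (hω2 : s2.Cert K d ω2) (c : Option C) :
    0 < s1.R c ω1 * s2.R c ω2 := by
  classical
  rcases d with x | g
  · by_cases hK : ∃ g, Sum.inr g ∈ K ∧ adj g x
    · obtain ⟨g, hg, hgx⟩ := hK
      by_cases hne : ∃ g', Sum.inr g' ∈ K ∧ adj g' x ∧ c ≠ some g'.1
      · obtain ⟨g', hg', hgx', hc⟩ := hne
        exact mul_pos_of_neg_of_neg (neg_a26 h1 hd hω1 hg' hgx' hc) (neg_a26 h2 hd hω2 hg' hgx' hc)
      · push Not at hne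
        have hc : c = some g.1 := hne g hg hgx
        subst hc
        by_cases hch : ∃ y g', Sum.inl y ∈ K ∧ adj g y ∧ Sum.inr g' ∈ K ∧ adj g' y ∧ g' ≠ g
        · obtain ⟨y, g', hy, hgy, hg', hgy', hgg⟩ := hch
          exact mul_pos_of_neg_of_neg (neg_c26 h1 hd hω1 hg hgx hy hgy hg' hgy' hgg)
            (neg_c26 h2 hd hω2 hg hgx hy hgy hg' hgy' hgg)
        · push Not at hch
          have hK' : ∀ y g', (y = x ∨ Sum.inl y ∈ K) → adj g y → Sum.inr g' ∈ K → adj g' y →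
              g' = g := by
            intro y g' hy hgy hg' hgy'
            rcases hy with rfl | hy
            · by_contra hgg
              exact disj26 h1 hgy hgy' hgg (hne g' hg' hgy')
            · exact hch y g' hy hgy hg' hgy'
          exact mul_pos (h1.R_light hd hω1 hg hgx hK') (h2.R_light hd hω2 hg hgx hK')
    · push Not at hK
      rw [h1.R_heavy hd hω1 hK, h2.R_heavy hd hω2 hK]
      exact mul_pos (h1.PV_pos c x) (h2.PV_pos c x)
  · have hν : ν ^ 3 ≤ 1 := pow_le_one₀ h1.ν_pos.le h1.ν_le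
    by_cases hc : c = some g.1
    · subst hc
      by_cases hch : ∃ y g', Sum.inl y ∈ K ∧ adj g y ∧ Sum.inr g' ∈ K ∧ adj g' y
      · obtain ⟨y, g', hy, hgy, hg', hgy'⟩ := hch
        exact mul_pos_of_neg_of_neg (neg_b26 h1 hd hω1 hy hgy hg' hgy')
          (neg_b26 h2 hd hω2 hy hgy hg' hgy')
      · push Not at hch
        have hK : ∀ y g', Sum.inl y ∈ K → adj g y → Sum.inr g' ∈ K → ¬ adj g' y :=
          fun y g' hy hgy hg' => hch y g' hy hgy hg'
        rw [h1.R_val hd hω1 hK, h2.R_val hd hω2 hK]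
        refine hval g _ fun y hy => ?_
        rw [mem_filter] at hy
        exact hy.2.2
    · refine mul_pos_of_neg_of_neg (h1.R_dom hd hω1 hc ?_) (h2.R_dom hd hω2 hc ?_)
      · rw [hω1.one]
        exact hν
      · rw [hω2.one]
        exact hν

theorem joint_last (h1 : s1.Good adj ν) (h2 : s2.Good adj ν) (hd : d ∉ K)
    (hev : ∀ e x T, 0 < s1.evl e x T * s2.evl e x T)
    {ω1 ω2 : V ⊕ (C × Bool) → ℝ} (hω1 : s1.Cert K d ω1) (hω2 : s2.Cert K d ω2) (e : C × Bool)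
    (T : Finset (Option C)) : 0 < s1.RE e T ω1 * s2.RE e T ω2 := by
  rcases d with x | g
  · by_cases hK : ∃ g, Sum.inr g ∈ K ∧ adj g x
    · obtain ⟨g, hg, hgx⟩ := hK
      have e1 := h1.cert_edge_lt hd hω1 hg hgx
      have e2 := h2.cert_edge_lt hd hω2 hg hgx
      rw [hω1.one, mul_one] at e1
      rw [hω2.one, mul_one] at e2
      exact mul_pos_of_neg_of_neg (h1.RE_dom hd hω1 e1) (h2.RE_dom hd hω2 e2)
    · push Not at hK
      rw [h1.RE_heavy hd hω1 hK, h2.RE_heavy hd hω2 hK]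
      exact hev e x T
  · have e1 : ν ≤ ω1 (Sum.inr g) := by
      rw [hω1.one]
      exact h1.ν_le
    have e2 : ν ≤ ω2 (Sum.inr g) := by
      rw [hω2.one]
      exact h1.ν_le
    exact mul_pos_of_neg_of_neg (h1.RE_dom hd hω1 e1) (h2.RE_dom hd hω2 e2)

end Pool.Agent.Helper63.UR
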