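import Mathlib
import Pool.Agent.Helper63.UR.SideB4
import Pool.Agent.Helper63.UR.SideA3
import Pool.Agent.Helper63.UR.SideA4
import Pool.Agent.Helper63.UR.Opp3

/-!
Two sides with the same signs give a limit of strict GKK matrices.
-/

namespace Pool.Agent.Helper63.UR

open Matrix Finset

variable {V C : Type} [Fintype V] [DecidableEq V] [Fintype C] [DecidableEq C]
variable {s1 s2 : Side V C} {adj : C × Bool → V → Prop} {ν : ℝ}
variable {K : Finset (V ⊕ (C × Bool))} {d : V ⊕ (C × Bool)}

theorem inL_of_sides {n : ℕ} (e : Fin n ≃ Ix V C) (h1 : s1.Good adj ν) (h2 : s2.Good adj ν)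
    (hab : ∀ y g, s2.a y g = s1.b g y) (hba : ∀ g y, s2.b g y = s1.a y g)
    (hval : ∀ g (S : Finset V), (∀ y ∈ S, adj g y) → 0 < s1.val g S * s2.val g S)
    (hev : ∀ e x T, 0 < s1.evl e x T * s2.evl e x T) : InL e s1.mat := by
  refine opp e h1.lbm h2.lbm ?_ ?_
  · rintro ((x | g) | (c | f)) ((x' | g') | (c' | f')) heq
    all_goals first
      | (exfalso; simp [blk] at heq; done)
      | skip
    · simp only [Side.mat, eq_comm]
    · simp only [Side.mat, hba]
    · simp only [Side.mat, hab]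
    · simp only [Side.mat, eq_comm]
    · simp only [Side.mat, eq_comm]
    · simp only [Side.mat, eq_comm]
  · rintro K (d | (c | f)) (d' | (c' | f')) hi hj hlt
    all_goals first
      | (exfalso; simp [blk] at hlt; done)
      | skip
    · have hd : d ∉ lpart K := fun hh => hi (Finset.mem_filter.1 hh).2
      obtain ⟨ω1, hω1⟩ := h1.exists_cert (lpart K) d hd
      obtain ⟨ω2, hω2⟩ := h2.exists_cert (lpart K) d hd
      rw [h1.scg_co hi hω1 hj, h2.scg_co hi hω2 hj]
      exact joint_col h1 h2 hd hval hω1 hω2 c'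
    · have hd : d ∉ lpart K := fun hh => hi (Finset.mem_filter.1 hh).2
      obtain ⟨ω1, hω1⟩ := h1.exists_cert (lpart K) d hd
      obtain ⟨ω2, hω2⟩ := h2.exists_cert (lpart K) d hd
      rw [h1.scg_ee hi hω1 hj, h2.scg_ee hi hω2 hj]
      exact joint_last h1 h2 hd hev hω1 hω2 f' (cpart K)
    · rw [h1.scg_ec hi hj, h2.scg_ec hi hj]
      exact mul_pos (h1.Y_pos _ _) (h2.Y_pos _ _)

end Pool.Agent.Helper63.UR
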