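import Mathlib
import Pool.Agent.Helper63.UR.SuffDefs

/-!
The lower side is good.
-/

namespace Pool.Agent.Helper63.UR

open Matrix Finset

variable {V C : Type} [Fintype V] [DecidableEq V] [Fintype C] [DecidableEq C]
variable {G : C → Gad V} {Zf : C → V → ℝ} {β : C → Bool → ℝ} {z : V → ℝ} {s : ℝ}

section consts

variable (V C)

private theorem tq_real : ((tq V C : ℚ) : ℝ) =
    1 / (400 * ((Fintype.card C : ℝ) + Fintype.card V + 1)) := by
  unfold tq
  push_cast
  rfl

private theorem tq_pos' : (0 : ℝ) < tq V C := by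
  rw [tq_real]
  positivity

private theorem tq_mul : (tq V C : ℝ) * ((Fintype.card C : ℝ) + Fintype.card V + 1) = 1 / 400 := by
  rw [tq_real]
  have : (0 : ℝ) < (Fintype.card C : ℝ) + Fintype.card V + 1 := by positivity
  field_simp

private theorem tq_cardC : (tq V C : ℝ) * (Fintype.card C : ℝ) ≤ 1 / 400 := by
  have h1 := tq_mul V C
  have h2 := tq_pos' V C
  have h3 : (0 : ℝ) ≤ Fintype.card V := by positivity
  nlinarith

private theorem tq_cardV : (tq V C : ℝ) * (Fintype.card V : ℝ) ≤ 1 / 400 := by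
  have h1 := tq_mul V C
  have h2 := tq_pos' V C
  have h3 : (0 : ℝ) ≤ Fintype.card C := by positivity
  nlinarith

private theorem tq_le : (tq V C : ℝ) ≤ 1 / 400 := by
  have h1 := tq_mul V C
  have h2 := tq_pos' V C
  have h3 : (0 : ℝ) ≤ Fintype.card C := by positivity
  have h4 : (0 : ℝ) ≤ Fintype.card V := by positivity
  nlinarith [mul_nonneg h2.le h3, mul_nonneg h2.le h4]

private theorem nq_real : ((nq V C : ℚ) : ℝ) = (tq V C : ℝ) / 4 := by
  unfold nq
  push_cast
  rfl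

private theorem nq_pos' : (0 : ℝ) < nq V C := by
  rw [nq_real]
  have := tq_pos' V C
  positivity

private theorem Hq_mul : (Hq V C : ℝ) * (nq V C : ℝ) ^ 3 = 4 * Fintype.card V + 1 := by
  have h := nq_pos' V C
  unfold Hq
  push_cast
  field_simp

private theorem Hq2_real : (Hq2 V C : ℝ) = 3 * (Hq V C : ℝ) +
    (20 * Fintype.card V + 1) / (nq V C : ℝ) := by
  unfold Hq2
  push_cast
  rfl

private theorem one_le_Hq : (1 : ℝ) ≤ Hq V C := by
  have h := nq_pos' V C
  have h1 := Hq_mul V C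
  have h2 : (nq V C : ℝ) ≤ 1 := by
    rw [nq_real]
    linarith [tq_le V C]
  have h3 : (nq V C : ℝ) ^ 3 ≤ 1 := pow_le_one₀ h.le h2
  have h4 : (0 : ℝ) < (nq V C : ℝ) ^ 3 := by positivity
  have h5 : (0 : ℝ) ≤ Fintype.card V := by positivity
  by_contra h6
  push Not at h6
  have h7 : (Hq V C : ℝ) * (nq V C : ℝ) ^ 3 < 1 := by
    calc (Hq V C : ℝ) * (nq V C : ℝ) ^ 3 < 1 * (nq V C : ℝ) ^ 3 := by
          exact mul_lt_mul_of_pos_right h6 h4
      _ ≤ 1 := by linarith
  linarith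

end consts

private theorem sq_real : ((sq C : ℚ) : ℝ) = 1 / (32 * ((Fintype.card C : ℝ) + 1)) := by
  unfold sq
  push_cast
  rfl

private theorem supp_real (hG : ∀ c, (G c).Ok) (g : C × Bool) (y : V) :
    ((G g.1).wt g.2 y = 0 ∧ (G g.1).a g.2 y = 0) ∨
      ((1 : ℝ) ≤ (G g.1).wt g.2 y ∧ ((G g.1).wt g.2 y : ℝ) ≤ 2 ∧ (1 : ℝ) ≤ (G g.1).a g.2 y ∧
        ((G g.1).a g.2 y : ℝ) ≤ 16) := by
  rcases (hG g.1).supp g.2 y with h | ⟨h1, h2, h3, h4⟩
  · exact Or.inl h
  · exact Or.inr ⟨by exact_mod_cast h1, by exact_mod_cast h2, by exact_mod_cast h3,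
      by exact_mod_cast h4⟩

private theorem bG_bounds (hG : ∀ c, (G c).Ok) (hZ : ∀ c y, 1 / 2 ≤ Zf c y ∧ Zf c y ≤ 2)
    (hs : 0 < s) (hs1 : s ≤ 1) (g : C × Bool) (y : V) :
    (gadj G g y → (tq V C : ℝ) / 4 ≤ bG G Zf s g y) ∧ (¬ gadj G g y → bG G Zf s g y = 0) ∧
      0 ≤ bG G Zf s g y ∧ bG G Zf s g y ≤ 34 * (tq V C : ℝ) := by
  have ht := tq_pos' V C
  obtain ⟨hz1, hz2⟩ := hZ g.1 y
  have hzp : Zf g.1 y ≤ Zp G Zf s g.1 y ∧ Zp G Zf s g.1 y ≤ 2 * Zf g.1 y := by
    unfold Zp
    split_ifs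
    · constructor <;> nlinarith
    · constructor <;> linarith
  have hpos : 0 < Zp G Zf s g.1 y := by linarith [hzp.1]
  rcases supp_real hG g y with ⟨h1, h2⟩ | ⟨h1, h2, h3, h4⟩
  · have h0 : bG G Zf s g y = 0 := by
      unfold bG
      rw [h1, h2]
      simp
    refine ⟨fun h => absurd h1 h, fun _ => h0, h0.ge, ?_⟩
    rw [h0]
    positivity
  · have hnum1 : Zf g.1 y ≤ (G g.1).wt g.2 y * Zf g.1 y + s * (G g.1).a g.2 y := by
      nlinarith [mul_pos hs (by linarith : (0 : ℝ) < (G g.1).a g.2 y)]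
    have hnum2 : (G g.1).wt g.2 y * Zf g.1 y + s * (G g.1).a g.2 y ≤ 34 * Zf g.1 y := by
      have h5 : s * ((G g.1).a g.2 y : ℝ) ≤ 16 := by nlinarith
      nlinarith
    have hlow : (tq V C : ℝ) / 4 ≤ bG G Zf s g y := by
      unfold bG
      rw [le_div_iff₀ hpos]
      nlinarith [mul_le_mul_of_nonneg_left hnum1 ht.le, mul_le_mul_of_nonneg_left hzp.2 ht.le,
        mul_pos ht hpos]
    refine ⟨fun _ => hlow, fun h => ?_, by linarith, ?_⟩
    · exfalso
      apply h
      unfold gadj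
      intro h0
      rw [h0] at h1
      norm_num at h1
    · unfold bG
      rw [div_le_iff₀ hpos]
      nlinarith [mul_le_mul_of_nonneg_left hnum2 ht.le, mul_le_mul_of_nonneg_left hzp.1 ht.le]

private theorem aG_bounds (hG : ∀ c, (G c).Ok) (g : C × Bool) (y : V) :
    (gadj G g y → (tq V C : ℝ) / 4 ≤ tq V C * (G g.1).a g.2 y / (G g.1).X y) ∧
      (¬ gadj G g y → (tq V C * (G g.1).a g.2 y / (G g.1).X y : ℝ) = 0) ∧
      0 ≤ (tq V C * (G g.1).a g.2 y / (G g.1).X y : ℝ) ∧
      (tq V C * (G g.1).a g.2 y / (G g.1).X y : ℝ) ≤ 64 * (tq V C : ℝ) := by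
  have ht := tq_pos' V C
  have hx1 : (1 / 4 : ℝ) ≤ (G g.1).X y := by
    have := (hG g.1).X_lo y
    have h : ((1 / 4 : ℚ) : ℝ) ≤ (G g.1).X y := by exact_mod_cast this
    push_cast at h
    exact h
  have hx2 : ((G g.1).X y : ℝ) ≤ 4 := by exact_mod_cast (hG g.1).X_hi y
  have hpos : (0 : ℝ) < (G g.1).X y := by linarith
  rcases supp_real hG g y with ⟨h1, h2⟩ | ⟨h1, h2, h3, h4⟩
  · have h0 : (tq V C * (G g.1).a g.2 y / (G g.1).X y : ℝ) = 0 := by
      rw [h2]
      simp
    refine ⟨fun h => absurd h1 h, fun _ => h0, h0.ge, ?_⟩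
    rw [h0]
    positivity
  · have hlow : (tq V C : ℝ) / 4 ≤ tq V C * (G g.1).a g.2 y / (G g.1).X y := by
      rw [le_div_iff₀ hpos]
      nlinarith [mul_le_mul_of_nonneg_left hx2 ht.le, mul_le_mul_of_nonneg_left h3 ht.le]
    refine ⟨fun _ => hlow, fun h => ?_, by linarith, ?_⟩
    · exfalso
      apply h
      unfold gadj
      intro h0
      rw [h0] at h1
      norm_num at h1
    · rw [div_le_iff₀ hpos]
      nlinarith [mul_le_mul_of_nonneg_left hx1 ht.le, mul_le_mul_of_nonneg_left h4 ht.le]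

private theorem sum_Y_le (e : C × Bool) (T : Finset (Option C)) :
    ∑ c ∈ T, (if c = none ∨ c = some e.1 then (1 : ℝ) else (sq C : ℝ)) ≤ 2 + 1 / 32 := by
  have hsq : (0 : ℝ) ≤ sq C := by
    rw [sq_real]
    positivity
  have h1 : ∑ c ∈ T, (if c = none ∨ c = some e.1 then (1 : ℝ) else (sq C : ℝ)) ≤
      ∑ c : Option C, (if c = none ∨ c = some e.1 then (1 : ℝ) else (sq C : ℝ)) := by
    refine sum_le_sum_of_subset_of_nonneg (subset_univ T) fun c _ _ => ?_
    split_ifs
    · norm_num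
    · exact hsq
  refine h1.trans ?_
  rw [Fintype.sum_option]
  have h2 : ∀ c : C, (if some c = none ∨ some c = some e.1 then (1 : ℝ) else (sq C : ℝ)) ≤
      (if c = e.1 then 1 else 0) + (sq C : ℝ) := by
    intro c
    by_cases h : c = e.1
    · simp [h, hsq]
    · simp [h]
  have h3 := sum_le_sum (s := univ) fun c (_ : c ∈ (univ : Finset C)) => h2 c
  rw [sum_add_distrib, sum_ite_eq' univ e.1 (fun _ => (1 : ℝ))] at h3
  simp only [mem_univ, if_true, sum_const, card_univ, nsmul_eq_mul] at h3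
  have h4 : (Fintype.card C : ℝ) * (sq C : ℝ) ≤ 1 / 32 := by
    rw [sq_real]
    have : (0 : ℝ) < (Fintype.card C : ℝ) + 1 := by positivity
    rw [mul_one_div, div_le_div_iff₀ (by positivity) (by norm_num)]
    linarith
  simp only [true_or, if_true]
  linarith

theorem side1_good (hG : ∀ c, (G c).Ok) (hZ : ∀ c y, 1 / 2 ≤ Zf c y ∧ Zf c y ≤ 2) (hs : 0 < s)
    (hs1 : s ≤ 1) : (side1 G Zf s).Good (gadj G) (nq V C) := by
  have ht := tq_pos' V C
  have htl := tq_le V C
  have htC := tq_cardC V C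
  have htV := tq_cardV V C
  have hν := nq_pos' V C
  have hνr := nq_real V C
  have hH := one_le_Hq V C
  have hX1 : ∀ c y, (1 / 4 : ℝ) ≤ (G c).X y := by
    intro c y
    have := (hG c).X_lo y
    have h : ((1 / 4 : ℚ) : ℝ) ≤ (G c).X y := by exact_mod_cast this
    push_cast at h
    exact h
  have hX2 : ∀ c y, ((G c).X y : ℝ) ≤ 4 := fun c y => by exact_mod_cast (hG c).X_hi y
  have hth1 : ∀ c b, (1 : ℝ) ≤ (G c).th b := fun c b => by exact_mod_cast (hG c).th_lo b
  have hth2 : ∀ c b, ((G c).th b : ℝ) ≤ 16 := fun c b => by exact_mod_cast (hG c).th_hi b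
  have hPV : ∀ c y, 0 < (side1 G Zf s).PV c y ∧ (side1 G Zf s).PV c y ≤ 4 := by
    intro c y
    rcases c with _ | c
    · exact ⟨by norm_num [side1], by norm_num [side1]⟩
    · exact ⟨by simp only [side1, Option.elim]; linarith [hX1 c y], hX2 c y⟩
  have hPG : ∀ c g, (side1 G Zf s).PG c g < 0 ∧ -(Hq V C : ℝ) ≤ (side1 G Zf s).PG c g := by
    intro c g
    simp only [side1]
    have h1 := hth1 g.1 g.2
    have h2 := hth2 g.1 g.2
    split_ifs
    · constructor
      · have : (0 : ℝ) < tq V C * (G g.1).th g.2 := by positivity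
        linarith
      · nlinarith
    · constructor <;> linarith
  have hY : ∀ e c, (side1 G Zf s).Y e c = if c = none ∨ c = some e.1 then (1 : ℝ) else (sq C : ℝ) :=
    fun _ _ => rfl
  have hYpos : ∀ e c, 0 < (side1 G Zf s).Y e c := by
    intro e c
    rw [hY, sq_real]
    split_ifs
    · norm_num
    · positivity
  refine
    { ν_pos := hν
      ν_le := by rw [hνr]; linarith
      a_adj := fun g y h => by rw [hνr]; exact (aG_bounds hG g y).1 h
      b_adj := fun g y h => by rw [hνr]; exact (bG_bounds hG hZ hs hs1 g y).1 h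
      a_nadj := fun g y h => (aG_bounds hG g y).2.1 h
      b_nadj := fun g y h => (bG_bounds hG hZ hs hs1 g y).2.1 h
      a_row := ?_
      b_row := ?_
      disj := ?_
      PV_pos := fun c y => (hPV c y).1
      PG_neg := fun c g => (hPG c g).1
      dom := ?_
      light := ?_
      edom := ?_
      Y_pos := hYpos }
  · intro y
    have h1 : ∑ g, (side1 G Zf s).a y g ≤ ∑ _g : C × Bool, 64 * (tq V C : ℝ) :=
      sum_le_sum fun g _ => (aG_bounds hG g y).2.2.2
    rw [sum_const, card_univ, Fintype.card_prod, Fintype.card_bool, nsmul_eq_mul] at h1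
    push_cast at h1
    linarith
  · intro g
    have h1 : ∑ y, (side1 G Zf s).b g y ≤ ∑ _y : V, 34 * (tq V C : ℝ) :=
      sum_le_sum fun y _ => (bG_bounds hG hZ hs hs1 g y).2.2.2
    rw [sum_const, card_univ, nsmul_eq_mul] at h1
    linarith
  · intro c b b' y h h'
    unfold gadj at h h'
    rcases (hG c).disj y with h0 | h0 <;> cases b <;> cases b' <;> simp_all
  · intro c g hc
    have h1 : (side1 G Zf s).PG c g = -(Hq V C : ℝ) := by
      simp only [side1, if_neg hc]
    have h2 : ∑ y, (side1 G Zf s).PV c y ≤ ∑ _y : V, (4 : ℝ) := sum_le_sum fun y _ => (hPV c y).2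
    rw [sum_const, card_univ, nsmul_eq_mul] at h2
    rw [h1, neg_mul, Hq_mul]
    linarith
  · intro g y _
    have h1 : (side1 G Zf s).PV (some g.1) y = (G g.1).X y := rfl
    have h2 : (side1 G Zf s).PG (some g.1) g = -(tq V C * (G g.1).th g.2 : ℝ) := by
      simp [side1]
    have h3 := (bG_bounds hG hZ hs hs1 g y).2.2
    have h4 : (side1 G Zf s).b g y = bG G Zf s g y := rfl
    rw [h1, h2, h4]
    have h5 := hX1 g.1 y
    have h6 := hth2 g.1 g.2
    have h7 := hth1 g.1 g.2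
    have h8 : (tq V C : ℝ) * (G g.1).th g.2 ≤ 16 / 400 := by nlinarith
    have h9 : bG G Zf s g y ≤ 34 / 400 := by linarith
    have h10 : (0 : ℝ) ≤ (tq V C : ℝ) * (G g.1).th g.2 := by positivity
    nlinarith [mul_le_mul h9 h8 h10 (by norm_num : (0 : ℝ) ≤ 34 / 400)]
  · intro e g T
    have h1 : (side1 G Zf s).evg e g T ≤ -((20 * Fintype.card V + 1) / (nq V C : ℝ)) := by
      unfold Side.evg
      have h2 : (side1 G Zf s).QG e g = -(Hq2 V C : ℝ) := rfl
      have h3 : -∑ c ∈ T, (side1 G Zf s).Y e c * (side1 G Zf s).PG c g ≤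
          (∑ c ∈ T, (side1 G Zf s).Y e c) * (Hq V C : ℝ) := by
        rw [← sum_neg_distrib, sum_mul]
        refine sum_le_sum fun c _ => ?_
        have := mul_le_mul_of_nonneg_left (hPG c g).2 (hYpos e c).le
        linarith
      have h4 : (∑ c ∈ T, (side1 G Zf s).Y e c) ≤ 2 + 1 / 32 := by
        simp only [hY]
        exact sum_Y_le e T
      have h5 : (∑ c ∈ T, (side1 G Zf s).Y e c) * (Hq V C : ℝ) ≤ (2 + 1 / 32) * (Hq V C : ℝ) :=
        mul_le_mul_of_nonneg_right h4 (by linarith)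
      rw [h2, Hq2_real]
      linarith
    have h6 : ∀ y, |(side1 G Zf s).evl e y T| ≤ 10 := by
      intro y
      unfold Side.evl
      have h7 : 0 ≤ ∑ c ∈ T, (side1 G Zf s).Y e c * (side1 G Zf s).PV c y :=
        sum_nonneg fun c _ => mul_nonneg (hYpos e c).le (hPV c y).1.le
      have h8 : ∑ c ∈ T, (side1 G Zf s).Y e c * (side1 G Zf s).PV c y ≤ (2 + 1 / 32) * 4 := by
        have h9 : ∑ c ∈ T, (side1 G Zf s).Y e c * (side1 G Zf s).PV c y ≤
            (∑ c ∈ T, (side1 G Zf s).Y e c) * 4 := by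
          rw [sum_mul]
          exact sum_le_sum fun c _ => mul_le_mul_of_nonneg_left (hPV c y).2 (hYpos e c).le
        have h10 : (∑ c ∈ T, (side1 G Zf s).Y e c) ≤ 2 + 1 / 32 := by
          simp only [hY]
          exact sum_Y_le e T
        linarith
      have h11 : 0 ≤ (side1 G Zf s).QV e y ∧ (side1 G Zf s).QV e y ≤ 10 := by
        simp only [side1]
        split_ifs <;> norm_num
      rw [abs_le]
      constructor <;> linarith [h11.1, h11.2]
    have h12 : ∑ y, |(side1 G Zf s).evl e y T| ≤ ∑ _y : V, (10 : ℝ) := sum_le_sum fun y _ => h6 y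
    rw [sum_const, card_univ, nsmul_eq_mul] at h12
    have h13 : (side1 G Zf s).evg e g T * (nq V C : ℝ) ≤ -(20 * Fintype.card V + 1) := by
      have := mul_le_mul_of_nonneg_right h1 hν.le
      rw [neg_mul, div_mul_cancel₀ _ hν.ne'] at this
      exact this
    have h14 : (0 : ℝ) ≤ Fintype.card V := by positivity
    linarith

end Pool.Agent.Helper63.UR
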