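import Mathlib
import Pool.Agent.Helper63.UR.SuffDefs

/-!
The gaps are positive.
-/

namespace Pool.Agent.Helper63.UR

open Matrix Finset

variable {V C : Type} [Fintype V] [DecidableEq V] [Fintype C] [DecidableEq C]
variable {G : C → Gad V} {Zf : C → V → ℝ} {β : C → Bool → ℝ} {z : V → ℝ} {s : ℝ}

theorem gaps (hG : ∀ c, (G c).Ok) (hS : Sols G Zf β z) (hs : 0 < s) (hs1 : s ≤ 1) (e : C × Bool) :
    0 < ve G Zf z s e ∧ ve G Zf z s e ≤ 4 ∧ 0 < gl G Zf z s e ∧ 0 < gr G Zf z s e := by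
  obtain ⟨c, b⟩ := e
  have hXl := (hG c).X_el b
  have hXr := (hG c).X_er b
  have hl : Zp G Zf s c ((G c).el b) = (1 + s) * Zf c ((G c).el b) := by
    unfold Zp
    rw [if_pos hXl]
  have hr : Zp G Zf s c ((G c).er b) = Zf c ((G c).er b) := by
    unfold Zp
    rw [if_neg (by rw [hXr]; norm_num)]
  obtain ⟨zl1, zl2⟩ := hS.z_box ((G c).el b)
  obtain ⟨zr1, zr2⟩ := hS.z_box ((G c).er b)
  obtain ⟨Zl1, Zl2⟩ := hS.Z_box c ((G c).el b)
  obtain ⟨Zr1, Zr2⟩ := hS.Z_box c ((G c).er b)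
  have ho := hS.ord c b
  unfold gl gr ve
  simp only [hl, hr]
  generalize z ((G c).el b) = zl at *
  generalize z ((G c).er b) = zr at *
  generalize Zf c ((G c).el b) = Zl at *
  generalize Zf c ((G c).er b) = Zr at *
  have hZr : 0 < Zr := by linarith
  have hZl : 0 < Zl := by linarith
  have hzr : 0 < zr := by linarith
  have hzl : 0 < zl := by linarith
  have h2 : 0 < 1 + s / 2 := by linarith
  have hv : 0 < zr / Zr / (1 + s / 2) := by positivity
  refine ⟨hv, ?_, ?_, ?_⟩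
  · rw [div_div, div_le_iff₀ (by positivity)]
    nlinarith [mul_pos hZr hs]
  · have h3 : zl ≤ zr * Zl / Zr := by
      rw [le_div_iff₀ hZr]
      exact ho
    have h4 : (1 + s) * Zl * (zr / Zr / (1 + s / 2)) = (1 + s) / (1 + s / 2) * (zr * Zl / Zr) := by
      field_simp
    rw [h4]
    have h5 : 1 < (1 + s) / (1 + s / 2) := by
      rw [lt_div_iff₀ h2]
      linarith
    have h6 : 0 < zr * Zl / Zr := by positivity
    nlinarith
  · have h4 : Zr * (zr / Zr / (1 + s / 2)) = zr / (1 + s / 2) := by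
      field_simp
    rw [h4]
    have h5 : zr / (1 + s / 2) < zr := by
      rw [div_lt_iff₀ h2]
      nlinarith
    linarith

end Pool.Agent.Helper63.UR
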