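import Mathlib
import Pool.Agent.Helper63.UR.SuffB1

/-!
The upper side is good if `H` and `U` are large.
-/

namespace Pool.Agent.Helper63.UR

open Matrix Finset

variable {V C : Type} [Fintype V] [DecidableEq V] [Fintype C] [DecidableEq C]
variable {G : C → Gad V} {Zf : C → V → ℝ} {β : C → Bool → ℝ} {z : V → ℝ} {s : ℝ}

private theorem sB2_t (V C : Type) [Fintype V] [Fintype C] : 0 < ((tq V C : ℚ) : ℝ) ∧
    ((tq V C : ℚ) : ℝ) * (400 * (Fintype.card C + Fintype.card V + 1)) = 1 := by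
  have h1 : (0 : ℝ) < 400 * ((Fintype.card C : ℝ) + Fintype.card V + 1) := by positivity
  have h2 : ((tq V C : ℚ) : ℝ) = 1 / (400 * ((Fintype.card C : ℝ) + Fintype.card V + 1)) := by
    unfold tq
    push_cast
    ring
  constructor
  · rw [h2]; positivity
  · rw [h2]
    field_simp

private theorem sB2_Zp (hS : Sols G Zf β z) (hs : 0 < s) (hs1 : s ≤ 1) (c : C) (y : V) :
    1 / 2 ≤ Zp G Zf s c y ∧ Zf c y ≤ Zp G Zf s c y ∧ Zp G Zf s c y ≤ 2 * Zf c y := by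
  obtain ⟨h1, h2⟩ := hS.Z_box c y
  unfold Zp
  split_ifs
  · refine ⟨?_, ?_, ?_⟩ <;> nlinarith
  · refine ⟨?_, ?_, ?_⟩ <;> linarith

private theorem sB2_supp (hG : ∀ c, (G c).Ok) (g : C × Bool) (y : V) :
    (((G g.1).wt g.2 y : ℝ) = 0 ∧ ((G g.1).a g.2 y : ℝ) = 0) ∨
    (1 ≤ ((G g.1).wt g.2 y : ℝ) ∧ ((G g.1).wt g.2 y : ℝ) ≤ 2 ∧ 1 ≤ ((G g.1).a g.2 y : ℝ) ∧
      ((G g.1).a g.2 y : ℝ) ≤ 16) := by
  rcases (hG g.1).supp g.2 y with ⟨h1, h2⟩ | ⟨h1, h2, h3, h4⟩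
  · left
    rw [h1, h2]
    simp
  · right
    exact ⟨by exact_mod_cast h1, by exact_mod_cast h2, by exact_mod_cast h3, by exact_mod_cast h4⟩

private theorem sB2_bG (hG : ∀ c, (G c).Ok) (hS : Sols G Zf β z) (hs : 0 < s) (hs1 : s ≤ 1)
    (g : C × Bool) (y : V) : (gadj G g y → ((tq V C : ℚ) : ℝ) / 2 ≤ bG G Zf s g y) ∧
      (¬ gadj G g y → bG G Zf s g y = 0) ∧ bG G Zf s g y ≤ 40 * ((tq V C : ℚ) : ℝ) := by
  obtain ⟨ht, _⟩ := sB2_t V C
  obtain ⟨hz1, hz2, hz3⟩ := sB2_Zp hS hs hs1 g.1 y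
  obtain ⟨hb1, hb2⟩ := hS.Z_box g.1 y
  have hpos : 0 < Zp G Zf s g.1 y := by linarith
  rcases sB2_supp hG g y with ⟨h1, h2⟩ | ⟨h1, h2, h3, h4⟩
  · have h0 : bG G Zf s g y = 0 := by
      unfold bG
      rw [h1, h2]
      simp
    refine ⟨fun h => absurd (by exact_mod_cast h1) h, fun _ => h0, ?_⟩
    rw [h0]
    positivity
  · have hwt : gadj G g y := by
      intro h
      have : ((G g.1).wt g.2 y : ℝ) = 0 := by rw [h]; simp
      linarith
    refine ⟨fun _ => ?_, fun h => absurd hwt h, ?_⟩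
    · unfold bG
      rw [le_div_iff₀ hpos]
      have e1 : Zf g.1 y ≤ ((G g.1).wt g.2 y : ℝ) * Zf g.1 y + s * ((G g.1).a g.2 y : ℝ) := by
        nlinarith [mul_nonneg hs.le (by linarith : (0 : ℝ) ≤ ((G g.1).a g.2 y : ℝ))]
      nlinarith [mul_le_mul_of_nonneg_left e1 ht.le, mul_le_mul_of_nonneg_left hz3 ht.le]
    · unfold bG
      rw [div_le_iff₀ hpos]
      have e1 : ((G g.1).wt g.2 y : ℝ) * Zf g.1 y ≤ 2 * 2 :=
        mul_le_mul h2 hb2 (by linarith) (by norm_num)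
      have e2 : s * ((G g.1).a g.2 y : ℝ) ≤ 1 * 16 :=
        mul_le_mul hs1 h4 (by linarith) (by norm_num)
      have e3 : ((G g.1).wt g.2 y : ℝ) * Zf g.1 y + s * ((G g.1).a g.2 y : ℝ) ≤ 20 := by linarith
      nlinarith [mul_le_mul_of_nonneg_left e3 ht.le, mul_le_mul_of_nonneg_left hz1 ht.le]

private theorem sB2_b (hG : ∀ c, (G c).Ok) (g : C × Bool) (y : V) :
    (gadj G g y → ((tq V C : ℚ) : ℝ) / 4 ≤
      ((tq V C : ℚ) : ℝ) * ((G g.1).a g.2 y : ℝ) / ((G g.1).X y : ℝ)) ∧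
    (¬ gadj G g y → ((tq V C : ℚ) : ℝ) * ((G g.1).a g.2 y : ℝ) / ((G g.1).X y : ℝ) = 0) ∧
    0 ≤ ((tq V C : ℚ) : ℝ) * ((G g.1).a g.2 y : ℝ) / ((G g.1).X y : ℝ) ∧
    ((tq V C : ℚ) : ℝ) * ((G g.1).a g.2 y : ℝ) / ((G g.1).X y : ℝ) ≤ 64 * ((tq V C : ℚ) : ℝ) := by
  obtain ⟨ht, _⟩ := sB2_t V C
  have hX1 : (1 / 4 : ℝ) ≤ ((G g.1).X y : ℝ) := by
    have := (hG g.1).X_lo y
    have h : (((1 / 4 : ℚ)) : ℝ) ≤ ((G g.1).X y : ℝ) := by exact_mod_cast this
    simpa using h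
  have hX2 : ((G g.1).X y : ℝ) ≤ 4 := by exact_mod_cast (hG g.1).X_hi y
  have hpos : 0 < ((G g.1).X y : ℝ) := by linarith
  rcases sB2_supp hG g y with ⟨h1, h2⟩ | ⟨h1, h2, h3, h4⟩
  · rw [h2, mul_zero, zero_div]
    refine ⟨fun h => absurd (by exact_mod_cast h1) h, fun _ => rfl, le_rfl, by positivity⟩
  · have hwt : gadj G g y := by
      intro h
      have : ((G g.1).wt g.2 y : ℝ) = 0 := by rw [h]; simp
      linarith
    refine ⟨fun _ => ?_, fun h => absurd hwt h, ?_, ?_⟩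
    · rw [le_div_iff₀ hpos]
      nlinarith [mul_le_mul_of_nonneg_left hX2 ht.le, mul_le_mul_of_nonneg_left h3 ht.le]
    · exact div_nonneg (mul_nonneg ht.le (by linarith)) hpos.le
    · rw [div_le_iff₀ hpos]
      nlinarith [mul_le_mul_of_nonneg_left hX1 ht.le, mul_le_mul_of_nonneg_left h4 ht.le]

theorem side2_good (hG : ∀ c, (G c).Ok) (hS : Sols G Zf β z) (hs : 0 < s) (hs1 : s ≤ 1) :
    ∃ H U : ℝ, (side2 G Zf β z s H U).Good (gadj G) (nq V C) := by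
  obtain ⟨ht, ht400⟩ := sB2_t V C
  have hcC : (0 : ℝ) ≤ Fintype.card C := Nat.cast_nonneg _
  have hcV : (0 : ℝ) ≤ Fintype.card V := Nat.cast_nonneg _
  have ht1 : ((tq V C : ℚ) : ℝ) ≤ 1 / 400 := by
    have h1 : ((tq V C : ℚ) : ℝ) * 400 ≤ 1 := by
      nlinarith [mul_nonneg ht.le hcC, mul_nonneg ht.le hcV]
    linarith
  have htC : ((tq V C : ℚ) : ℝ) * Fintype.card C ≤ 1 / 400 := by
    nlinarith [mul_nonneg ht.le hcC, mul_nonneg ht.le hcV]
  have htV : ((tq V C : ℚ) : ℝ) * Fintype.card V ≤ 1 / 400 := by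
    nlinarith [mul_nonneg ht.le hcC, mul_nonneg ht.le hcV]
  have hν : ((nq V C : ℚ) : ℝ) = ((tq V C : ℚ) : ℝ) / 4 := by
    unfold nq
    push_cast
    ring
  have hν0 : 0 < ((nq V C : ℚ) : ℝ) := by rw [hν]; positivity
  have hPV : ∀ (c : Option C) (y : V), 0 < (c.elim (z y) fun c => Zp G Zf s c y : ℝ) := by
    intro c y
    cases c with
    | none => exact lt_of_lt_of_le (by norm_num) (hS.z_box y).1
    | some c => exact lt_of_lt_of_le (by norm_num) (sB2_Zp hS hs hs1 c y).1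
  -- H
  obtain ⟨H, hH0, hH⟩ : ∃ H : ℝ, 0 < H ∧ ∀ c : Option C,
      ∑ y, (c.elim (z y) fun c => Zp G Zf s c y : ℝ) < H * ((nq V C : ℚ) : ℝ) ^ 3 := by
    have hpos : 0 < ((nq V C : ℚ) : ℝ) ^ 3 := by positivity
    have hnn : ∀ c : Option C, 0 ≤ ∑ y, (c.elim (z y) fun c => Zp G Zf s c y : ℝ) :=
      fun c => Finset.sum_nonneg fun y _ => (hPV c y).le
    refine ⟨(∑ c : Option C, ∑ y, (c.elim (z y) fun c => Zp G Zf s c y : ℝ) + 1) /
      ((nq V C : ℚ) : ℝ) ^ 3, ?_, ?_⟩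
    · refine div_pos (add_pos_of_nonneg_of_pos (Finset.sum_nonneg fun c _ => hnn c) one_pos) hpos
    · intro c
      rw [div_mul_cancel₀ _ hpos.ne']
      have := Finset.single_le_sum (f := fun c : Option C =>
        ∑ y, (c.elim (z y) fun c => Zp G Zf s c y : ℝ)) (fun c _ => hnn c) (Finset.mem_univ c)
      linarith
  -- U
  obtain ⟨U, hU⟩ : ∃ U : ℝ, ∀ (e g : C × Bool) (T : Finset (Option C)),
      -(∑ c ∈ T, (side2 G Zf β z s H 0).Y e c * (side2 G Zf β z s H 0).PG c g) +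
      (∑ y, |(side2 G Zf β z s H 0).evl e y T|) / ((nq V C : ℚ) : ℝ) < U := by
    refine ⟨(∑ p : (C × Bool) × (C × Bool) × Finset (Option C),
      |-(∑ c ∈ p.2.2, (side2 G Zf β z s H 0).Y p.1 c * (side2 G Zf β z s H 0).PG c p.2.1) +
      (∑ y, |(side2 G Zf β z s H 0).evl p.1 y p.2.2|) / ((nq V C : ℚ) : ℝ)|) + 1, ?_⟩
    intro e g T
    have := Finset.single_le_sum (f := fun p : (C × Bool) × (C × Bool) × Finset (Option C) =>
      |-(∑ c ∈ p.2.2, (side2 G Zf β z s H 0).Y p.1 c * (side2 G Zf β z s H 0).PG c p.2.1) +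
      (∑ y, |(side2 G Zf β z s H 0).evl p.1 y p.2.2|) / ((nq V C : ℚ) : ℝ)|)
      (fun p _ => abs_nonneg _) (Finset.mem_univ (e, g, T))
    simp only at this
    have h2 := le_abs_self (-(∑ c ∈ T, (side2 G Zf β z s H 0).Y e c *
      (side2 G Zf β z s H 0).PG c g) +
      (∑ y, |(side2 G Zf β z s H 0).evl e y T|) / ((nq V C : ℚ) : ℝ))
    linarith
  refine ⟨H, U, ?_⟩
  have hth : ∀ g : C × Bool, 1 ≤ ((G g.1).th g.2 : ℝ) ∧ ((G g.1).th g.2 : ℝ) ≤ 16 := fun g =>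
    ⟨by exact_mod_cast (hG g.1).th_lo g.2, by exact_mod_cast (hG g.1).th_hi g.2⟩
  refine
    { ν_pos := hν0
      ν_le := by rw [hν]; linarith
      a_adj := fun g y hg => ?_
      b_adj := fun g y hg => ?_
      a_nadj := fun g y hg => ?_
      b_nadj := fun g y hg => ?_
      a_row := fun y => ?_
      b_row := fun g => ?_
      disj := fun c b b' y h1 h2 => ?_
      PV_pos := fun c y => hPV c y
      PG_neg := fun c g => ?_
      dom := fun c g hc => ?_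
      light := fun g y hg => ?_
      edom := fun e g T => ?_
      Y_pos := fun e c => ?_ }
  · show ((nq V C : ℚ) : ℝ) ≤ bG G Zf s g y
    rw [hν]
    have := (sB2_bG hG hS hs hs1 g y).1 hg
    linarith
  · show ((nq V C : ℚ) : ℝ) ≤ ((tq V C : ℚ) : ℝ) * ((G g.1).a g.2 y : ℝ) / ((G g.1).X y : ℝ)
    rw [hν]
    exact (sB2_b hG g y).1 hg
  · exact (sB2_bG hG hS hs hs1 g y).2.1 hg
  · exact (sB2_b hG g y).2.1 hg
  · show ∑ g, bG G Zf s g y ≤ 1 / 2
    calc ∑ g, bG G Zf s g y ≤ ∑ _g : C × Bool, 40 * ((tq V C : ℚ) : ℝ) :=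
          Finset.sum_le_sum fun g _ => (sB2_bG hG hS hs hs1 g y).2.2
      _ = 80 * (((tq V C : ℚ) : ℝ) * Fintype.card C) := by
          rw [Finset.sum_const, Finset.card_univ, Fintype.card_prod, Fintype.card_bool, nsmul_eq_mul]
          push_cast
          ring
      _ ≤ 1 / 2 := by linarith
  · show ∑ y, ((tq V C : ℚ) : ℝ) * ((G g.1).a g.2 y : ℝ) / ((G g.1).X y : ℝ) ≤ 1 / 2
    calc ∑ y, ((tq V C : ℚ) : ℝ) * ((G g.1).a g.2 y : ℝ) / ((G g.1).X y : ℝ)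
        ≤ ∑ _y : V, 64 * ((tq V C : ℚ) : ℝ) := Finset.sum_le_sum fun y _ => (sB2_b hG g y).2.2.2
      _ = 64 * (((tq V C : ℚ) : ℝ) * Fintype.card V) := by
          rw [Finset.sum_const, Finset.card_univ, nsmul_eq_mul]
          ring
      _ ≤ 1 / 2 := by linarith
  · have h3 := (hG c).disj y
    unfold gadj at h1 h2
    simp only at h1 h2
    cases b <;> cases b' <;> first | rfl | (exfalso; rcases h3 with h3 | h3 <;> contradiction)
  · show (if c = some g.1 then -(((tq V C : ℚ) : ℝ) * (β g.1 g.2 + s * ((G g.1).th g.2 : ℝ))) else -H) < 0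
    split_ifs
    · have h1 := (hS.β_box g.1 g.2).1
      have h2 := (hth g).1
      have : 0 < ((tq V C : ℚ) : ℝ) * (β g.1 g.2 + s * ((G g.1).th g.2 : ℝ)) := by positivity
      linarith
    · linarith
  · show (if c = some g.1 then -(((tq V C : ℚ) : ℝ) * (β g.1 g.2 + s * ((G g.1).th g.2 : ℝ))) else -H)
      * ((nq V C : ℚ) : ℝ) ^ 3 + ∑ y, (c.elim (z y) fun c => Zp G Zf s c y : ℝ) < 0
    rw [if_neg hc]
    have := hH c
    linarith
  · show 0 < Zp G Zf s g.1 y + 2 * (((tq V C : ℚ) : ℝ) * ((G g.1).a g.2 y : ℝ) / ((G g.1).X y : ℝ)) *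
      (if some g.1 = some g.1 then -(((tq V C : ℚ) : ℝ) * (β g.1 g.2 + s * ((G g.1).th g.2 : ℝ))) else -H)
    rw [if_pos rfl]
    have h1 := (sB2_Zp hS hs hs1 g.1 y).1
    obtain ⟨_, _, h2, h3⟩ := sB2_b hG g y
    have h4 : β g.1 g.2 + s * ((G g.1).th g.2 : ℝ) ≤ 20 := by
      have h5 := (hS.β_box g.1 g.2).2
      have h6 : s * ((G g.1).th g.2 : ℝ) ≤ 1 * 16 :=
        mul_le_mul hs1 (hth g).2 (by linarith [(hth g).1]) (by norm_num)
      linarith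
    have h4' : 0 ≤ β g.1 g.2 + s * ((G g.1).th g.2 : ℝ) := by
      have h5 := (hS.β_box g.1 g.2).1
      have := (hth g).1
      positivity
    have h7 : ((tq V C : ℚ) : ℝ) * (β g.1 g.2 + s * ((G g.1).th g.2 : ℝ)) ≤ 1 / 400 * 20 :=
      mul_le_mul ht1 h4 h4' (by norm_num)
    have h7' : 0 ≤ ((tq V C : ℚ) : ℝ) * (β g.1 g.2 + s * ((G g.1).th g.2 : ℝ)) :=
      mul_nonneg ht.le h4'
    have h8 : ((tq V C : ℚ) : ℝ) * ((G g.1).a g.2 y : ℝ) / ((G g.1).X y : ℝ) ≤ 64 / 400 := by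
      linarith
    have h9 := mul_le_mul h8 h7 h7' (by norm_num)
    nlinarith [h9]
  · have h1 := hU e g T
    have h2 : (side2 G Zf β z s H U).evg e g T =
        -U - ∑ c ∈ T, (side2 G Zf β z s H 0).Y e c * (side2 G Zf β z s H 0).PG c g := rfl
    have h3 : ∀ y, (side2 G Zf β z s H U).evl e y T = (side2 G Zf β z s H 0).evl e y T :=
      fun y => rfl
    rw [h2]
    simp only [h3]
    have h4 : ((∑ y, |(side2 G Zf β z s H 0).evl e y T|) / ((nq V C : ℚ) : ℝ)) *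
        ((nq V C : ℚ) : ℝ) = ∑ y, |(side2 G Zf β z s H 0).evl e y T| :=
      div_mul_cancel₀ _ hν0.ne'
    have h5 := mul_lt_mul_of_pos_right h1 hν0
    rw [add_mul, h4] at h5
    linarith
  · obtain ⟨h1, _, h2, h3⟩ := gaps hG hS hs hs1 e
    show 0 < (if c = none then (1 : ℝ) else if c = some e.1 then ve G Zf z s e else te G Zf z s e)
    split_ifs
    · exact one_pos
    · exact h1
    · unfold te
      exact div_pos (lt_min (lt_min h2 h3) one_pos) (by positivity)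

end Pool.Agent.Helper63.UR
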