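import Mathlib
import Pool.Agent.Helper63.UR.SuffDefs

/-!
The signs of the comparators agree.
-/

namespace Pool.Agent.Helper63.UR

open Matrix Finset

variable {V C : Type} [Fintype V] [DecidableEq V] [Fintype C] [DecidableEq C]
variable {G : C → Gad V} {Zf : C → V → ℝ} {β : C → Bool → ℝ} {z : V → ℝ} {s : ℝ}

theorem sides_val (hG : ∀ c, (G c).Ok) (hS : Sols G Zf β z) (hs : 0 < s) (hs1 : s ≤ 1) (H U : ℝ)
    (g : C × Bool) (S : Finset V) :
    0 < (side1 G Zf s).val g S * (side2 G Zf β z s H U).val g S := by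
  have hX : ∀ y, (0 : ℝ) < (G g.1).X y := by
    intro y
    have h1 : (0 : ℚ) < (G g.1).X y := lt_of_lt_of_le (by norm_num) ((hG g.1).X_lo y)
    exact_mod_cast h1
  have hZp : ∀ y, 0 < Zp G Zf s g.1 y := by
    intro y
    have h1 : 0 < Zf g.1 y := lt_of_lt_of_le (by norm_num) (hS.Z_box g.1 y).1
    unfold Zp
    split_ifs <;> positivity
  have ht : (0 : ℝ) < (tq V C : ℝ) := by
    have h1 : (0 : ℚ) < tq V C := by
      unfold tq
      positivity
    exact_mod_cast h1
  set d : ℝ := ∑ y ∈ S, ((G g.1).a g.2 y : ℝ) - ((G g.1).th g.2 : ℝ) with hd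
  set W : ℝ := ∑ y ∈ S, ((G g.1).wt g.2 y : ℝ) * Zf g.1 y - β g.1 g.2 with hW
  have v1 : (side1 G Zf s).val g S = tq V C * d := by
    have h1 : ∀ y, (tq V C : ℝ) * ((G g.1).a g.2 y : ℝ) / ((G g.1).X y : ℝ) * ((G g.1).X y : ℝ) =
        tq V C * (G g.1).a g.2 y := fun y => div_mul_cancel₀ _ (hX y).ne'
    simp only [Side.val, side1, if_true, Option.elim, h1]
    rw [← Finset.mul_sum, hd]
    ring
  have v2 : (side2 G Zf β z s H U).val g S = tq V C * (W + s * d) := by
    have h1 : ∀ y, bG G Zf s g y * Zp G Zf s g.1 y =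
        tq V C * (((G g.1).wt g.2 y : ℝ) * Zf g.1 y + s * (G g.1).a g.2 y) :=
      fun y => div_mul_cancel₀ _ (hZp y).ne'
    simp only [Side.val, side2, if_true, Option.elim, h1]
    rw [← Finset.mul_sum, Finset.sum_add_distrib, ← Finset.mul_sum, hd, hW]
    ring
  rw [v1, v2]
  rcases lt_or_gt_of_ne ((hG g.1).ne g.2 S) with h | h
  · have h1 := hS.lo g.1 g.2 S h
    have h2 : d < 0 := by
      rw [hd, sub_neg]
      exact_mod_cast h
    have h3 : W ≤ 0 := by rw [hW]; linarith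
    have h4 : W + s * d < 0 := by nlinarith
    exact mul_pos_of_neg_of_neg (mul_neg_of_pos_of_neg ht h2) (mul_neg_of_pos_of_neg ht h4)
  · have h1 := hS.hi g.1 g.2 S h
    have h2 : 0 < d := by
      rw [hd, sub_pos]
      exact_mod_cast h
    have h3 : 0 ≤ W := by rw [hW]; linarith
    have h4 : 0 < W + s * d := by positivity
    exact mul_pos (mul_pos ht h2) (mul_pos ht h4)

end Pool.Agent.Helper63.UR
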