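import Mathlib
import Pool.Agent.Helper63.UR.SuffB1

/-!
The signs of the last block agree.
-/

namespace Pool.Agent.Helper63.UR

open Matrix Finset

variable {V C : Type} [Fintype V] [DecidableEq V] [Fintype C] [DecidableEq C]
variable {G : C → Gad V} {Zf : C → V → ℝ} {β : C → Bool → ℝ} {z : V → ℝ} {s : ℝ}

omit [Fintype C] in
private theorem split1_34 (f : Option C → ℝ) (T : Finset (Option C)) (a : Option C) :
    ∑ c ∈ T, f c = (if a ∈ T then f a else 0) + ∑ c ∈ T.erase a, f c := by
  split_ifs with h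
  · exact (Finset.add_sum_erase T f h).symm
  · rw [Finset.erase_eq_of_notMem h, zero_add]

omit [Fintype C] in
private theorem split2_34 (f : Option C → ℝ) (T : Finset (Option C)) (c₀ : C) :
    ∑ c ∈ T, f c = (if none ∈ T then f none else 0) + (if some c₀ ∈ T then f (some c₀) else 0) +
      ∑ c ∈ (T.erase none).erase (some c₀), f c := by
  rw [split1_34 f T none, split1_34 f (T.erase none) (some c₀)]
  have h : some c₀ ∈ T.erase none ↔ some c₀ ∈ T := by simp
  simp only [h]
  ring

private theorem rest34 (f : Option C → ℝ) (T : Finset (Option C)) (c₀ : C) (B : ℝ)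
    (hf : ∀ c, c ≠ c₀ → 0 ≤ f (some c) ∧ f (some c) ≤ B) (hB : 0 ≤ B) :
    0 ≤ ∑ c ∈ (T.erase none).erase (some c₀), f c ∧
      ∑ c ∈ (T.erase none).erase (some c₀), f c ≤ Fintype.card C * B := by
  have hc : ∀ c ∈ (T.erase none).erase (some c₀), 0 ≤ f c ∧ f c ≤ B := by
    intro c hc
    rw [Finset.mem_erase, Finset.mem_erase] at hc
    cases c with
    | none => exact absurd rfl hc.2.1
    | some c => exact hf c fun h => hc.1 (h ▸ rfl)
  refine ⟨Finset.sum_nonneg fun c h => (hc c h).1, ?_⟩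
  have hcard : ((T.erase none).erase (some c₀)).card ≤ Fintype.card C := by
    calc ((T.erase none).erase (some c₀)).card ≤ ((univ : Finset (Option C)).erase none).card := by
          refine Finset.card_le_card fun c hc => ?_
          rw [Finset.mem_erase, Finset.mem_erase] at hc
          exact Finset.mem_erase.2 ⟨hc.2.1, Finset.mem_univ _⟩
      _ = Fintype.card C := by
          rw [Finset.card_erase_of_mem (Finset.mem_univ _), Finset.card_univ, Fintype.card_option]
          rfl
  calc ∑ c ∈ (T.erase none).erase (some c₀), f c ≤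
        ∑ _c ∈ (T.erase none).erase (some c₀), B := Finset.sum_le_sum fun c h => (hc c h).2
    _ = ((T.erase none).erase (some c₀)).card * B := by rw [Finset.sum_const, nsmul_eq_mul]
    _ ≤ Fintype.card C * B := by
        refine mul_le_mul_of_nonneg_right ?_ hB
        exact_mod_cast hcard

theorem sides_evl (hG : ∀ c, (G c).Ok) (hS : Sols G Zf β z) (hs : 0 < s) (hs1 : s ≤ 1) (H U : ℝ)
    (e : C × Bool) (x : V) (T : Finset (Option C)) :
    0 < (side1 G Zf s).evl e x T * (side2 G Zf β z s H U).evl e x T := by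
  obtain ⟨hv0, hv4, hgl, hgr⟩ := gaps hG hS hs hs1 e
  obtain ⟨c₀, b⟩ := e
  obtain ⟨hz1, hz2⟩ := hS.z_box x
  have hX : ∀ c, (1 / 4 : ℝ) ≤ ((G c).X x : ℝ) ∧ ((G c).X x : ℝ) ≤ 4 := by
    intro c
    refine ⟨?_, ?_⟩
    · have h := (hG c).X_lo x
      have h' : ((1 / 4 : ℚ) : ℝ) ≤ ((G c).X x : ℝ) := by exact_mod_cast h
      have h3 : ((1 / 4 : ℚ) : ℝ) = 1 / 4 := by norm_num
      linarith
    · have h := (hG c).X_hi x
      exact_mod_cast h
  have hZp : ∀ c, 0 < Zp G Zf s c x ∧ Zp G Zf s c x ≤ 4 := by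
    intro c
    obtain ⟨h1, h2⟩ := hS.Z_box c x
    unfold Zp
    split_ifs
    · constructor
      · have : 0 < Zf c x := by linarith
        positivity
      · nlinarith
    · constructor <;> linarith
  have hcard : (0 : ℝ) ≤ Fintype.card C := by positivity
  have hsq : (sq C : ℝ) = 1 / (32 * ((Fintype.card C : ℝ) + 1)) := by
    unfold sq
    push_cast
    rfl
  have hsq0 : 0 < (sq C : ℝ) := by rw [hsq]; positivity
  have hsq1 : (Fintype.card C : ℝ) * (sq C * 4) ≤ 1 / 8 := by
    rw [hsq]
    have h1 : (0 : ℝ) < (Fintype.card C : ℝ) + 1 := by positivity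
    rw [one_div, mul_inv]
    have h2 : (Fintype.card C : ℝ) * ((Fintype.card C : ℝ) + 1)⁻¹ ≤ 1 := by
      rw [mul_inv_le_iff₀ h1]
      linarith
    nlinarith
  set v : ℝ := ve G Zf z s (c₀, b) with hv
  set t : ℝ := te G Zf z s (c₀, b) with ht
  set mn : ℝ := min (min (gl G Zf z s (c₀, b)) (gr G Zf z s (c₀, b))) 1 with hmn
  have hmn0 : 0 < mn := lt_min (lt_min hgl hgr) one_pos
  have hmnl : mn ≤ gl G Zf z s (c₀, b) := (min_le_left _ _).trans (min_le_left _ _)
  have hmnr : mn ≤ gr G Zf z s (c₀, b) := (min_le_left _ _).trans (min_le_right _ _)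
  have hmn1 : mn ≤ 1 := min_le_right _ _
  have hte : t = mn / (16 * ((Fintype.card C : ℝ) + 1)) := rfl
  have ht0 : 0 < t := by rw [hte]; positivity
  have ht1 : (Fintype.card C : ℝ) * (t * 4) ≤ mn / 4 := by
    rw [hte, div_eq_mul_inv, mul_inv]
    have h1 : (0 : ℝ) < (Fintype.card C : ℝ) + 1 := by positivity
    have h2 : (Fintype.card C : ℝ) * ((Fintype.card C : ℝ) + 1)⁻¹ ≤ 1 := by
      rw [mul_inv_le_iff₀ h1]
      linarith
    nlinarith
  -- the two values
  set R1 : ℝ := ∑ c ∈ (T.erase none).erase (some c₀),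
    (side1 G Zf s).Y (c₀, b) c * (side1 G Zf s).PV c x with hR1
  set R2 : ℝ := ∑ c ∈ (T.erase none).erase (some c₀),
    (side2 G Zf β z s H U).Y (c₀, b) c * (side2 G Zf β z s H U).PV c x with hR2
  have hR1b : 0 ≤ R1 ∧ R1 ≤ 1 / 8 := by
    obtain ⟨h1, h2⟩ := rest34 (fun c => (side1 G Zf s).Y (c₀, b) c * (side1 G Zf s).PV c x) T c₀
      (sq C * 4) (fun c hc => by
        have h3 : (side1 G Zf s).Y (c₀, b) (some c) = (sq C : ℝ) := by
          simp [side1, hc]
        have h4 : (side1 G Zf s).PV (some c) x = ((G c).X x : ℝ) := rfl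
        rw [h3, h4]
        obtain ⟨h5, h6⟩ := hX c
        constructor
        · have : (0 : ℝ) ≤ (G c).X x := by linarith
          positivity
        · exact mul_le_mul_of_nonneg_left h6 hsq0.le) (by positivity)
    exact ⟨h1, h2.trans hsq1⟩
  have hR2b : 0 ≤ R2 ∧ R2 ≤ mn / 4 := by
    obtain ⟨h1, h2⟩ := rest34 (fun c => (side2 G Zf β z s H U).Y (c₀, b) c *
        (side2 G Zf β z s H U).PV c x) T c₀ (t * 4) (fun c hc => by
        have h3 : (side2 G Zf β z s H U).Y (c₀, b) (some c) = t := by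
          simp [side2, hc, ht]
        have h4 : (side2 G Zf β z s H U).PV (some c) x = Zp G Zf s c x := rfl
        rw [h3, h4]
        obtain ⟨h5, h6⟩ := hZp c
        exact ⟨(mul_pos ht0 h5).le, mul_le_mul_of_nonneg_left h6 ht0.le⟩) (by positivity)
    exact ⟨h1, h2.trans ht1⟩
  have e1 : (side1 G Zf s).evl (c₀, b) x T = (side1 G Zf s).QV (c₀, b) x -
      ((if none ∈ T then 1 else 0) + (if some c₀ ∈ T then ((G c₀).X x : ℝ) else 0) + R1) := by
    unfold Side.evl
    rw [split2_34 (fun c => (side1 G Zf s).Y (c₀, b) c * (side1 G Zf s).PV c x) T c₀]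
    congr 2
    congr 1
    · simp [side1]
    · simp [side1]
  have e2 : (side2 G Zf β z s H U).evl (c₀, b) x T = (side2 G Zf β z s H U).QV (c₀, b) x -
      ((if none ∈ T then z x else 0) + (if some c₀ ∈ T then v * Zp G Zf s c₀ x else 0) + R2) := by
    unfold Side.evl
    rw [split2_34 (fun c => (side2 G Zf β z s H U).Y (c₀, b) c *
      (side2 G Zf β z s H U).PV c x) T c₀]
    congr 2
    congr 1
    · simp [side2]
    · simp [side2, hv]
  rw [e1, e2]
  obtain ⟨hx1, hx2⟩ := hX c₀
  obtain ⟨hp1, hp2⟩ := hZp c₀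
  have hvz : 0 < v * Zp G Zf s c₀ x := mul_pos hv0 hp1
  have hvz2 : v * Zp G Zf s c₀ x ≤ 16 := by nlinarith
  by_cases hl : x = (G c₀).el b
  · have hXx : ((G c₀).X x : ℝ) = 4 := by rw [hl, (hG c₀).X_el b]; norm_num
    have q1 : (side1 G Zf s).QV (c₀, b) x = 2 := by simp [side1, hl]
    have q2 : (side2 G Zf β z s H U).QV (c₀, b) x = (z x + v * Zp G Zf s c₀ x) / 2 := by
      rw [mul_comm v]
      simp [side2, hl, hv]
    have hg : gl G Zf z s (c₀, b) = v * Zp G Zf s c₀ x - z x := by
      unfold gl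
      rw [hl]
      ring
    rw [hg] at hmnl
    rw [q1, q2, hXx]
    clear_value t mn R1 R2
    generalize v * Zp G Zf s c₀ x = P at *
    by_cases h1 : some c₀ ∈ T
    · rw [if_pos h1, if_pos h1]
      refine mul_pos_of_neg_of_neg ?_ ?_
      · split_ifs <;> linarith [hR1b.1]
      · split_ifs <;> linarith [hR2b.1]
    · rw [if_neg h1, if_neg h1]
      refine mul_pos ?_ ?_
      · split_ifs <;> linarith [hR1b.2]
      · split_ifs <;> linarith [hR2b.2]
  · by_cases hr : x = (G c₀).er b
    · have hXx : ((G c₀).X x : ℝ) = 1 / 4 := by rw [hr, (hG c₀).X_er b]; norm_num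
      have q1 : (side1 G Zf s).QV (c₀, b) x = 1 / 2 := by
        simp only [side1]
        rw [if_neg hl, if_pos hr]
      have q2 : (side2 G Zf β z s H U).QV (c₀, b) x = (z x + v * Zp G Zf s c₀ x) / 2 := by
        rw [mul_comm v]
        simp only [side2]
        rw [if_neg hl, if_pos hr]
      have hg : gr G Zf z s (c₀, b) = z x - v * Zp G Zf s c₀ x := by
        unfold gr
        rw [hr]
        ring
      rw [hg] at hmnr
      rw [q1, q2, hXx]
      clear_value t mn R1 R2
      generalize v * Zp G Zf s c₀ x = P at *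
      by_cases h0 : none ∈ T
      · rw [if_pos h0, if_pos h0]
        refine mul_pos_of_neg_of_neg ?_ ?_
        · split_ifs <;> linarith [hR1b.1]
        · split_ifs <;> linarith [hR2b.1]
      · rw [if_neg h0, if_neg h0]
        refine mul_pos ?_ ?_
        · split_ifs <;> linarith [hR1b.2]
        · split_ifs <;> linarith [hR2b.2]
    · have q1 : (side1 G Zf s).QV (c₀, b) x = 10 := by
        simp only [side1]
        rw [if_neg hl, if_neg hr]
      have q2 : (side2 G Zf β z s H U).QV (c₀, b) x = 100 := by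
        simp only [side2]
        rw [if_neg hl, if_neg hr]
      rw [q1, q2]
      refine mul_pos ?_ ?_
      · split_ifs <;> linarith [hR1b.2]
      · split_ifs <;> linarith [hR2b.2]

end Pool.Agent.Helper63.UR
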