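import Mathlib
import Pool.Agent.Helper63.UR.GMr
import Pool.Agent.Helper63.UR.SuffA
import Pool.Agent.Helper63.UR.SuffB2
import Pool.Agent.Helper63.UR.SuffC1
import Pool.Agent.Helper63.UR.SuffC2
import Pool.Agent.Helper63.UR.SideB5

/-!
Exact solutions give limits of strict GKK matrices.
-/

namespace Pool.Agent.Helper63.UR

open Matrix Finset Filter Topology Pool.Agent.Helper5.GKK

variable {V C : Type} [Fintype V] [DecidableEq V] [Fintype C] [DecidableEq C]
variable {G : C → Gad V} {Zf : C → V → ℝ} {β : C → Bool → ℝ} {z : V → ℝ} {s : ℝ}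

theorem suff {n : ℕ} (hG : ∀ c, (G c).Ok) (hz : ∀ y, 1 / 2 ≤ z y ∧ z y ≤ 2)
    (h : ∀ c, (G c).Sol z) (e : Fin n ≃ Ix V C) : InL e (gMr G) := by
  choose Zf β h1 h2 h3 h4 using h
  have hS : Sols G Zf β z :=
    { z_box := hz
      Z_box := h1
      β_box := h2
      lo := fun c b S => (h3 c b S).1
      hi := fun c b S => (h3 c b S).2
      ord := h4 }
  refine InL.of_tendsto (l := 𝓝[>] (0 : ℝ)) e (M := fun s => (side1 G Zf s).mat)
    (tendsto_side1 hG h1) ?_
  have hev : ∀ᶠ s in 𝓝[>] (0 : ℝ), s ∈ Set.Ioo (0 : ℝ) 1 := Ioo_mem_nhdsGT one_pos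
  filter_upwards [hev] with s hs
  obtain ⟨H, U, hg⟩ := side2_good (s := s) hG hS hs.1 hs.2.le
  exact inL_of_sides e (side1_good hG h1 hs.1 hs.2.le) hg (fun _ _ => rfl) (fun _ _ => rfl)
    (fun g S _ => sides_val hG hS hs.1 hs.2.le H U g S)
    (fun e' x T => sides_evl hG hS hs.1 hs.2.le H U e' x T)

end Pool.Agent.Helper63.UR
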