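import Mathlib
import Pool.Agent.Helper63.UR.Defs

/-!
Exact solutions of the constraints solve the local systems.
-/

namespace Pool.Agent.Helper63.UR

open Finset

variable {V : Type} [Fintype V] [DecidableEq V]

private theorem sum_two30 {R : Type} [CommRing R] (S : Finset V) {i j : V} (hij : i ≠ j) (f : V → R)
    (h0 : ∀ y, y ≠ i → y ≠ j → f y = 0) :
    ∑ y ∈ S, f y = (if i ∈ S then f i else 0) + (if j ∈ S then f j else 0) := by
  have h1 : ∑ y ∈ S, f y = ∑ y, if y ∈ S then f y else 0 := by rw [Finset.sum_ite_mem, Finset.univ_inter]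
  rw [h1, Fintype.sum_eq_add i j hij]
  intro y hy
  rw [h0 y hy.1 hy.2, ite_self]

private theorem sum_three30 {R : Type} [CommRing R] (S : Finset V) {i j k : V} (hij : i ≠ j) (hik : i ≠ k)
    (hjk : j ≠ k) (f : V → R) (h0 : ∀ y, y ≠ i → y ≠ j → y ≠ k → f y = 0) :
    ∑ y ∈ S, f y = (if i ∈ S then f i else 0) + (if j ∈ S then f j else 0) +
      (if k ∈ S then f k else 0) := by
  have h1 : ∑ y ∈ S, f y = ∑ y, if y ∈ S then f y else 0 := by rw [Finset.sum_ite_mem, Finset.univ_inter]
  have h2 : ∑ y ∈ ({i, j, k} : Finset V), (if y ∈ S then f y else 0) = ∑ y, if y ∈ S then f y else 0 := by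
    refine Finset.sum_subset (Finset.subset_univ _) fun y _ hy => ?_
    simp only [Finset.mem_insert, Finset.mem_singleton, not_or] at hy
    rw [h0 y hy.1 hy.2.1 hy.2.2, ite_self]
  rw [h1, ← h2, Finset.sum_insert (by simp [hij, hik]), Finset.sum_insert (by simp [hjk]),
    Finset.sum_singleton, add_assoc]

theorem Con.sol_le {i j : V} {lam : ℚ} (hq : (Con.le i j lam).Dist) {z : V → ℝ}
    (hz : ∀ y, 1 / 2 ≤ z y ∧ z y ≤ 2) (h : z i ≤ lam * z j) : (Con.le i j lam).gad.Sol z := by
  have hij : i ≠ j := hq.1
  have zi := hz i
  refine ⟨z, fun b => if b then 1 else z i, hz, ?_, ?_, ?_⟩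
  · intro b
    cases b
    · simp only [Bool.false_eq_true, if_false]
      constructor <;> linarith
    · norm_num
  · intro b S
    cases b
    · have h1 : ∑ y ∈ S, (Con.le i j lam).gad.a false y =
          (if i ∈ S then 4 else 0) + (if j ∈ S then 16 else 0) := by
        rw [sum_two30 S hij]
        · simp [Con.gad, hij.symm]
        · intro y h1 h2
          simp [Con.gad, h1, h2]
      have h2 : ∑ y ∈ S, ((Con.le i j lam).gad.wt false y : ℝ) * z y =
          (if i ∈ S then z i else 0) + (if j ∈ S then lam * z j else 0) := by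
        rw [sum_two30 S hij]
        · simp [Con.gad, hij.symm]
        · intro y h1 h2
          simp [Con.gad, h1, h2]
      have h3 : (Con.le i j lam).gad.th false = 8 := by simp [Con.gad]
      rw [h1, h2, h3]
      simp only [Bool.false_eq_true, if_false]
      by_cases hi : i ∈ S <;> by_cases hj : j ∈ S <;> simp only [hi, hj, if_true, if_false] <;>
        constructor <;> intro h4 <;> linarith
    · have h1 : ∑ y ∈ S, (Con.le i j lam).gad.a true y = 0 := by simp [Con.gad]
      have h2 : ∑ y ∈ S, ((Con.le i j lam).gad.wt true y : ℝ) * z y = 0 := by simp [Con.gad]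
      have h3 : (Con.le i j lam).gad.th true = 1 := by simp [Con.gad]
      rw [h1, h2, h3]
      constructor
      · intro _
        norm_num
      · intro h4
        norm_num at h4
  · intro b
    exact (mul_comm _ _).le

theorem Con.sol_sub {i j k : V} (hq : (Con.sub i j k).Dist) {z : V → ℝ}
    (hz : ∀ y, 1 / 2 ≤ z y ∧ z y ≤ 2) (h : z i + z j = z k) : (Con.sub i j k).gad.Sol z := by
  obtain ⟨hij, hik, hjk⟩ := hq
  have zi := hz i
  have zj := hz j
  have zk := hz k
  refine ⟨z, fun b => if b then 1 else z k, hz, ?_, ?_, ?_⟩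
  · intro b
    cases b
    · simp only [Bool.false_eq_true, if_false]
      constructor <;> linarith
    · norm_num
  · intro b S
    cases b
    · have h1 : ∑ y ∈ S, (Con.sub i j k).gad.a false y =
          (if i ∈ S then 4 else 0) + (if j ∈ S then 4 else 0) + (if k ∈ S then 4 else 0) := by
        rw [sum_three30 S hij hik hjk]
        · simp [Con.gad, hij.symm, hik.symm, hjk.symm]
        · intro y h1 h2 h3
          simp [Con.gad, h1, h2, h3]
      have h2 : ∑ y ∈ S, ((Con.sub i j k).gad.wt false y : ℝ) * z y =
          (if i ∈ S then z i else 0) + (if j ∈ S then z j else 0) + (if k ∈ S then z k else 0) := by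
        rw [sum_three30 S hij hik hjk]
        · simp [Con.gad, hij.symm, hik.symm, hjk.symm]
        · intro y h1 h2 h3
          simp [Con.gad, h1, h2, h3]
      have h3 : (Con.sub i j k).gad.th false = 6 := by simp [Con.gad]
      rw [h1, h2, h3]
      simp only [Bool.false_eq_true, if_false]
      by_cases hi : i ∈ S <;> by_cases hj : j ∈ S <;> by_cases hk : k ∈ S <;>
        simp only [hi, hj, hk, if_true, if_false] <;>
        constructor <;> intro h4 <;> linarith
    · have h1 : ∑ y ∈ S, (Con.sub i j k).gad.a true y = 0 := by simp [Con.gad]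
      have h2 : ∑ y ∈ S, ((Con.sub i j k).gad.wt true y : ℝ) * z y = 0 := by simp [Con.gad]
      have h3 : (Con.sub i j k).gad.th true = 1 := by simp [Con.gad]
      rw [h1, h2, h3]
      constructor
      · intro _
        norm_num
      · intro h4
        norm_num at h4
  · intro b
    exact (mul_comm _ _).le

theorem Con.sol_sup {i j k : V} (hq : (Con.sup i j k).Dist) {z : V → ℝ}
    (hz : ∀ y, 1 / 2 ≤ z y ∧ z y ≤ 2) (h : z i + z j = z k) : (Con.sup i j k).gad.Sol z := by
  obtain ⟨hij, hik, hjk⟩ := hq
  have zi := hz i
  have zj := hz j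
  have zk := hz k
  refine ⟨z, fun b => if b then 1 else z k, hz, ?_, ?_, ?_⟩
  · intro b
    cases b
    · simp only [Bool.false_eq_true, if_false]
      constructor <;> linarith
    · norm_num
  · intro b S
    cases b
    · have h1 : ∑ y ∈ S, (Con.sup i j k).gad.a false y =
          (if i ∈ S then 4 else 0) + (if j ∈ S then 4 else 0) + (if k ∈ S then 16 else 0) := by
        rw [sum_three30 S hij hik hjk]
        · simp [Con.gad, hij.symm, hik.symm, hjk.symm]
        · intro y h1 h2 h3
          simp [Con.gad, h1, h2, h3]
      have h2 : ∑ y ∈ S, ((Con.sup i j k).gad.wt false y : ℝ) * z y =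
          (if i ∈ S then z i else 0) + (if j ∈ S then z j else 0) + (if k ∈ S then z k else 0) := by
        rw [sum_three30 S hij hik hjk]
        · simp [Con.gad, hij.symm, hik.symm, hjk.symm]
        · intro y h1 h2 h3
          simp [Con.gad, h1, h2, h3]
      have h3 : (Con.sup i j k).gad.th false = 12 := by simp [Con.gad]
      rw [h1, h2, h3]
      simp only [Bool.false_eq_true, if_false]
      by_cases hi : i ∈ S <;> by_cases hj : j ∈ S <;> by_cases hk : k ∈ S <;>
        simp only [hi, hj, hk, if_true, if_false] <;>
        constructor <;> intro h4 <;> linarith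
    · have h1 : ∑ y ∈ S, (Con.sup i j k).gad.a true y = 0 := by simp [Con.gad]
      have h2 : ∑ y ∈ S, ((Con.sup i j k).gad.wt true y : ℝ) * z y = 0 := by simp [Con.gad]
      have h3 : (Con.sup i j k).gad.th true = 1 := by simp [Con.gad]
      rw [h1, h2, h3]
      constructor
      · intro _
        norm_num
      · intro h4
        norm_num at h4
  · intro b
    exact (mul_comm _ _).le

theorem Con.sol_mul {w v x y : V} (hq : (Con.mul w v x y).Dist) {z : V → ℝ}
    (hz : ∀ y, 1 / 2 ≤ z y ∧ z y ≤ 2) (h : z w * z v ≤ z x * z y) :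
    (Con.mul w v x y).gad.Sol z := by
  obtain ⟨hwv, hwx, hwy, hvx, hvy, hxy⟩ := hq
  have zw := hz w
  have zy := hz y
  set Z : V → ℝ := fun q => if q = w then z w else if q = x then z w else if q = v then z y else
    if q = y then z y else z q with hZ
  have Zw : Z w = z w := by simp [hZ]
  have Zx : Z x = z w := by simp [hZ]
  have Zv : Z v = z y := by simp [hZ, hwv.symm, hvx]
  have Zy : Z y = z y := by simp [hZ, hwy.symm, hxy.symm]
  refine ⟨Z, fun b => if b then z y else z w, ?_, ?_, ?_, ?_⟩
  · intro q
    rw [hZ]
    dsimp only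
    split_ifs
    · exact hz w
    · exact hz w
    · exact hz y
    · exact hz y
    · exact hz q
  · intro b
    cases b
    · simp only [Bool.false_eq_true, if_false]
      constructor <;> linarith
    · simp only [if_true]
      constructor <;> linarith
  · intro b S
    cases b
    · have h1 : ∑ y' ∈ S, (Con.mul w v x y).gad.a false y' =
          (if w ∈ S then 4 else 0) + (if x ∈ S then 16 else 0) := by
        rw [sum_two30 S hwx]
        · simp [Con.gad, hwx.symm]
        · intro y h1 h2
          simp [Con.gad, h1, h2]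
      have h2 : ∑ y' ∈ S, ((Con.mul w v x y).gad.wt false y' : ℝ) * Z y' =
          (if w ∈ S then z w else 0) + (if x ∈ S then z w else 0) := by
        rw [sum_two30 S hwx, Zw, Zx]
        · simp [Con.gad]
        · intro y h1 h2
          simp [Con.gad, h1, h2]
      have h3 : (Con.mul w v x y).gad.th false = 8 := by simp [Con.gad]
      rw [h1, h2, h3]
      simp only [Bool.false_eq_true, if_false]
      by_cases hw : w ∈ S <;> by_cases hx : x ∈ S <;>
        simp only [hw, hx, if_true, if_false] <;>
        constructor <;> intro h4 <;> linarith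
    · have h1 : ∑ y' ∈ S, (Con.mul w v x y).gad.a true y' =
          (if v ∈ S then 4 else 0) + (if y ∈ S then 16 else 0) := by
        rw [sum_two30 S hvy]
        · simp [Con.gad, hvy.symm]
        · intro y h1 h2
          simp [Con.gad, h1, h2]
      have h2 : ∑ y' ∈ S, ((Con.mul w v x y).gad.wt true y' : ℝ) * Z y' =
          (if v ∈ S then z y else 0) + (if y ∈ S then z y else 0) := by
        rw [sum_two30 S hvy, Zv, Zy]
        · simp [Con.gad]
        · intro y h1 h2
          simp [Con.gad, h1, h2]
      have h3 : (Con.mul w v x y).gad.th true = 8 := by simp [Con.gad]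
      rw [h1, h2, h3]
      simp only [if_true]
      by_cases hv : v ∈ S <;> by_cases hy : y ∈ S <;>
        simp only [hv, hy, if_true, if_false] <;>
        constructor <;> intro h4 <;> linarith
  · intro b
    cases b
    · have h1 : (Con.mul w v x y).gad.el false = w := by simp [Con.gad]
      have h2 : (Con.mul w v x y).gad.er false = y := by simp [Con.gad]
      rw [h1, h2, Zw, Zy, mul_comm]
    · have h1 : (Con.mul w v x y).gad.el true = v := by simp [Con.gad]
      have h2 : (Con.mul w v x y).gad.er true = x := by simp [Con.gad]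
      rw [h1, h2, Zv, Zx, mul_comm]
      exact h

end Pool.Agent.Helper63.UR
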