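import Mathlib
import Pool.Agent.Helper63.UR.Defs

/-!
Systems of equations and their constraints.
-/

namespace Pool.Agent.Helper63.UR

open Matrix Finset Pool.Agent.Helper5.GKK

variable {n m : ℕ} {S : Fin m → Eqn n}

instance instDecCIx : DecidableEq (CIx n m) := inferInstance

instance instDecIx {V C : Type} [DecidableEq V] [DecidableEq C] : DecidableEq (Ix V C) :=
  inferInstance

private theorem cpy_ne26 (q : Fin m) {r r' : Fin 4} (h : r ≠ r') :
    (cpy q r : Var n m) ≠ cpy q r' := by
  intro h1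
  unfold cpy at h1
  have h2 := Option.some.inj h1
  have h3 := Sum.inr.inj h2
  exact h (Prod.mk.inj h3).2

private theorem cpy_ne_old26 (q : Fin m) (r : Fin 4) (o : Option (Fin n)) :
    (cpy q r : Var n m) ≠ old o := by
  intro h1
  cases o with
  | none => exact absurd h1 (by simp [cpy, old])
  | some i => exact absurd h1 (by simp [cpy, old])

theorem cons_dist (S : Fin m → Eqn n) (q : CIx n m) : (cons S q).Dist := by
  have c01 : (0 : Fin 4) ≠ 1 := by decide
  have c02 : (0 : Fin 4) ≠ 2 := by decide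
  have c03 : (0 : Fin 4) ≠ 3 := by decide
  have c12 : (1 : Fin 4) ≠ 2 := by decide
  have c13 : (1 : Fin 4) ≠ 3 := by decide
  have c23 : (2 : Fin 4) ≠ 3 := by decide
  rcases q with ⟨q, b⟩ | ⟨⟨q, r⟩, b⟩ | ⟨u, b⟩
  · cases hS : S q with
    | add i j k =>
      cases b
      · have h1 : cons S (Sum.inl (q, false)) = .sub (cpy q 0) (cpy q 1) (cpy q 2) := by
          simp only [cons, hS]
          rfl
        rw [h1]
        exact ⟨cpy_ne26 q c01, cpy_ne26 q c02, cpy_ne26 q c12⟩
      · have h1 : cons S (Sum.inl (q, true)) = .sup (cpy q 0) (cpy q 1) (cpy q 2) := by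
          simp only [cons, hS]
          rfl
        rw [h1]
        exact ⟨cpy_ne26 q c01, cpy_ne26 q c02, cpy_ne26 q c12⟩
    | mul w v x y =>
      cases b
      · have h1 : cons S (Sum.inl (q, false)) = .mul (cpy q 2) (cpy q 3) (cpy q 0) (cpy q 1) := by
          simp only [cons, hS]
          rfl
        rw [h1]
        exact ⟨cpy_ne26 q c23, cpy_ne26 q c02.symm, cpy_ne26 q c12.symm, cpy_ne26 q c03.symm,
          cpy_ne26 q c13.symm, cpy_ne26 q c01⟩
      · have h1 : cons S (Sum.inl (q, true)) = .mul (cpy q 0) (cpy q 1) (cpy q 2) (cpy q 3) := by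
          simp only [cons, hS]
          rfl
        rw [h1]
        exact ⟨cpy_ne26 q c01, cpy_ne26 q c02, cpy_ne26 q c03, cpy_ne26 q c12, cpy_ne26 q c13,
          cpy_ne26 q c23⟩
  · cases b
    · have h1 : cons S (Sum.inr (Sum.inl ((q, r), false))) =
          .le (old ((S q).slot r)) (cpy q r) 1 := rfl
      rw [h1]
      exact ⟨(cpy_ne_old26 q r _).symm, le_rfl, by norm_num⟩
    · have h1 : cons S (Sum.inr (Sum.inl ((q, r), true))) =
          .le (cpy q r) (old ((S q).slot r)) 1 := rfl
      rw [h1]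
      exact ⟨cpy_ne_old26 q r _, le_rfl, by norm_num⟩
  · cases b
    · have h1 : cons S (Sum.inr (Sum.inr (u, false))) = .le none (some u) 2 := rfl
      rw [h1]
      exact ⟨(Option.some_ne_none u).symm, by norm_num, le_rfl⟩
    · have h1 : cons S (Sum.inr (Sum.inr (u, true))) = .le (some u) none 2 := rfl
      rw [h1]
      exact ⟨Option.some_ne_none u, by norm_num, le_rfl⟩

theorem cons_box (S : Fin m → Eqn n) (v : Var n m) (hv : v ≠ none) :
    (∃ q, cons S q = .le v none 2) ∧ ∃ q, cons S q = .le none v 2 := by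
  cases v with
  | none => exact absurd rfl hv
  | some u => exact ⟨⟨Sum.inr (Sum.inr (u, true)), rfl⟩, Sum.inr (Sum.inr (u, false)), rfl⟩

/-- solutions of the constraints give solutions of the equations -/
theorem solves_of_holds {z : Var n m → ℝ} (h0 : z none = 1) (h : ∀ q, (cons S q).Holds 0 z)
    (q : Fin m) : (S q).Solves fun i => z (some (Sum.inl i)) := by
  have hev : ∀ o : Option (Fin n), ev (fun i => z (some (Sum.inl i))) o = z (old o) := by
    intro o
    cases o with
    | none => exact h0.symm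
    | some i => rfl
  have hcpy : ∀ r : Fin 4, z (cpy q r) = z (old ((S q).slot r)) := by
    intro r
    have h1 : z (cpy q r) ≤ (1 + 0) * ((1 : ℚ) * z (old ((S q).slot r))) :=
      h (Sum.inr (Sum.inl ((q, r), true)))
    have h2 : z (old ((S q).slot r)) ≤ (1 + 0) * ((1 : ℚ) * z (cpy q r)) :=
      h (Sum.inr (Sum.inl ((q, r), false)))
    push_cast at h1 h2
    linarith
  have ht := h (Sum.inl (q, true))
  have hf := h (Sum.inl (q, false))
  cases hS : S q with
  | add i j k =>
    have e1 : cons S (Sum.inl (q, false)) = .sub (cpy q 0) (cpy q 1) (cpy q 2) := by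
      simp only [cons, hS]
      rfl
    have e2 : cons S (Sum.inl (q, true)) = .sup (cpy q 0) (cpy q 1) (cpy q 2) := by
      simp only [cons, hS]
      rfl
    rw [e1] at hf
    rw [e2] at ht
    have h3 : z (cpy q 2) ≤ (1 + 0) * (z (cpy q 0) + z (cpy q 1)) := hf
    have h4 : z (cpy q 0) + z (cpy q 1) ≤ (1 + 0) * z (cpy q 2) := ht
    rw [hcpy 0, hcpy 1, hcpy 2, hS] at h3 h4
    have f0 : (Eqn.add i j k).slot 0 = i := rfl
    have f1 : (Eqn.add i j k).slot 1 = j := rfl
    have f2 : (Eqn.add i j k).slot 2 = k := rfl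
    rw [f0, f1, f2] at h3 h4
    show ev (fun i => z (some (Sum.inl i))) i + ev (fun i => z (some (Sum.inl i))) j =
      ev (fun i => z (some (Sum.inl i))) k
    rw [hev, hev, hev]
    linarith
  | mul w v x y =>
    have e1 : cons S (Sum.inl (q, false)) = .mul (cpy q 2) (cpy q 3) (cpy q 0) (cpy q 1) := by
      simp only [cons, hS]
      rfl
    have e2 : cons S (Sum.inl (q, true)) = .mul (cpy q 0) (cpy q 1) (cpy q 2) (cpy q 3) := by
      simp only [cons, hS]
      rfl
    rw [e1] at hf
    rw [e2] at ht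
    have h3 : z (cpy q 2) * z (cpy q 3) ≤ (1 + 0) * (z (cpy q 0) * z (cpy q 1)) := hf
    have h4 : z (cpy q 0) * z (cpy q 1) ≤ (1 + 0) * (z (cpy q 2) * z (cpy q 3)) := ht
    rw [hcpy 0, hcpy 1, hcpy 2, hcpy 3, hS] at h3 h4
    have f0 : (Eqn.mul w v x y).slot 0 = w := rfl
    have f1 : (Eqn.mul w v x y).slot 1 = v := rfl
    have f2 : (Eqn.mul w v x y).slot 2 = x := rfl
    have f3 : (Eqn.mul w v x y).slot 3 = y := rfl
    rw [f0, f1, f2, f3] at h3 h4
    show ev (fun i => z (some (Sum.inl i))) w * ev (fun i => z (some (Sum.inl i))) v =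
      ev (fun i => z (some (Sum.inl i))) x * ev (fun i => z (some (Sum.inl i))) y
    rw [hev, hev, hev, hev]
    linarith

/-- the extension of `z` to all variables -/
def ext (S : Fin m → Eqn n) (z : Fin n → ℝ) : Var n m → ℝ
  | none => 1
  | some (Sum.inl i) => z i
  | some (Sum.inr (q, r)) => ev z ((S q).slot r)

theorem ext_box {z : Fin n → ℝ} (hz : ∀ i, 1 / 2 ≤ z i ∧ z i ≤ 2) (v : Var n m) :
    1 / 2 ≤ ext S z v ∧ ext S z v ≤ 2 := by
  have h1 : ∀ o : Option (Fin n), 1 / 2 ≤ ev z o ∧ ev z o ≤ 2 := by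
    intro o
    cases o with
    | none =>
      show 1 / 2 ≤ (1 : ℝ) ∧ (1 : ℝ) ≤ 2
      constructor <;> norm_num
    | some i => exact hz i
  rcases v with _ | i | ⟨q, r⟩
  · exact h1 none
  · exact hz i
  · exact h1 _

end Pool.Agent.Helper63.UR
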