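import Mathlib
import Pool.Agent.Helper63.UR.Sys
import Pool.Agent.Helper63.UR.Gad2

/-!
Solutions of the equations solve all local systems.
-/

namespace Pool.Agent.Helper63.UR

open Matrix Finset Pool.Agent.Helper5.GKK

variable {n m : ℕ} {S : Fin m → Eqn n}

theorem ext_cpy99 (S : Fin m → Eqn n) (z : Fin n → ℝ) (q : Fin m) (r : Fin 4) :
    ext S z (cpy q r) = ev z ((S q).slot r) := rfl

theorem ext_old99 (S : Fin m → Eqn n) (z : Fin n → ℝ) (o : Option (Fin n)) :
    ext S z (old o) = ev z o := by
  cases o <;> rfl

theorem sol_of_solves {z : Fin n → ℝ} (hz : ∀ i, 1 / 2 ≤ z i ∧ z i ≤ 2)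
    (h : ∀ q, (S q).Solves z) (q : CIx n m) : (cons S q).gad.Sol (ext S z) := by
  have hb := ext_box (S := S) hz
  have hd := cons_dist S q
  rcases q with ⟨q, b⟩ | ⟨⟨q, r⟩, b⟩ | ⟨u, b⟩
  · have hs := h q
    rcases hq : S q with ⟨i, j, k⟩ | ⟨w, v, x, y⟩
    · have e0 : ext S z (cpy q 0) = ev z i := by
        rw [ext_cpy99, hq]
        rfl
      have e1 : ext S z (cpy q 1) = ev z j := by
        rw [ext_cpy99, hq]
        rfl
      have e2 : ext S z (cpy q 2) = ev z k := by
        rw [ext_cpy99, hq]
        rfl
      rw [hq] at hs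
      have hs' : ev z i + ev z j = ev z k := hs
      cases b
      · have e : cons S (Sum.inl (q, false)) = .sub (cpy q 0) (cpy q 1) (cpy q 2) := by
          simp [cons, hq]
        rw [e] at hd ⊢
        exact Con.sol_sub hd hb (by rw [e0, e1, e2, hs'])
      · have e : cons S (Sum.inl (q, true)) = .sup (cpy q 0) (cpy q 1) (cpy q 2) := by
          simp [cons, hq]
        rw [e] at hd ⊢
        exact Con.sol_sup hd hb (by rw [e0, e1, e2, hs'])
    · have e0 : ext S z (cpy q 0) = ev z w := by
        rw [ext_cpy99, hq]
        rfl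
      have e1 : ext S z (cpy q 1) = ev z v := by
        rw [ext_cpy99, hq]
        rfl
      have e2 : ext S z (cpy q 2) = ev z x := by
        rw [ext_cpy99, hq]
        rfl
      have e3 : ext S z (cpy q 3) = ev z y := by
        rw [ext_cpy99, hq]
        rfl
      rw [hq] at hs
      have hs' : ev z w * ev z v = ev z x * ev z y := hs
      cases b
      · have e : cons S (Sum.inl (q, false)) = .mul (cpy q 2) (cpy q 3) (cpy q 0) (cpy q 1) := by
          simp [cons, hq]
        rw [e] at hd ⊢
        exact Con.sol_mul hd hb (by rw [e0, e1, e2, e3, hs'])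
      · have e : cons S (Sum.inl (q, true)) = .mul (cpy q 0) (cpy q 1) (cpy q 2) (cpy q 3) := by
          simp [cons, hq]
        rw [e] at hd ⊢
        exact Con.sol_mul hd hb (by rw [e0, e1, e2, e3, hs'])
  · have e0 : ext S z (cpy q r) = ext S z (old ((S q).slot r)) := by
      rw [ext_cpy99, ext_old99]
    cases b
    · have e : cons S (Sum.inr (Sum.inl ((q, r), false))) = .le (old ((S q).slot r)) (cpy q r) 1 := by
        simp [cons]
      rw [e] at hd ⊢
      refine Con.sol_le hd hb ?_
      rw [e0, Rat.cast_one, one_mul]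
    · have e : cons S (Sum.inr (Sum.inl ((q, r), true))) = .le (cpy q r) (old ((S q).slot r)) 1 := by
        simp [cons]
      rw [e] at hd ⊢
      refine Con.sol_le hd hb ?_
      rw [e0, Rat.cast_one, one_mul]
  · have e0 : ext S z none = 1 := rfl
    cases b
    · have e : cons S (Sum.inr (Sum.inr (u, false))) = .le none (some u) 2 := by
        simp [cons]
      rw [e] at hd ⊢
      refine Con.sol_le hd hb ?_
      rw [e0]
      have := (hb (some u)).1
      push_cast
      linarith
    · have e : cons S (Sum.inr (Sum.inr (u, true))) = .le (some u) none 2 := by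
        simp [cons]
      rw [e] at hd ⊢
      refine Con.sol_le hd hb ?_
      rw [e0]
      have := (hb (some u)).2
      push_cast
      linarith

end Pool.Agent.Helper63.UR
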