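import Mathlib
import Pool.Agent.Helper63.UR.Suff
import Pool.Agent.Helper63.UR.Nec5
import Pool.Agent.Helper63.UR.Opp1
import Pool.Agent.Helper63.UR.Gad1
import Pool.Agent.Helper63.UR.Gad3
import Pool.Agent.Helper63.UR.Cpt
import Pool.Agent.Helper63.UR.Sys2

/-!
Universality.
-/

namespace Pool.Agent.Helper63.UR

open Matrix Finset Pool.Agent.Helper5.GKK

variable {n m : ℕ} {S : Fin m → Eqn n}

theorem Con.Holds.mono {V : Type} {q : Con V} (hq : q.Dist) {ε ε' : ℝ} (hε : ε ≤ ε') {z : V → ℝ}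
    (hz : ∀ y, 0 < z y) (h : q.Holds ε z) : q.Holds ε' z := by
  cases q with
  | le i j lam =>
    have hl : (1 : ℝ) ≤ lam := by exact_mod_cast hq.2.1
    have h1 : 0 ≤ (lam : ℝ) * z j := mul_nonneg (by linarith) (hz j).le
    exact le_trans h (mul_le_mul_of_nonneg_right (by linarith) h1)
  | sub i j k =>
    have h1 : 0 ≤ z i + z j := add_nonneg (hz i).le (hz j).le
    exact le_trans h (mul_le_mul_of_nonneg_right (by linarith) h1)
  | sup i j k =>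
    exact le_trans h (mul_le_mul_of_nonneg_right (by linarith) (hz k).le)
  | mul w v x y =>
    have h1 : 0 ≤ z x * z y := mul_nonneg (hz x).le (hz y).le
    exact le_trans h (mul_le_mul_of_nonneg_right (by linarith) h1)

theorem exists_delta {ε : ℝ} (hε : 0 < ε) : ∃ δ : ℝ, 0 < δ ∧ (1 + δ) ^ 6 - 1 ≤ ε := by
  refine ⟨min 1 (ε / 63), by positivity, ?_⟩
  have h1 : min 1 (ε / 63) ≤ 1 := min_le_left _ _
  have h2 : min 1 (ε / 63) ≤ ε / 63 := min_le_right _ _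
  have h0 : 0 < min 1 (ε / 63) := by positivity
  set δ := min 1 (ε / 63)
  have e : (1 + δ) ^ 6 - 1 = δ * (6 + 15 * δ + 20 * δ ^ 2 + 15 * δ ^ 3 + 6 * δ ^ 4 + δ ^ 5) := by ring
  have h3 : 6 + 15 * δ + 20 * δ ^ 2 + 15 * δ ^ 3 + 6 * δ ^ 4 + δ ^ 5 ≤ 63 := by
    have : δ ^ 2 ≤ 1 := pow_le_one₀ h0.le h1
    have : δ ^ 3 ≤ 1 := pow_le_one₀ h0.le h1
    have : δ ^ 4 ≤ 1 := pow_le_one₀ h0.le h1
    have : δ ^ 5 ≤ 1 := pow_le_one₀ h0.le h1
    linarith
  rw [e]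
  calc _ ≤ δ * 63 := mul_le_mul_of_nonneg_left h3 h0.le
    _ ≤ ε := by linarith

/-- **Universality.** -/
theorem etr_main (S : Fin m → Eqn n) {N : ℕ} (c : Fin N ≃ Ix (Var n m) (CIx n m))
    (A : Matrix (Fin N) (Fin N) ℂ) (hA : ∀ x y, A x y = ((etrM S (c x) (c y) : ℚ) : ℂ)) :
    IsGKK A ∧ (A ∈ closure {B : Matrix (Fin N) (Fin N) ℂ | IsStrictGKK B} ↔
      ∃ z : Fin n → ℝ, (∀ i, 1 / 2 ≤ z i ∧ z i ≤ 2) ∧ ∀ q, (S q).Solves z) := by
  have hAc : A = cm c (gMr fun q => (cons S q).gad) := by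
    ext x y
    rw [hA]
    simp [cm, gMr, etrM]
  have hok : ∀ q, ((cons S q).gad).Ok := fun q => Con.ok _ (cons_dist S q)
  refine ⟨?_, ?_, ?_⟩
  · rw [hAc]
    exact LBM.isGKK c (gMr_lbm hok)
  · intro h
    rw [hAc] at h
    obtain ⟨z, h0, hbox, hz⟩ := exists_exact (cons S) none (cons_box S) (by
      intro ε hε
      obtain ⟨δ, hδ, hδε⟩ := exists_delta hε
      obtain ⟨z, hz, hr⟩ := nec hok (e := c) h hδ
      refine ⟨z, hz, fun q => ?_⟩
      exact Con.Holds.mono (cons_dist S q) hδε hz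
        (Con.holds_of_rel _ (cons_dist S q) hδ hz (hr q)))
    exact ⟨fun i => z (some (Sum.inl i)), fun i => hbox _, solves_of_holds h0 hz⟩
  · rintro ⟨z, hbox, hz⟩
    rw [hAc]
    exact suff hok (ext_box hbox) (sol_of_solves hbox hz) c

end Pool.Agent.Helper63.UR
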