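import Mathlib

/-!
GKK matrices and the explicit matrices attached to systems of equations `x + y = z`, `w v = x y`.
-/

namespace Pool.Agent.Helper63.URS

open Matrix Finset
open scoped ComplexOrder

/-! ### GKK matrices -/

/-- The minor `A[α,β]`. -/
noncomputable def minor {n k : ℕ} (A : Matrix (Fin n) (Fin n) ℂ) (α β : Fin k → Fin n) : ℂ :=
  (A.submatrix α β).det

/-- `α` and `β` are increasing sequences of the same length `k` with `k - 1` common entries. -/
def AlmostPrincipal {n k : ℕ} (α β : Fin k → Fin n) : Prop :=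
  StrictMono α ∧ StrictMono β ∧ (univ.image α ∩ univ.image β).card + 1 = k

/-- Every principal minor of `A` is real and positive. -/
def IsPMatrix {n : ℕ} (A : Matrix (Fin n) (Fin n) ℂ) : Prop :=
  ∀ (k : ℕ) (α : Fin k → Fin n), StrictMono α → 0 < minor A α α

/-- `A` is a `P`-matrix with `A[α,β] A[β,α] ≥ 0` for all almost principal minors. -/
def IsGKK {n : ℕ} (A : Matrix (Fin n) (Fin n) ℂ) : Prop :=
  IsPMatrix A ∧ ∀ (k : ℕ) (α β : Fin k → Fin n), AlmostPrincipal α β →
    0 ≤ minor A α β * minor A β α

/-- `A` is a `P`-matrix with `A[α,β] A[β,α] > 0` for all almost principal minors. -/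
def IsStrictGKK {n : ℕ} (A : Matrix (Fin n) (Fin n) ℂ) : Prop :=
  IsPMatrix A ∧ ∀ (k : ℕ) (α β : Fin k → Fin n), AlmostPrincipal α β →
    0 < minor A α β * minor A β α

/-! ### Equations -/

/-- An equation in the unknowns `z i`, `i < n`, and the constant `1` (the place `none`): its four
places are `p 0, …, p 3`. If `add` is true it is `z_(p 0) + z_(p 1) = z_(p 2)` (the place `p 3` is
not used), otherwise `z_(p 0) * z_(p 1) = z_(p 2) * z_(p 3)`. -/
structure Eqn (n : ℕ) where
  add : Bool
  p : Fin 4 → Option (Fin n)

/-- the value at a place -/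
def ev {n : ℕ} (z : Fin n → ℝ) (u : Option (Fin n)) : ℝ := u.elim 1 z

/-- `z` solves the equation `q` -/
def Eqn.Solves {n : ℕ} (q : Eqn n) (z : Fin n → ℝ) : Prop :=
  if q.add then ev z (q.p 0) + ev z (q.p 1) = ev z (q.p 2)
  else ev z (q.p 0) * ev z (q.p 1) = ev z (q.p 2) * ev z (q.p 3)

/-! ### Gadgets -/

/-- The data of one column: the entries `X` of its row, two comparators (weights `wt`, `a`,
threshold `th`) and two pairs `(el, er)`. -/
structure Gad (V : Type) where
  X : V → ℚ
  wt : Bool → V → ℚ
  a : Bool → V → ℚ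
  th : Bool → ℚ
  el : Bool → V
  er : Bool → V

variable {V : Type} [DecidableEq V]

/-- the gadget of `z i ≤ k * z j` -/
def gLe (i j : V) (k : ℚ) : Gad V where
  X y := if y = i then 4 else if y = j then 1 / 4 else 1
  wt b y := if b then 0 else if y = i then 1 else if y = j then k else 0
  a b y := if b then 0 else if y = i then 4 else if y = j then 16 else 0
  th b := if b then 1 else 8
  el _ := i
  er _ := j

/-- the gadget of `z k ≤ z i + z j` -/
def gSub (i j k : V) : Gad V where
  X y := if y = k then 4 else if y = i ∨ y = j then 1 / 4 else 1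
  wt b y := if b then 0 else if y = i ∨ y = j ∨ y = k then 1 else 0
  a b y := if b then 0 else if y = i ∨ y = j ∨ y = k then 4 else 0
  th b := if b then 1 else 6
  el _ := k
  er b := if b then j else i

/-- the gadget of `z i + z j ≤ z k` -/
def gSup (i j k : V) : Gad V where
  X y := if y = k then 1 / 4 else if y = i ∨ y = j then 4 else 1
  wt b y := if b then 0 else if y = i ∨ y = j ∨ y = k then 1 else 0
  a b y := if b then 0 else if y = i ∨ y = j then 4 else if y = k then 16 else 0
  th b := if b then 1 else 12
  el b := if b then j else i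
  er _ := k

/-- the gadget of `z w * z v ≤ z x * z y` -/
def gMul (w v x y : V) : Gad V where
  X u := if u = w ∨ u = v then 4 else if u = x ∨ u = y then 1 / 4 else 1
  wt b u := if b then (if u = v ∨ u = y then 1 else 0) else if u = w ∨ u = x then 1 else 0
  a b u := if b then (if u = v then 4 else if u = y then 16 else 0)
    else if u = w then 4 else if u = x then 16 else 0
  th _ := 8
  el b := if b then v else w
  er b := if b then x else y

/-! ### The matrix of a family of gadgets -/

section matrix

variable {C : Type} [Fintype V] [Fintype C] [DecidableEq C]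

/-- the scale `t` -/
def tq (V C : Type) [Fintype V] [Fintype C] : ℚ :=
  1 / (400 * (Fintype.card C + Fintype.card V + 1))

/-- the huge entries -/
def Hq (V C : Type) [Fintype V] [Fintype C] : ℚ :=
  (4 * Fintype.card V + 1) / (tq V C / 4) ^ 3

/-- the superhuge entries -/
def Hq2 (V C : Type) [Fintype V] [Fintype C] : ℚ :=
  3 * Hq V C + (20 * Fintype.card V + 1) / (tq V C / 4)

/-- The matrix of a family of gadgets: block lower triangular with the diagonal blocks
`D = [[1, -a], [-b, 1]]` (rows `V`, comparators), `1` (base column and gadgets), `1`. -/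
def gM (G : C → Gad V) :
    Matrix ((V ⊕ C × Bool) ⊕ (Option C ⊕ C × Bool)) ((V ⊕ C × Bool) ⊕ (Option C ⊕ C × Bool)) ℚ :=
  fromBlocks
    (fromBlocks 1 (of fun x g => -(tq V C * (G g.1).a g.2 x / (G g.1).X x))
      (of fun g y => -(tq V C * (G g.1).wt g.2 y)) 1)
    0
    (fromBlocks (of fun c y => c.elim 1 fun c => (G c).X y)
      (of fun c g => if c = some g.1 then -(tq V C * (G g.1).th g.2) else -Hq V C)
      (of fun e y => if y = (G e.1).el e.2 then 2 else if y = (G e.1).er e.2 then 1 / 2 else 10)
      (of fun _ _ => -Hq2 V C))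
    (fromBlocks 1 0
      (of fun e c => if c = none ∨ c = some e.1 then 1 else 1 / (32 * (Fintype.card C + 1))) 1)

end matrix

/-! ### The matrix of a system of equations -/

/-- the rows `V`: the constant `none`, the unknowns `inl i`, and the copy `inr (q, r)` of the place
`r` of the equation `q` -/
abbrev Var (n m : ℕ) : Type := Option (Fin n ⊕ Fin m × Fin 4)

/-- the unknown or the constant at a place -/
def old {n m : ℕ} (u : Option (Fin n)) : Var n m := u.map Sum.inl

/-- the copy of the place `r` of the equation `q` -/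
def cpy {n m : ℕ} (q : Fin m) (r : Fin 4) : Var n m := some (Sum.inr (q, r))

/-- the constraints: two inequalities for every equation, two for every copy, and the bounds
`z v ≤ 2`, `1 ≤ 2 z v` -/
abbrev CIx (n m : ℕ) : Type :=
  (Fin m × Bool) ⊕ (((Fin m × Fin 4) × Bool) ⊕ ((Fin n ⊕ Fin m × Fin 4) × Bool))

/-- the gadgets of a system of equations -/
def gads {n m : ℕ} (S : Fin m → Eqn n) : CIx n m → Gad (Var n m) :=
  Sum.elim
    (fun c => if (S c.1).add then
        (if c.2 then gSup (cpy c.1 0) (cpy c.1 1) (cpy c.1 2)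
          else gSub (cpy c.1 0) (cpy c.1 1) (cpy c.1 2))
      else
        (if c.2 then gMul (cpy c.1 0) (cpy c.1 1) (cpy c.1 2) (cpy c.1 3)
          else gMul (cpy c.1 2) (cpy c.1 3) (cpy c.1 0) (cpy c.1 1)))
    (Sum.elim
      (fun c => if c.2 then gLe (cpy c.1.1 c.1.2) (old ((S c.1.1).p c.1.2)) 1
        else gLe (old ((S c.1.1).p c.1.2)) (cpy c.1.1 c.1.2) 1)
      (fun c => if c.2 then gLe (some c.1) none 2 else gLe none (some c.1) 2))

/-- **The matrix of a system of equations.** -/
def etrM {n m : ℕ} (S : Fin m → Eqn n) :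
    Matrix ((Var n m ⊕ CIx n m × Bool) ⊕ (Option (CIx n m) ⊕ CIx n m × Bool))
      ((Var n m ⊕ CIx n m × Bool) ⊕ (Option (CIx n m) ⊕ CIx n m × Bool)) ℚ :=
  gM (gads S)

end Pool.Agent.Helper63.URS
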