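import Mathlib
import Pool.Agent.Helper63.UR.Stmt
import Pool.Agent.Helper63.UR.Final

/-!
Universality, in terms of the definitions of the file `Stmt.lean`.
-/

namespace Pool.Agent.Helper63.URS

open Matrix Finset

/-- the gadget as an object of the general theory -/
def Gad.cv {V : Type} (g : Gad V) : UR.Gad V := ⟨g.X, g.wt, g.a, g.th, g.el, g.er⟩

section

variable {V C : Type} [Fintype V] [DecidableEq V] [Fintype C] [DecidableEq C]

theorem tq_eq : tq V C = UR.tq V C := rfl

theorem Hq_eq : Hq V C = UR.Hq V C := rfl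

theorem Hq2_eq : Hq2 V C = UR.Hq2 V C := rfl

theorem gM_eq (G : C → Gad V) : gM G = UR.gM (fun c => (G c).cv) := by
  ext i j
  rcases i with (x | g) | (c | e) <;> rcases j with (y | g') | (c' | e')
  · simp [gM, UR.gM, fromBlocks, Matrix.one_apply]
  · simp [gM, UR.gM, fromBlocks, Gad.cv, tq_eq]
  · simp [gM, UR.gM, fromBlocks]
  · simp [gM, UR.gM, fromBlocks]
  · simp [gM, UR.gM, fromBlocks, Gad.cv, tq_eq]
  · simp [gM, UR.gM, fromBlocks, Matrix.one_apply]
  · simp [gM, UR.gM, fromBlocks]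
  · simp [gM, UR.gM, fromBlocks]
  · cases c <;> simp [gM, UR.gM, fromBlocks, Gad.cv]
  · cases c <;> simp [gM, UR.gM, fromBlocks, Gad.cv, tq_eq, Hq_eq]
  · simp [gM, UR.gM, fromBlocks, Matrix.one_apply]
  · simp [gM, UR.gM, fromBlocks]
  · simp [gM, UR.gM, fromBlocks, Gad.cv]
  · simp [gM, UR.gM, fromBlocks, Hq2_eq]
  · simp [gM, UR.gM, fromBlocks, UR.sq]
  · simp [gM, UR.gM, fromBlocks, Matrix.one_apply]

end

section

variable {V : Type} [DecidableEq V]

theorem gLe_cv (i j : V) (k : ℚ) : (gLe i j k).cv = (UR.Con.le i j k).gad := rfl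

theorem gSub_cv (i j k : V) : (gSub i j k).cv = (UR.Con.sub i j k).gad := by
  have h1 : (gSub i j k).X = (UR.Con.sub i j k).gad.X := by
    funext y
    simp only [gSub, UR.Con.gad]
    split_ifs <;> simp_all
  have h2 : (gSub i j k).wt = (UR.Con.sub i j k).gad.wt := by
    funext b y
    simp only [gSub, UR.Con.gad]
    split_ifs <;> simp_all
  have h3 : (gSub i j k).a = (UR.Con.sub i j k).gad.a := by
    funext b y
    simp only [gSub, UR.Con.gad]
    split_ifs <;> simp_all
  unfold Gad.cv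
  rw [h1, h2, h3]
  rfl

theorem gSup_cv (i j k : V) : (gSup i j k).cv = (UR.Con.sup i j k).gad := by
  have h1 : (gSup i j k).X = (UR.Con.sup i j k).gad.X := by
    funext y
    simp only [gSup, UR.Con.gad]
    split_ifs <;> simp_all
  have h2 : (gSup i j k).wt = (UR.Con.sup i j k).gad.wt := by
    funext b y
    simp only [gSup, UR.Con.gad]
    split_ifs <;> simp_all
  have h3 : (gSup i j k).a = (UR.Con.sup i j k).gad.a := by
    funext b y
    simp only [gSup, UR.Con.gad]
    split_ifs <;> simp_all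
  unfold Gad.cv
  rw [h1, h2, h3]
  rfl

theorem gMul_cv (w v x y : V) : (gMul w v x y).cv = (UR.Con.mul w v x y).gad := by
  have h1 : (gMul w v x y).X = (UR.Con.mul w v x y).gad.X := by
    funext u
    simp only [gMul, UR.Con.gad]
    split_ifs <;> simp_all
  have h2 : (gMul w v x y).wt = (UR.Con.mul w v x y).gad.wt := by
    funext b u
    simp only [gMul, UR.Con.gad]
    split_ifs <;> simp_all
  have h3 : (gMul w v x y).a = (UR.Con.mul w v x y).gad.a := by
    funext b u
    simp only [gMul, UR.Con.gad]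
  unfold Gad.cv
  rw [h1, h2, h3]
  rfl

end

variable {n m : ℕ} {S : Fin m → Eqn n}

/-- the constraints of a system of equations -/
def cons (S : Fin m → Eqn n) : CIx n m → UR.Con (Var n m)
  | Sum.inl (q, b) =>
      if (S q).add then
        (if b then .sup (cpy q 0) (cpy q 1) (cpy q 2) else .sub (cpy q 0) (cpy q 1) (cpy q 2))
      else
        (if b then .mul (cpy q 0) (cpy q 1) (cpy q 2) (cpy q 3)
          else .mul (cpy q 2) (cpy q 3) (cpy q 0) (cpy q 1))
  | Sum.inr (Sum.inl ((q, r), b)) =>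
      if b then .le (cpy q r) (old ((S q).p r)) 1 else .le (old ((S q).p r)) (cpy q r) 1
  | Sum.inr (Sum.inr (u, b)) => if b then .le (some u) none 2 else .le none (some u) 2

theorem gads_cv (S : Fin m → Eqn n) (c : CIx n m) : (gads S c).cv = (cons S c).gad := by
  rcases c with ⟨q, b⟩ | ⟨⟨q, r⟩, b⟩ | ⟨u, b⟩
  · by_cases h : (S q).add = true <;> cases b <;>
      simp [gads, cons, h, gSub_cv, gSup_cv, gMul_cv]
  · cases b <;> simp [gads, cons, gLe_cv]
  · cases b <;> simp [gads, cons, gLe_cv]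

theorem etrM_eq (S : Fin m → Eqn n) : etrM S = UR.gM fun c => (cons S c).gad := by
  unfold etrM
  rw [gM_eq]
  congr 1
  funext c
  exact gads_cv S c

theorem cpy_ne (q : Fin m) {r r' : Fin 4} (h : r ≠ r') : (cpy q r : Var n m) ≠ cpy q r' := by
  intro h1
  unfold cpy at h1
  exact h (Prod.mk.inj (Sum.inr.inj (Option.some.inj h1))).2

theorem cpy_ne_old (q : Fin m) (r : Fin 4) (o : Option (Fin n)) : (cpy q r : Var n m) ≠ old o := by
  intro h1
  cases o with
  | none => exact absurd h1 (by simp [cpy, old])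
  | some i => exact absurd h1 (by simp [cpy, old])

theorem cons_dist (S : Fin m → Eqn n) (q : CIx n m) : (cons S q).Dist := by
  have c01 : (0 : Fin 4) ≠ 1 := by decide
  have c02 : (0 : Fin 4) ≠ 2 := by decide
  have c03 : (0 : Fin 4) ≠ 3 := by decide
  have c12 : (1 : Fin 4) ≠ 2 := by decide
  have c13 : (1 : Fin 4) ≠ 3 := by decide
  have c23 : (2 : Fin 4) ≠ 3 := by decide
  rcases q with ⟨q, b⟩ | ⟨⟨q, r⟩, b⟩ | ⟨u, b⟩
  · by_cases h : (S q).add = true
    · cases b
      · have h1 : cons S (Sum.inl (q, false)) = .sub (cpy q 0) (cpy q 1) (cpy q 2) := by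
          simp [cons, h]
        rw [h1]
        exact ⟨cpy_ne q c01, cpy_ne q c02, cpy_ne q c12⟩
      · have h1 : cons S (Sum.inl (q, true)) = .sup (cpy q 0) (cpy q 1) (cpy q 2) := by
          simp [cons, h]
        rw [h1]
        exact ⟨cpy_ne q c01, cpy_ne q c02, cpy_ne q c12⟩
    · cases b
      · have h1 : cons S (Sum.inl (q, false)) = .mul (cpy q 2) (cpy q 3) (cpy q 0) (cpy q 1) := by
          simp [cons, h]
        rw [h1]
        exact ⟨cpy_ne q c23, cpy_ne q c02.symm, cpy_ne q c12.symm, cpy_ne q c03.symm,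
          cpy_ne q c13.symm, cpy_ne q c01⟩
      · have h1 : cons S (Sum.inl (q, true)) = .mul (cpy q 0) (cpy q 1) (cpy q 2) (cpy q 3) := by
          simp [cons, h]
        rw [h1]
        exact ⟨cpy_ne q c01, cpy_ne q c02, cpy_ne q c03, cpy_ne q c12, cpy_ne q c13,
          cpy_ne q c23⟩
  · cases b
    · have h1 : cons S (Sum.inr (Sum.inl ((q, r), false))) = .le (old ((S q).p r)) (cpy q r) 1 := rfl
      rw [h1]
      exact ⟨(cpy_ne_old q r _).symm, le_rfl, by norm_num⟩
    · have h1 : cons S (Sum.inr (Sum.inl ((q, r), true))) = .le (cpy q r) (old ((S q).p r)) 1 := rfl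
      rw [h1]
      exact ⟨cpy_ne_old q r _, le_rfl, by norm_num⟩
  · cases b
    · have h1 : cons S (Sum.inr (Sum.inr (u, false))) = .le none (some u) 2 := rfl
      rw [h1]
      exact ⟨(Option.some_ne_none u).symm, by norm_num, le_rfl⟩
    · have h1 : cons S (Sum.inr (Sum.inr (u, true))) = .le (some u) none 2 := rfl
      rw [h1]
      exact ⟨Option.some_ne_none u, by norm_num, le_rfl⟩

theorem cons_box (S : Fin m → Eqn n) (v : Var n m) (hv : v ≠ none) :
    (∃ q, cons S q = .le v none 2) ∧ ∃ q, cons S q = .le none v 2 := by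
  cases v with
  | none => exact absurd rfl hv
  | some u => exact ⟨⟨Sum.inr (Sum.inr (u, true)), rfl⟩, Sum.inr (Sum.inr (u, false)), rfl⟩

/-- solutions of the constraints give solutions of the equations -/
theorem solves_of_holds {z : Var n m → ℝ} (h0 : z none = 1) (h : ∀ q, (cons S q).Holds 0 z)
    (q : Fin m) : (S q).Solves fun i => z (some (Sum.inl i)) := by
  have hev : ∀ o : Option (Fin n), ev (fun i => z (some (Sum.inl i))) o = z (old o) := by
    intro o
    cases o with
    | none => exact h0.symm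
    | some i => rfl
  have hcpy : ∀ r : Fin 4, z (cpy q r) = z (old ((S q).p r)) := by
    intro r
    have h1 : z (cpy q r) ≤ (1 + 0) * ((1 : ℚ) * z (old ((S q).p r))) :=
      h (Sum.inr (Sum.inl ((q, r), true)))
    have h2 : z (old ((S q).p r)) ≤ (1 + 0) * ((1 : ℚ) * z (cpy q r)) :=
      h (Sum.inr (Sum.inl ((q, r), false)))
    push_cast at h1 h2
    linarith
  have ht := h (Sum.inl (q, true))
  have hf := h (Sum.inl (q, false))
  unfold Eqn.Solves
  by_cases ha : (S q).add = true
  · have e1 : cons S (Sum.inl (q, false)) = .sub (cpy q 0) (cpy q 1) (cpy q 2) := by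
      simp [cons, ha]
    have e2 : cons S (Sum.inl (q, true)) = .sup (cpy q 0) (cpy q 1) (cpy q 2) := by
      simp [cons, ha]
    rw [e1] at hf
    rw [e2] at ht
    have h3 : z (cpy q 2) ≤ (1 + 0) * (z (cpy q 0) + z (cpy q 1)) := hf
    have h4 : z (cpy q 0) + z (cpy q 1) ≤ (1 + 0) * z (cpy q 2) := ht
    rw [hcpy 0, hcpy 1, hcpy 2] at h3 h4
    rw [if_pos ha, hev, hev, hev]
    linarith
  · have e1 : cons S (Sum.inl (q, false)) = .mul (cpy q 2) (cpy q 3) (cpy q 0) (cpy q 1) := by
      simp [cons, ha]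
    have e2 : cons S (Sum.inl (q, true)) = .mul (cpy q 0) (cpy q 1) (cpy q 2) (cpy q 3) := by
      simp [cons, ha]
    rw [e1] at hf
    rw [e2] at ht
    have h3 : z (cpy q 2) * z (cpy q 3) ≤ (1 + 0) * (z (cpy q 0) * z (cpy q 1)) := hf
    have h4 : z (cpy q 0) * z (cpy q 1) ≤ (1 + 0) * (z (cpy q 2) * z (cpy q 3)) := ht
    rw [hcpy 0, hcpy 1, hcpy 2, hcpy 3] at h3 h4
    rw [if_neg ha, hev, hev, hev, hev]
    linarith

/-- the extension of `z` to all variables -/
def ext (S : Fin m → Eqn n) (z : Fin n → ℝ) : Var n m → ℝ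
  | none => 1
  | some (Sum.inl i) => z i
  | some (Sum.inr (q, r)) => ev z ((S q).p r)

theorem ext_box {z : Fin n → ℝ} (hz : ∀ i, 1 / 2 ≤ z i ∧ z i ≤ 2) (v : Var n m) :
    1 / 2 ≤ ext S z v ∧ ext S z v ≤ 2 := by
  have h1 : ∀ o : Option (Fin n), 1 / 2 ≤ ev z o ∧ ev z o ≤ 2 := by
    intro o
    cases o with
    | none =>
      show 1 / 2 ≤ (1 : ℝ) ∧ (1 : ℝ) ≤ 2
      constructor <;> norm_num
    | some i => exact hz i
  rcases v with _ | i | ⟨q, r⟩
  · exact h1 none
  · exact hz i
  · exact h1 _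

theorem ext_cpy (S : Fin m → Eqn n) (z : Fin n → ℝ) (q : Fin m) (r : Fin 4) :
    ext S z (cpy q r) = ev z ((S q).p r) := rfl

theorem ext_old (S : Fin m → Eqn n) (z : Fin n → ℝ) (o : Option (Fin n)) :
    ext S z (old o) = ev z o := by
  cases o <;> rfl

theorem sol_of_solves {z : Fin n → ℝ} (hz : ∀ i, 1 / 2 ≤ z i ∧ z i ≤ 2)
    (h : ∀ q, (S q).Solves z) (q : CIx n m) : (cons S q).gad.Sol (ext S z) := by
  have hb := ext_box (S := S) hz
  have hd := cons_dist S q
  rcases q with ⟨q, b⟩ | ⟨⟨q, r⟩, b⟩ | ⟨u, b⟩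
  · have hs := h q
    unfold Eqn.Solves at hs
    by_cases hq : (S q).add = true
    · rw [if_pos hq] at hs
      cases b
      · have e : cons S (Sum.inl (q, false)) = .sub (cpy q 0) (cpy q 1) (cpy q 2) := by
          simp [cons, hq]
        rw [e] at hd ⊢
        exact UR.Con.sol_sub hd hb (by rw [ext_cpy, ext_cpy, ext_cpy, hs])
      · have e : cons S (Sum.inl (q, true)) = .sup (cpy q 0) (cpy q 1) (cpy q 2) := by
          simp [cons, hq]
        rw [e] at hd ⊢
        exact UR.Con.sol_sup hd hb (by rw [ext_cpy, ext_cpy, ext_cpy, hs])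
    · rw [if_neg hq] at hs
      cases b
      · have e : cons S (Sum.inl (q, false)) = .mul (cpy q 2) (cpy q 3) (cpy q 0) (cpy q 1) := by
          simp [cons, hq]
        rw [e] at hd ⊢
        exact UR.Con.sol_mul hd hb (by rw [ext_cpy, ext_cpy, ext_cpy, ext_cpy, hs])
      · have e : cons S (Sum.inl (q, true)) = .mul (cpy q 0) (cpy q 1) (cpy q 2) (cpy q 3) := by
          simp [cons, hq]
        rw [e] at hd ⊢
        exact UR.Con.sol_mul hd hb (by rw [ext_cpy, ext_cpy, ext_cpy, ext_cpy, hs])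
  · have e0 : ext S z (cpy q r) = ext S z (old ((S q).p r)) := by
      rw [ext_cpy, ext_old]
    cases b
    · have e : cons S (Sum.inr (Sum.inl ((q, r), false))) = .le (old ((S q).p r)) (cpy q r) 1 := by
        simp [cons]
      rw [e] at hd ⊢
      refine UR.Con.sol_le hd hb ?_
      rw [e0, Rat.cast_one, one_mul]
    · have e : cons S (Sum.inr (Sum.inl ((q, r), true))) = .le (cpy q r) (old ((S q).p r)) 1 := by
        simp [cons]
      rw [e] at hd ⊢
      refine UR.Con.sol_le hd hb ?_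
      rw [e0, Rat.cast_one, one_mul]
  · have e0 : ext S z none = 1 := rfl
    cases b
    · have e : cons S (Sum.inr (Sum.inr (u, false))) = .le none (some u) 2 := by
        simp [cons]
      rw [e] at hd ⊢
      refine UR.Con.sol_le hd hb ?_
      rw [e0]
      have := (hb (some u)).1
      push_cast
      linarith
    · have e : cons S (Sum.inr (Sum.inr (u, true))) = .le (some u) none 2 := by
        simp [cons]
      rw [e] at hd ⊢
      refine UR.Con.sol_le hd hb ?_
      rw [e0]
      have := (hb (some u)).2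
      push_cast
      linarith

/-- **Universality.** -/
theorem etr_main (S : Fin m → Eqn n) {N : ℕ}
    (c : Fin N ≃ (Var n m ⊕ CIx n m × Bool) ⊕ (Option (CIx n m) ⊕ CIx n m × Bool))
    (A : Matrix (Fin N) (Fin N) ℂ) (hA : ∀ x y, A x y = ((etrM S (c x) (c y) : ℚ) : ℂ)) :
    IsGKK A ∧ (A ∈ closure {B : Matrix (Fin N) (Fin N) ℂ | IsStrictGKK B} ↔
      ∃ z : Fin n → ℝ, (∀ i, 1 / 2 ≤ z i ∧ z i ≤ 2) ∧ ∀ q, (S q).Solves z) := by
  have hAc : A = UR.cm c (UR.gMr fun q => (cons S q).gad) := by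
    ext x y
    rw [hA, etrM_eq]
    simp [UR.cm, UR.gMr]
  have hok : ∀ q, ((cons S q).gad).Ok := fun q => UR.Con.ok _ (cons_dist S q)
  refine ⟨?_, ?_, ?_⟩
  · rw [hAc]
    exact UR.LBM.isGKK c (UR.gMr_lbm hok)
  · intro h
    rw [hAc] at h
    obtain ⟨z, h0, hbox, hz⟩ := UR.exists_exact (cons S) none (cons_box S) (by
      intro ε hε
      obtain ⟨δ, hδ, hδε⟩ := UR.exists_delta hε
      obtain ⟨z, hz, hr⟩ := UR.nec hok (e := c) h hδ
      refine ⟨z, hz, fun q => ?_⟩
      exact UR.Con.Holds.mono (cons_dist S q) hδε hz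
        (UR.Con.holds_of_rel _ (cons_dist S q) hδ hz (hr q)))
    exact ⟨fun i => z (some (Sum.inl i)), fun i => hbox _, solves_of_holds h0 hz⟩
  · rintro ⟨z, hbox, hz⟩
    rw [hAc]
    exact UR.suff hok (ext_box hbox) (sol_of_solves hbox hz) c

end Pool.Agent.Helper63.URS
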